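import Mathlib

/-!
# Galois conjugation of relations between roots of unity
-/

set_option autoImplicit false

open Finset Polynomial

namespace Pool.Agent.U338.SIC

theorem gal {ι : Type*} (N u : ℕ) (hN : 0 < N) (hu : Nat.Coprime u N) (s : Finset ι)
    (m : ι → ℤ) (z : ι → ℂ) (hz : ∀ i ∈ s, z i ^ N = 1) (M : ℤ) (w : ℂ) (hw : w ^ N = 1)
    (h : ∑ i ∈ s, (m i : ℂ) * z i = M * w) :
    ∑ i ∈ s, (m i : ℂ) * z i ^ u = M * w ^ u := by
  classical
  have : NeZero N := ⟨hN.ne'⟩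
  set ω : ℂ := Complex.exp (2 * Real.pi * Complex.I / N) with hω
  have hprim : IsPrimitiveRoot ω N := Complex.isPrimitiveRoot_exp N hN.ne'
  have h1 : ∀ i, ∃ e : ℕ, i ∈ s → ω ^ e = z i := by
    intro i
    by_cases hi : i ∈ s
    · obtain ⟨e, -, he⟩ := hprim.eq_pow_of_pow_eq_one (hz i hi)
      exact ⟨e, fun _ => he⟩
    · exact ⟨0, fun h => absurd h hi⟩
  choose e he using h1
  obtain ⟨e0, -, he0⟩ := hprim.eq_pow_of_pow_eq_one hw
  set P : ℤ[X] := (∑ i ∈ s, C (m i) * X ^ (e i)) - C M * X ^ e0 with hP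
  have hval : ∀ k : ℕ, aeval (ω ^ k) P = (∑ i ∈ s, (m i : ℂ) * z i ^ k) - M * w ^ k := by
    intro k
    rw [hP, map_sub, map_sum]
    congr 1
    · refine Finset.sum_congr rfl fun i hi => ?_
      rw [map_mul, map_pow, aeval_X, aeval_C, ← pow_mul, mul_comm k, pow_mul, he i hi]
      simp
    · rw [map_mul, map_pow, aeval_X, aeval_C, ← pow_mul, mul_comm k, pow_mul, he0]
      simp
  have h2 : aeval ω P = 0 := by
    have := hval 1
    simp only [pow_one] at this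
    rw [this, h, sub_self]
  have h3 : minpoly ℤ ω ∣ P := minpoly.isIntegrallyClosed_dvd (hprim.isIntegral hN) h2
  have h4 : aeval (ω ^ u) P = 0 := by
    obtain ⟨R, hR⟩ := h3
    rw [hprim.minpoly_eq_pow_coprime hu] at hR
    rw [hR, map_mul, minpoly.aeval, zero_mul]
  rw [hval] at h4
  exact sub_eq_zero.1 h4

/-- a divisibility from an integral relation -/
theorem dvd_of_integral (Q D : ℕ) (hQ : Q ≠ 0) (hco : Nat.Coprime Q D) (S : ℤ) (Y : ℂ)
    (hY : IsIntegral ℤ Y) (h : (D : ℂ) * S = Q * Y) : (Q : ℤ) ∣ S := by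
  have hQ' : (Q : ℂ) ≠ 0 := by exact_mod_cast hQ
  have hr : Y = (((D : ℚ) * S / Q : ℚ) : ℂ) := by
    push_cast
    rw [eq_div_iff hQ', h]
    ring
  have h1 : IsIntegral ℤ (algebraMap ℚ ℂ ((D : ℚ) * S / Q)) := by
    rw [hr] at hY
    simpa using hY
  have h2 : IsIntegral ℤ ((D : ℚ) * S / Q) :=
    (isIntegral_algebraMap_iff (algebraMap ℚ ℂ).injective).1 h1
  obtain ⟨z, hz⟩ := IsIntegrallyClosed.isIntegral_iff.1 h2
  have h3 : (D : ℤ) * S = Q * z := by
    have hQ2 : (Q : ℚ) ≠ 0 := by exact_mod_cast hQ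
    have h4 : (z : ℚ) = (D : ℚ) * S / Q := by rw [← hz]; simp
    rw [eq_div_iff hQ2] at h4
    have h5 : ((D : ℤ) * S : ℚ) = Q * z := by push_cast; linear_combination -h4
    exact_mod_cast h5
  have hc : IsCoprime (Q : ℤ) (D : ℤ) := Nat.isCoprime_iff_coprime.2 hco
  exact hc.dvd_of_dvd_mul_left ⟨z, h3⟩

end Pool.Agent.U338.SIC
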