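import Mathlib
import Pool.Agent.N392.Ab.Base

/-!
# Parity-symmetric fiducials over finite abelian groups: basic identities
-/

set_option autoImplicit false

open Finset ComplexConjugate

namespace Pool.Agent.U338.SIC

open Pool.Agent.N392.Ab

variable {A : Type*} [AddCommGroup A] [Fintype A]

/-- A fiducial which is an eigenvector of the plain parity `k ↦ -k` with eigenvalue `ε`. -/
structure Par (x : A → ℂ) (ε : ℂ) : Prop where
  nrm : ov x 0 0 = 1
  mod : ∀ (a : A) (χ : AddChar A ℂ), (a ≠ 0 ∨ χ ≠ 0) →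
    ov x a χ * conj (ov x a χ) = 1 / ((Fintype.card A : ℂ) + 1)
  par : ∀ k, x (-k) = ε * x k
  eps : ε = 1 ∨ ε = -1

theorem eps_sq {ε : ℂ} (h : ε = 1 ∨ ε = -1) : ε * ε = 1 := by
  rcases h with h | h <;> rw [h] <;> norm_num

theorem eps_conj {ε : ℂ} (h : ε = 1 ∨ ε = -1) : conj ε = ε := by
  rcases h with h | h <;> rw [h] <;> simp

/-- orthogonality, as used below -/
theorem sum_char_apply [DecidableEq A] (a : A) :
    ∑ η : AddChar A ℂ, η a = if a = 0 then (Fintype.card A : ℂ) else 0 := by
  rw [AddChar.sum_apply_eq_ite]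

/-- Fourier inversion -/
theorem ov_inv (x : A → ℂ) (w l : A) :
    ∑ η : AddChar A ℂ, η (-l) * ov x w η = Fintype.card A * (conj (x l) * x (l + w)) := by
  classical
  unfold ov
  simp_rw [Finset.mul_sum]
  rw [Finset.sum_comm]
  have h1 : ∀ k : A, ∑ η : AddChar A ℂ, η (-l) * (conj (x k) * x (k + w) * η k) =
      if k = l then (Fintype.card A : ℂ) * (conj (x l) * x (l + w)) else 0 := by
    intro k
    have h2 : ∀ η : AddChar A ℂ, η (-l) * (conj (x k) * x (k + w) * η k) =
        (conj (x k) * x (k + w)) * η (k - l) := by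
      intro η
      rw [sub_eq_add_neg, AddChar.map_add_eq_mul]
      ring
    simp_rw [h2]
    rw [← Finset.mul_sum, sum_char_apply]
    by_cases h3 : k = l
    · rw [h3, sub_self, if_pos rfl, if_pos rfl]; ring
    · rw [if_neg (sub_ne_zero.2 h3), if_neg h3, mul_zero]
  rw [Finset.sum_congr rfl fun k _ => h1 k, Finset.sum_ite_eq', if_pos (Finset.mem_univ _)]

/-- complex conjugation, no symmetry needed -/
theorem conj_ov (x : A → ℂ) (a : A) (χ : AddChar A ℂ) :
    conj (ov x a χ) = χ a * ov x (-a) (-χ) := by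
  unfold ov
  rw [map_sum, Finset.mul_sum, ← Equiv.sum_comp (Equiv.subRight a)]
  refine Finset.sum_congr rfl fun k _ => ?_
  simp only [Equiv.subRight_apply, map_mul, Complex.conj_conj]
  rw [conj_char, sub_add_cancel, AddChar.neg_apply, sub_eq_add_neg k a]
  have h1 : χ (-(k + -a)) = χ a * χ (-k) := by
    rw [← AddChar.map_add_eq_mul]
    congr 1
    abel
  rw [h1]
  ring

theorem Par.conj_ov {x : A → ℂ} {ε : ℂ} (h : Par x ε) (a : A) (χ : AddChar A ℂ) :
    conj (ov x a χ) = χ a * ov x a χ := by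
  unfold ov
  rw [map_sum, Finset.mul_sum, ← Equiv.sum_comp ((Equiv.neg A).trans (Equiv.subRight a))]
  refine Finset.sum_congr rfl fun k _ => ?_
  simp only [Equiv.trans_apply, Equiv.neg_apply, Equiv.subRight_apply, map_mul,
    Complex.conj_conj]
  rw [conj_char]
  have e1 : x (-k - a) = ε * x (k + a) := by rw [← h.par]; congr 1; abel
  have e2 : x (-k - a + a) = ε * x k := by rw [← h.par]; congr 1; abel
  have e3 : χ (-(-k - a)) = χ a * χ k := by
    rw [← AddChar.map_add_eq_mul]; congr 1; abel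
  rw [e1, e2, e3, map_mul (starRingEnd ℂ), eps_conj h.eps]
  have := eps_sq h.eps
  linear_combination (χ a * χ k * conj (x k) * x (k + a)) * this

theorem Par.neg {x : A → ℂ} {ε : ℂ} (h : Par x ε) (a : A) (χ : AddChar A ℂ) :
    ov x (-a) (-χ) = ov x a χ := by
  have h1 := h.conj_ov a χ
  rw [Pool.Agent.U338.SIC.conj_ov] at h1
  have h2 : χ a ≠ 0 := by
    intro h3
    have := norm_char χ a
    rw [h3, norm_zero] at this
    exact zero_ne_one this
  exact mul_left_cancel₀ h2 h1

theorem Par.sq {x : A → ℂ} {ε : ℂ} (h : Par x ε) (a : A) (χ : AddChar A ℂ)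
    (hv : a ≠ 0 ∨ χ ≠ 0) :
    χ a * ov x a χ ^ 2 = 1 / ((Fintype.card A : ℂ) + 1) := by
  rw [← h.mod a χ hv, h.conj_ov]
  ring

/-- self-duality -/
theorem Par.sd {x : A → ℂ} {ε : ℂ} (h : Par x ε) (a : A) (χ : AddChar A ℂ) :
    (Fintype.card A : ℂ) * ov x a χ =
      ε * ∑ k : A, ∑ η : AddChar A ℂ, (η - χ) k * ov x (k + k - a) η := by
  have h1 : ∀ k : A, ∑ η : AddChar A ℂ, (η - χ) k * ov x (k + k - a) η =
      χ (-k) * (Fintype.card A * (conj (x (-k)) * x (-k + (k + k - a)))) := by
    intro k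
    rw [← ov_inv, Finset.mul_sum]
    refine Finset.sum_congr rfl fun η _ => ?_
    rw [neg_neg, AddChar.sub_apply]
    ring
  simp_rw [h1]
  rw [Finset.mul_sum, ← Equiv.sum_comp (Equiv.neg A)]
  unfold ov
  rw [Finset.mul_sum]
  refine Finset.sum_congr rfl fun k _ => ?_
  simp only [Equiv.neg_apply, neg_neg]
  have e1 : x (k + (-k + -k - a)) = ε * x (k + a) := by rw [← h.par]; congr 1; abel
  rw [e1]
  have := eps_sq h.eps
  linear_combination (-(χ k * Fintype.card A * conj (x k) * x (k + a))) * this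

/-- the quadratic identity -/
theorem quad_id (x : A → ℂ) (hx : ov x 0 0 = 1) (c : A) (χ : AddChar A ℂ) :
    ∑ a : A, ∑ η : AddChar A ℂ, (χ - η) (-a) * (ov x a η * ov x (c - a) (χ - η)) =
      Fintype.card A * ov x c χ := by
  classical
  have h1 : ∀ a : A, ∑ η : AddChar A ℂ, (χ - η) (-a) * (ov x a η * ov x (c - a) (χ - η)) =
      Fintype.card A * ∑ k, χ k * (conj (x k) * x (k + c)) * (conj (x (k + a)) * x (k + a)) := by
    intro a
    have h2 : ∀ η : AddChar A ℂ, (χ - η) (-a) * (ov x a η * ov x (c - a) (χ - η)) =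
        ∑ l, conj (x l) * x (l + (c - a)) * χ (l - a) * (η (-(l - a)) * ov x a η) := by
      intro η
      unfold ov
      rw [Finset.mul_sum, Finset.mul_sum]
      refine Finset.sum_congr rfl fun l _ => ?_
      have e1 : (χ - η) (-a) * (χ - η) l = χ (l - a) * η (-(l - a)) := by
        rw [← AddChar.map_add_eq_mul, AddChar.sub_apply]
        congr 2 <;> abel
      linear_combination (conj (x l) * x (l + (c - a)) *
        (∑ k, conj (x k) * x (k + a) * η k)) * e1
    simp_rw [h2]
    rw [Finset.sum_comm]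
    simp_rw [← Finset.mul_sum]
    have h3 : ∀ l : A, conj (x l) * x (l + (c - a)) * χ (l - a) *
        ∑ η : AddChar A ℂ, η (-(l - a)) * ov x a η =
        Fintype.card A * (χ (l - a) * (conj (x (l - a)) * x (l - a + c)) *
          (conj (x (l - a + a)) * x (l - a + a))) := by
      intro l
      rw [ov_inv]
      have e1 : l + (c - a) = l - a + c := by abel
      have e2 : l - a + a = l := by abel
      rw [e1, e2]
      ring
    rw [Finset.sum_congr rfl fun l _ => h3 l, ← Finset.mul_sum,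
      ← Equiv.sum_comp (Equiv.addRight a)]
    simp only [Equiv.coe_addRight, add_sub_cancel_right]
  rw [Finset.sum_congr rfl fun a _ => h1 a, ← Finset.mul_sum, Finset.sum_comm]
  congr 1
  unfold ov
  refine Finset.sum_congr rfl fun k _ => ?_
  rw [← Finset.mul_sum]
  have h4 : ∑ a, conj (x (k + a)) * x (k + a) = 1 := by
    rw [← hx]
    unfold ov
    rw [← Equiv.sum_comp (Equiv.addLeft k) (fun a => conj (x a) * x (a + 0) * (0 : AddChar A ℂ) a)]
    refine Finset.sum_congr rfl fun a _ => ?_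
    simp
  rw [h4]
  ring

end Pool.Agent.U338.SIC
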