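import Mathlib
import Pool.Agent.U338.SIC.Basic

/-!
# Displaced parity of a fiducial is a time-frequency translate of the plain parity
-/

set_option autoImplicit false

open Finset ComplexConjugate

namespace Pool.Agent.U338.SIC

open Pool.Agent.N392.Ab

variable {A : Type*} [AddCommGroup A] [Fintype A]

omit [Fintype A] in
theorem char_mul_neg (χ : AddChar A ℂ) (a : A) : χ a * χ (-a) = 1 := by
  rw [← AddChar.map_add_eq_mul, add_neg_cancel, AddChar.map_zero_eq_one]

theorem ov_translate (x : A → ℂ) (m : A) (ψ : AddChar A ℂ) (a : A) (χ : AddChar A ℂ) :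
    ov (fun k => ψ k * x (k + m)) a χ = ψ a * χ (-m) * ov x a χ := by
  unfold ov
  rw [Finset.mul_sum, ← Equiv.sum_comp (Equiv.subRight m)]
  refine Finset.sum_congr rfl fun k _ => ?_
  simp only [Equiv.subRight_apply, map_mul]
  rw [conj_char]
  have e1 : k - m + m = k := by abel
  have e2 : k - m + a + m = k + a := by abel
  have e3 : ψ (-(k - m)) * ψ (k - m + a) = ψ a := by
    rw [← AddChar.map_add_eq_mul]; congr 1; abel
  have e4 : χ (k - m) = χ (-m) * χ k := by
    rw [← AddChar.map_add_eq_mul]; congr 1; abel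
  rw [e1, e2, e4]
  linear_combination (conj (x k) * x (k + a) * χ (-m) * χ k) * e3

/-- a character of `A` that is trivial on `2A` but not at a given element outside `2A` -/
theorem exists_char (c : A) (hc : ¬ ∃ m, c = m + m) :
    ∃ χ : AddChar A ℂ, (∀ a, χ (a + a) = 1) ∧ χ c ≠ 1 := by
  classical
  let f : A →+ A := nsmulAddMonoidHom 2
  have h1 : (QuotientAddGroup.mk' f.range) c ≠ 0 := by
    intro h
    rw [QuotientAddGroup.mk'_apply, QuotientAddGroup.eq_zero_iff] at h
    obtain ⟨m, hm⟩ := h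
    apply hc
    refine ⟨m, ?_⟩
    rw [← hm]
    simp [f, two_nsmul]
  have : Finite (A ⧸ f.range) := inferInstance
  obtain ⟨ψ, hψ⟩ := AddChar.exists_apply_ne_zero.2 h1
  refine ⟨ψ.compAddMonoidHom (QuotientAddGroup.mk' f.range), fun a => ?_, hψ⟩
  have h2 : (QuotientAddGroup.mk' f.range) (a + a) = 0 := by
    rw [QuotientAddGroup.mk'_apply, QuotientAddGroup.eq_zero_iff]
    exact ⟨a, by simp [f, two_nsmul]⟩
  rw [AddChar.compAddMonoidHom_apply, h2, AddChar.map_zero_eq_one]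

/-- dual version -/
theorem exists_elem (η : AddChar A ℂ) (hη : ¬ ∃ ψ, η = ψ + ψ) :
    ∃ τ : A, τ + τ = 0 ∧ η τ ≠ 1 := by
  classical
  have : Fintype (AddChar A ℂ) := inferInstance
  obtain ⟨Ξ, h1, h2⟩ := exists_char (A := AddChar A ℂ) η hη
  obtain ⟨τ, rfl⟩ := (AddChar.doubleDualEmb_bijective (α := A)).2 Ξ
  simp only [AddChar.doubleDualEmb_apply] at h1 h2
  refine ⟨τ, ?_, h2⟩
  by_contra h3
  obtain ⟨ψ, hψ⟩ := AddChar.exists_apply_ne_zero.2 h3
  apply hψ
  rw [AddChar.map_add_eq_mul, ← AddChar.add_apply]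
  exact h1 ψ

variable {x : A → ℂ}

theorem ov_ne (h2 : ∀ (a : A) (χ : AddChar A ℂ), (a ≠ 0 ∨ χ ≠ 0) →
    ov x a χ * conj (ov x a χ) = 1 / ((Fintype.card A : ℂ) + 1)) (a : A) (χ : AddChar A ℂ)
    (h : a ≠ 0 ∨ χ ≠ 0) : ov x a χ ≠ 0 := by
  intro h3
  have h4 := h2 a χ h
  rw [h3, zero_mul] at h4
  exact (one_div_ne_zero card1_ne) h4.symm

theorem lam_norm (h1 : ov x 0 0 = 1) (c : A) (η : AddChar A ℂ) (lam : ℂ)
    (hs : ∀ k, x (c - k) = lam * (η k * x k)) : conj lam * lam = 1 := by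
  have h2 : ov x 0 0 = conj lam * lam * ov x 0 0 := by
    conv_lhs => unfold ov
    unfold ov
    rw [Finset.mul_sum, ← Equiv.sum_comp (Equiv.subLeft c)]
    refine Finset.sum_congr rfl fun k _ => ?_
    simp only [Equiv.subLeft_apply, add_zero, AddChar.zero_apply, mul_one]
    rw [hs, map_mul, map_mul, conj_char]
    have := char_mul_neg η k
    linear_combination (conj lam * lam * conj (x k) * x k) * this
  rw [h1, mul_one] at h2
  exact h2.symm

theorem half_c (h1 : ov x 0 0 = 1) (h2 : ∀ (a : A) (χ : AddChar A ℂ), (a ≠ 0 ∨ χ ≠ 0) →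
    ov x a χ * conj (ov x a χ) = 1 / ((Fintype.card A : ℂ) + 1)) (c : A) (η : AddChar A ℂ)
    (lam : ℂ) (hs : ∀ k, x (c - k) = lam * (η k * x k)) : ∃ m, c = m + m := by
  by_contra hc
  obtain ⟨χ, h3, h4⟩ := exists_char c hc
  have hχ : χ ≠ 0 := by
    rintro rfl
    exact h4 rfl
  have hl := lam_norm h1 c η lam hs
  have h5 : ov x 0 χ = χ c * ov x 0 χ := by
    conv_lhs => unfold ov
    unfold ov
    rw [Finset.mul_sum, ← Equiv.sum_comp (Equiv.subLeft c)]
    refine Finset.sum_congr rfl fun k _ => ?_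
    simp only [Equiv.subLeft_apply, add_zero]
    rw [hs, map_mul, map_mul, conj_char]
    have e1 := char_mul_neg η k
    have e2 : χ (c - k) = χ c * χ k := by
      have e3 : χ (c - k) * χ (k + k) = χ c * χ k := by
        rw [← AddChar.map_add_eq_mul, ← AddChar.map_add_eq_mul]
        congr 1
        abel
      rw [h3, mul_one] at e3
      exact e3
    rw [e2]
    linear_combination (conj lam * lam * conj (x k) * x k * χ c * χ k) * e1 +
      (conj (x k) * x k * χ c * χ k) * hl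
  have h6 : (1 - χ c) * ov x 0 χ = 0 := by linear_combination h5
  rcases mul_eq_zero.1 h6 with h7 | h7
  · exact h4 (by linear_combination -h7)
  · exact ov_ne h2 0 χ (Or.inr hχ) h7

theorem half_η (h1 : ov x 0 0 = 1) (h2 : ∀ (a : A) (χ : AddChar A ℂ), (a ≠ 0 ∨ χ ≠ 0) →
    ov x a χ * conj (ov x a χ) = 1 / ((Fintype.card A : ℂ) + 1)) (η : AddChar A ℂ)
    (lam : ℂ) (hs : ∀ k, x (0 - k) = lam * (η k * x k)) : ∃ ψ, η = ψ + ψ := by
  by_contra hη
  obtain ⟨τ, h3, h4⟩ := exists_elem η hη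
  have hτ : τ ≠ 0 := by
    rintro rfl
    exact h4 (AddChar.map_zero_eq_one η)
  have hl := lam_norm h1 0 η lam hs
  have h5 : ov x τ 0 = η τ * ov x τ 0 := by
    conv_lhs => unfold ov
    unfold ov
    rw [Finset.mul_sum, ← Equiv.sum_comp (Equiv.subLeft 0)]
    refine Finset.sum_congr rfl fun k _ => ?_
    simp only [Equiv.subLeft_apply, AddChar.zero_apply, mul_one]
    have e0 : x (0 - k + τ) = x (0 - (k + τ)) := by
      congr 1
      have : 0 - k + τ = 0 - (k + τ) + (τ + τ) := by abel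
      rw [this, h3, add_zero]
    rw [e0, hs, hs, map_mul, map_mul, conj_char, AddChar.map_add_eq_mul]
    have e1 := char_mul_neg η k
    linear_combination (conj lam * lam * conj (x k) * x (k + τ) * η τ) * e1 +
      (conj (x k) * x (k + τ) * η τ) * hl
  have h6 : (1 - η τ) * ov x τ 0 = 0 := by linear_combination h5
  rcases mul_eq_zero.1 h6 with h7 | h7
  · exact h4 (by linear_combination -h7)
  · exact ov_ne h2 τ 0 (Or.inl hτ) h7

theorem trans_hyp (h1 : ov x 0 0 = 1) (h2 : ∀ (a : A) (χ : AddChar A ℂ), (a ≠ 0 ∨ χ ≠ 0) →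
    ov x a χ * conj (ov x a χ) = 1 / ((Fintype.card A : ℂ) + 1)) (m : A) (ψ : AddChar A ℂ) :
    ov (fun k => ψ k * x (k + m)) 0 0 = 1 ∧ ∀ (a : A) (χ : AddChar A ℂ), (a ≠ 0 ∨ χ ≠ 0) →
    ov (fun k => ψ k * x (k + m)) a χ * conj (ov (fun k => ψ k * x (k + m)) a χ) =
      1 / ((Fintype.card A : ℂ) + 1) := by
  constructor
  · rw [ov_translate, h1, AddChar.map_zero_eq_one, AddChar.zero_apply]
    norm_num
  · intro a χ h
    rw [ov_translate, map_mul, map_mul, conj_char, conj_char, neg_neg, ← h2 a χ h]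
    have e1 := char_mul_neg ψ a
    have e2 := char_mul_neg χ m
    linear_combination (χ m * χ (-m) * ov x a χ * conj (ov x a χ)) * e1 +
      (ov x a χ * conj (ov x a χ)) * e2

/-- **Reduction.** -/
theorem reduce (h1 : ov x 0 0 = 1) (h2 : ∀ (a : A) (χ : AddChar A ℂ), (a ≠ 0 ∨ χ ≠ 0) →
    ov x a χ * conj (ov x a χ) = 1 / ((Fintype.card A : ℂ) + 1)) (c : A) (η : AddChar A ℂ)
    (lam : ℂ) (hs : ∀ k, x (c - k) = lam * (η k * x k)) :
    ∃ (m : A) (ψ : AddChar A ℂ) (ε : ℂ), c = m + m ∧ η = ψ + ψ ∧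
      Par (fun k => ψ k * x (k + m)) ε := by
  obtain ⟨m, hm⟩ := half_c h1 h2 c η lam hs
  obtain ⟨h3, h4⟩ := trans_hyp h1 h2 m 0
  have hs' : ∀ k, (fun k => (0 : AddChar A ℂ) k * x (k + m)) (0 - k) =
      (lam * η m) * (η k * (fun k => (0 : AddChar A ℂ) k * x (k + m)) k) := by
    intro k
    simp only [AddChar.zero_apply, one_mul]
    have e1 : (0 : A) - k + m = c - (k + m) := by rw [hm]; abel
    rw [e1, hs, AddChar.map_add_eq_mul]
    ring
  obtain ⟨ψ, hψ⟩ := half_η h3 h4 η (lam * η m) hs'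
  obtain ⟨h5, h6⟩ := trans_hyp h1 h2 m ψ
  have hpar : ∀ k, (fun k => ψ k * x (k + m)) (-k) =
      (lam * η m) * (fun k => ψ k * x (k + m)) k := by
    intro k
    simp only
    have e1 : -k + m = c - (k + m) := by rw [hm]; abel
    rw [e1, hs, AddChar.map_add_eq_mul]
    have e2 : η k = ψ k * ψ k := by rw [hψ, AddChar.add_apply]
    have e3 := char_mul_neg ψ k
    rw [e2]
    linear_combination (lam * η m * ψ k * x (k + m)) * e3
  refine ⟨m, ψ, lam * η m, hm, hψ, h5, h6, hpar, ?_⟩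
  have hne : ∃ k, ψ k * x (k + m) ≠ 0 := by
    by_contra h
    push Not at h
    have h7 : ov (fun k => ψ k * x (k + m)) 0 0 = 0 := by
      unfold ov
      refine Finset.sum_eq_zero fun k _ => ?_
      have := h k
      simp only [this]
      simp
    rw [h7] at h5
    exact zero_ne_one h5
  obtain ⟨k, hk⟩ := hne
  have h7 := hpar (-k)
  rw [neg_neg, hpar k] at h7
  simp only at h7
  have h8 : ((lam * η m) * (lam * η m) - 1) * (ψ k * x (k + m)) = 0 := by
    linear_combination -h7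
  have h9 := (mul_eq_zero.1 h8).resolve_right hk
  exact mul_self_eq_one_iff.1 (by linear_combination h9)

end Pool.Agent.U338.SIC
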