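import Mathlib
import Pool.Agent.U338.SIC.Reduce

/-!
# A parity-symmetric fiducial in dimension at least three lives in dimension `n² - 1`
-/

set_option autoImplicit false

open Finset ComplexConjugate

namespace Pool.Agent.U338.SIC

open Pool.Agent.N392.Ab

/-- the complex number `√(d+1)` -/
noncomputable def sq1 (d : ℕ) : ℂ := ((Real.sqrt ((d : ℝ) + 1) : ℝ) : ℂ)

theorem sq1_sq (d : ℕ) : sq1 d ^ 2 = (d : ℂ) + 1 := by
  unfold sq1
  rw [← Complex.ofReal_pow, Real.sq_sqrt (by positivity)]
  push_cast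
  rfl

theorem sq1_ne (d : ℕ) : sq1 d ≠ 0 := by
  intro h
  have h1 := sq1_sq d
  rw [h] at h1
  have : (d : ℂ) + 1 ≠ 0 := by exact_mod_cast Nat.succ_ne_zero d
  exact this (by rw [← h1]; ring)

/-- an integer relation for `√(d+1)` -/
theorem rat_of (d : ℕ) (a b : ℤ) (h : (a : ℂ) * sq1 d = b) (hsq : ¬ IsSquare (d + 1)) :
    a = 0 ∧ b = 0 := by
  have h1 : (a : ℝ) * Real.sqrt ((d : ℝ) + 1) = b := by
    have : (((a : ℝ) * Real.sqrt ((d : ℝ) + 1) : ℝ) : ℂ) = ((b : ℝ) : ℂ) := by
      push_cast
      exact h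
    exact_mod_cast this
  have hirr : Irrational √((d + 1 : ℕ) : ℝ) := irrational_sqrt_natCast_iff.2 hsq
  by_cases ha : a = 0
  · refine ⟨ha, ?_⟩
    rw [ha] at h1
    have : (b : ℝ) = 0 := by rw [← h1]; simp
    exact_mod_cast this
  · exfalso
    apply hirr
    refine ⟨(b : ℚ) / a, ?_⟩
    have ha' : (a : ℝ) ≠ 0 := by exact_mod_cast ha
    push_cast
    rw [div_eq_iff ha', ← h1]
    ring

variable {A : Type*} [AddCommGroup A] [Fintype A] {x : A → ℂ} {ε : ℂ}

theorem Par.sign (h : Par x ε) (a : A) (χ : AddChar A ℂ) (hv : a ≠ 0 ∨ χ ≠ 0) (t : ℂ)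
    (ht : t ^ 2 = χ a * ov x a χ ^ 2) :
    ∃ g : ℤ, (g = 1 ∨ g = -1) ∧ sq1 (Fintype.card A) * t = g := by
  have h1 := h.sq a χ hv
  have h2 : (sq1 (Fintype.card A) * t) ^ 2 = 1 := by
    rw [mul_pow, sq1_sq, ht, h1, mul_one_div, div_self card1_ne]
  rcases sq_eq_one_iff.1 h2 with h3 | h3
  · exact ⟨1, Or.inl rfl, by rw [h3]; simp⟩
  · exact ⟨-1, Or.inr rfl, by rw [h3]; simp⟩

/-- not an elementary abelian two-group -/
theorem Par.square1 (h : Par x ε) (hA : ∃ k : A, k + k ≠ 0) :
    IsSquare (Fintype.card A + 1) := by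
  classical
  by_contra hsq
  set d := Fintype.card A with hd
  have hT : ∀ (k : A) (η : AddChar A ℂ), ∃ g : ℤ,
      sq1 d * (η k * ov x (k + k) η) =
        g + (if k + k = 0 ∧ η = 0 then sq1 d else 0) := by
    intro k η
    by_cases h0 : k + k = 0 ∧ η = 0
    · refine ⟨0, ?_⟩
      rw [if_pos h0, h0.1, h0.2, h.nrm, AddChar.zero_apply]
      simp
    · rw [not_and_or] at h0
      obtain ⟨g, -, hg⟩ := h.sign (k + k) η h0 (η k * ov x (k + k) η) (by
        rw [AddChar.map_add_eq_mul]; ring)
      refine ⟨g, ?_⟩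
      rw [if_neg (by rw [not_and_or]; exact h0), add_zero]
      exact hg
  choose g hg using hT
  set κ := (Finset.univ.filter fun k : A => k + k = 0).card with hκ
  have h1 := h.sd 0 0
  rw [h.nrm, mul_one] at h1
  have h2 : sq1 d * ∑ k : A, ∑ η : AddChar A ℂ, (η - 0) k * ov x (k + k - 0) η =
      ((∑ k : A, ∑ η : AddChar A ℂ, g k η : ℤ) : ℂ) + κ * sq1 d := by
    rw [Finset.mul_sum]
    have h3 : ∀ k : A, sq1 d * ∑ η : AddChar A ℂ, (η - 0) k * ov x (k + k - 0) η =
        (∑ η : AddChar A ℂ, (g k η : ℂ)) + if k + k = 0 then sq1 d else 0 := by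
      intro k
      rw [Finset.mul_sum]
      simp_rw [sub_zero, hg]
      rw [Finset.sum_add_distrib]
      congr 1
      by_cases hk : k + k = 0
      · simp [hk]
      · simp [hk]
    rw [Finset.sum_congr rfl fun k _ => h3 k, Finset.sum_add_distrib, ← Finset.sum_filter,
      Finset.sum_const, nsmul_eq_mul]
    push_cast
    rfl
  have hκd : κ < d := by
    rw [hκ, hd, ← Finset.card_univ]
    apply Finset.card_lt_card
    rw [Finset.ssubset_iff_subset_ne]
    refine ⟨Finset.filter_subset _ _, ?_⟩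
    intro h4
    obtain ⟨k, hk⟩ := hA
    have : k ∈ Finset.univ.filter fun k : A => k + k = 0 := by rw [h4]; exact Finset.mem_univ k
    exact hk (Finset.mem_filter.1 this).2
  rw [← hd] at h1
  rcases h.eps with he | he
  · rw [he, one_mul] at h1
    rw [← h1] at h2
    have h5 := rat_of d ((d : ℤ) - κ) (∑ k : A, ∑ η : AddChar A ℂ, g k η) (by
      push_cast
      push_cast at h2
      linear_combination h2) hsq
    have := h5.1
    omega
  · rw [he] at h1
    have h6 : ∑ k : A, ∑ η : AddChar A ℂ, (η - 0) k * ov x (k + k - 0) η = -(d : ℂ) := by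
      linear_combination h1
    rw [h6] at h2
    have h5 := rat_of d (-(d : ℤ) - κ) (∑ k : A, ∑ η : AddChar A ℂ, g k η) (by
      push_cast
      push_cast at h2
      linear_combination h2) hsq
    have := h5.1
    omega

/-- elementary abelian two-groups -/
theorem Par.square2 (h : Par x ε) (hA : ∀ k : A, k + k = 0) (hd3 : 3 ≤ Fintype.card A) :
    IsSquare (Fintype.card A + 1) := by
  classical
  by_contra hsq
  set d := Fintype.card A with hd
  have hpm : ∀ (χ : AddChar A ℂ) (k : A), χ k * χ k = 1 := by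
    intro χ k
    rw [← AddChar.map_add_eq_mul, hA, AddChar.map_zero_eq_one]
  have hneg : ∀ k : A, -k = k := fun k => neg_eq_of_add_eq_zero_left (hA k)
  have hs0 := sq1_ne d
  have hs2 := sq1_sq d
  have hd0 : (d : ℂ) ≠ 0 := by rw [hd]; exact card_ne
  -- the diagonal
  have hm : ∀ k : A, ∃ m : ℤ, sq1 d * (d * (conj (x k) * x k)) = sq1 d + m := by
    intro k
    have h1 := ov_inv x 0 k
    rw [add_zero, ← hd] at h1
    rw [← h1, Finset.mul_sum]
    have h2 : ∀ η : AddChar A ℂ, ∃ g : ℤ, sq1 d * (η (-k) * ov x 0 η) =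
        g + if η = 0 then sq1 d else 0 := by
      intro η
      by_cases h0 : η = 0
      · refine ⟨0, ?_⟩
        rw [if_pos h0, h0, h.nrm, AddChar.zero_apply]
        simp
      · obtain ⟨g, -, hg⟩ := h.sign 0 η (Or.inr h0) (η (-k) * ov x 0 η) (by
          rw [hneg, AddChar.map_zero_eq_one]
          have := hpm η k
          linear_combination (ov x 0 η ^ 2) * this)
        refine ⟨g, ?_⟩
        rw [if_neg h0, add_zero]
        exact hg
    choose g hg using h2
    refine ⟨∑ η, g η, ?_⟩
    simp_rw [hg]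
    rw [Finset.sum_add_distrib, Finset.sum_ite_eq', if_pos (Finset.mem_univ _)]
    push_cast
    ring
  choose m hm using hm
  -- off the diagonal
  have hoff : ∀ k k' : A, k ≠ k' → ∃ U V : ℤ,
      sq1 d * (d * (conj (x k) * x k')) = U + V * Complex.I := by
    intro k k' hkk
    have h1 := ov_inv x (k' - k) k
    rw [add_sub_cancel, ← hd] at h1
    rw [← h1, Finset.mul_sum]
    have h2 : ∀ η : AddChar A ℂ, ∃ U V : ℤ, sq1 d * (η (-k) * ov x (k' - k) η) =
        U + V * Complex.I := by
      intro η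
      set a := k' - k with ha
      have ha0 : a ≠ 0 := sub_ne_zero.2 (Ne.symm hkk)
      have h3 : η a = 1 ∨ η a = -1 := mul_self_eq_one_iff.1 (hpm η a)
      rcases h3 with h3 | h3
      · obtain ⟨g, -, hg⟩ := h.sign a η (Or.inl ha0) (η (-k) * ov x a η) (by
          rw [hneg, h3]
          have := hpm η k
          linear_combination (ov x a η ^ 2) * this)
        exact ⟨g, 0, by rw [hg]; simp⟩
      · obtain ⟨g, -, hg⟩ := h.sign a η (Or.inl ha0) (Complex.I * (η (-k) * ov x a η)) (by
          rw [hneg, h3, mul_pow, Complex.I_sq]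
          have := hpm η k
          linear_combination (-ov x a η ^ 2) * this)
        refine ⟨0, -g, ?_⟩
        push_cast
        have hI := Complex.I_sq
        linear_combination (-Complex.I) * hg + (sq1 d * (η (-k) * ov x a η)) * hI
    choose U V hUV using h2
    refine ⟨∑ η, U η, ∑ η, V η, ?_⟩
    simp_rw [hUV]
    rw [Finset.sum_add_distrib, ← Finset.sum_mul]
    push_cast
    ring
  have hkey : ∀ k k' : A, k ≠ k' → m k + m k' = 0 := by
    intro k k' hkk
    obtain ⟨U, V, hUV⟩ := hoff k k' hkk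
    have h1 : sq1 d * (d * (conj (x k') * x k)) = U - V * Complex.I := by
      have := congrArg conj hUV
      simp only [map_mul, map_add, Complex.conj_I, Complex.conj_conj, map_natCast,
        map_intCast] at this
      have hr : conj (sq1 d) = sq1 d := by unfold sq1; rw [Complex.conj_ofReal]
      rw [hr] at this
      linear_combination this
    have h2 : (sq1 d + m k) * (sq1 d + m k') = (U + V * Complex.I) * (U - V * Complex.I) := by
      rw [← hm k, ← hm k', ← hUV, ← h1]
      ring
    have hI := Complex.I_sq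
    have h3 := rat_of d (m k + m k') (U ^ 2 + V ^ 2 - m k * m k' - (d + 1)) (by
      push_cast
      linear_combination h2 - hs2 - (V : ℂ) ^ 2 * hI) hsq
    exact h3.1
  have hm0 : ∀ k, m k = 0 := by
    intro k
    have hcard : 2 < (Finset.univ : Finset A).card := by rw [Finset.card_univ]; omega
    obtain ⟨a, b, c, -, -, -, hab, hac, hbc⟩ := Finset.two_lt_card_iff.1 hcard
    have h1 := hkey a b hab
    have h2 := hkey a c hac
    have h3 := hkey b c hbc
    have ha : m a = 0 := by omega
    by_cases hka : k = a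
    · rw [hka, ha]
    · have := hkey k a hka
      omega
  -- contradiction
  have hP : ∀ k, conj (x k) * x k = 1 / d := by
    intro k
    have h1 := hm k
    rw [hm0, Int.cast_zero, add_zero] at h1
    have h2 : sq1 d * (d * (conj (x k) * x k) - 1) = 0 := by linear_combination h1
    have h3 := (mul_eq_zero.1 h2).resolve_left hs0
    rw [eq_div_iff hd0]
    linear_combination h3
  obtain ⟨k, hk⟩ : ∃ k : A, k ≠ 0 := by
    by_contra h1
    push Not at h1
    have : Fintype.card A ≤ 1 := Fintype.card_le_one_iff.2 fun a b => by rw [h1 a, h1 b]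
    omega
  obtain ⟨χ, hχ⟩ := AddChar.exists_apply_ne_zero.2 hk
  have hχ0 : χ ≠ 0 := by
    rintro rfl
    exact hχ rfl
  apply ov_ne h.mod 0 χ (Or.inr hχ0)
  unfold ov
  simp_rw [add_zero, hP]
  rw [← Finset.mul_sum, AddChar.sum_eq_ite, if_neg hχ0, mul_zero]

theorem Par.square (h : Par x ε) (hd3 : 3 ≤ Fintype.card A) :
    IsSquare (Fintype.card A + 1) := by
  by_cases hA : ∃ k : A, k + k ≠ 0
  · exact h.square1 hA
  · push Not at hA
    exact h.square2 hA hd3

end Pool.Agent.U338.SIC
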