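import Mathlib
import Pool.Agent.U338.SIC.Square

/-!
# Groups of order eight with an element of order four
-/

set_option autoImplicit false
set_option linter.unusedSectionVars false

open Finset ComplexConjugate

namespace Pool.Agent.U338.SIC

open Pool.Agent.N392.Ab

variable {A : Type*} [AddCommGroup A] [Fintype A] {x : A → ℂ} {ε : ℂ}

/-- square roots of fourth roots of unity -/
theorem re_form (z w : ℂ) (hzw : z ^ 2 = w) (hw : w ^ 4 = 1) :
    ∃ p r : ℤ, 2 * z.re = 2 * p + r * Real.sqrt 2 ∧ |p| ≤ 1 ∧ (w ≠ 1 → p = 0) := by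
  have h1 : (w - 1) * ((w + 1) * ((w - Complex.I) * (w + Complex.I))) = 0 := by
    have hI := Complex.I_sq
    linear_combination hw - (w ^ 2 - 1) * hI
  have hnorm : ‖z‖ = 1 := by
    have h2 : ‖z‖ ^ 8 = 1 := by
      rw [← norm_pow]
      have : z ^ 8 = 1 := by
        calc z ^ 8 = (z ^ 2) ^ 4 := by ring
          _ = 1 := by rw [hzw, hw]
      rw [this, norm_one]
    exact (pow_eq_one_iff_of_nonneg (norm_nonneg _) (by norm_num)).1 h2
  have hns : z.re ^ 2 + z.im ^ 2 = 1 := by
    have h2 := Complex.sq_norm z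
    rw [hnorm, Complex.normSq_apply] at h2
    nlinarith
  have hre : z.re ^ 2 - z.im ^ 2 = w.re := by
    rw [← hzw, sq z, Complex.mul_re]; ring
  have him : 2 * z.re * z.im = w.im := by
    rw [← hzw, sq z, Complex.mul_im]; ring
  have hhalf : w.re = 0 → ∃ p r : ℤ, 2 * z.re = 2 * p + r * Real.sqrt 2 ∧ |p| ≤ 1 ∧
      (w ≠ 1 → p = 0) := by
    intro h0
    have h2 : (2 * z.re) ^ 2 = (Real.sqrt 2) ^ 2 := by
      rw [Real.sq_sqrt (by norm_num)]
      nlinarith
    rcases sq_eq_sq_iff_eq_or_eq_neg.1 h2 with h3 | h3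
    · exact ⟨0, 1, by rw [h3]; push_cast; ring, by norm_num, fun _ => rfl⟩
    · exact ⟨0, -1, by rw [h3]; push_cast; ring, by norm_num, fun _ => rfl⟩
  rcases mul_eq_zero.1 h1 with h2 | h2
  · have hw1 : w = 1 := by linear_combination h2
    rw [hw1] at hzw
    rcases sq_eq_one_iff.1 hzw with h3 | h3
    · exact ⟨1, 0, by rw [h3]; simp, by norm_num, fun h => absurd hw1 h⟩
    · exact ⟨-1, 0, by rw [h3]; simp, by norm_num, fun h => absurd hw1 h⟩
  · rcases mul_eq_zero.1 h2 with h3 | h3
    · have hw1 : w = -1 := by linear_combination h3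
      have h4 : z.re = 0 := by
        rw [hw1] at hre
        simp at hre
        nlinarith [sq_nonneg z.re]
      exact ⟨0, 0, by rw [h4]; simp, by norm_num, fun _ => rfl⟩
    · rcases mul_eq_zero.1 h3 with h4 | h4
      · apply hhalf
        have hw1 : w = Complex.I := by linear_combination h4
        rw [hw1]; simp
      · apply hhalf
        have hw1 : w = -Complex.I := by linear_combination h4
        rw [hw1]; simp

theorem eight_case (hx : Par x ε) (h8 : Fintype.card A = 8) (c : A) (hc2 : c + c ≠ 0)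
    (hc4 : c + c + (c + c) = 0) : False := by
  classical
  have hc0 : c ≠ 0 := by
    rintro rfl
    exact hc2 (add_zero 0)
  have hc3 : c + c + c ≠ 0 := by
    intro h
    apply hc0
    have : c + c + (c + c) = c + c + c + c := by abel
    rw [this, h, zero_add] at hc4
    exact hc4
  set R := ov x c 0 with hR
  have hR9 : (3 * R) ^ 2 = 1 := by
    have := hx.sq c 0 (Or.inl hc0)
    rw [AddChar.zero_apply, one_mul, h8] at this
    rw [mul_pow, ← hR] at *
    rw [this]; norm_num
  have hη4 : ∀ η : AddChar A ℂ, η c ^ 4 = 1 := by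
    intro η
    calc η c ^ 4 = η c * η c * (η c * η c) := by ring
      _ = η (c + c + (c + c)) := by
        rw [AddChar.map_add_eq_mul, AddChar.map_add_eq_mul]
      _ = 1 := by rw [hc4, AddChar.map_zero_eq_one]
  -- the terms
  set T : A → AddChar A ℂ → ℂ := fun a η => η a * (ov x a η * ov x (c - a) (-η)) with hT
  have hsum : ∑ a, ∑ η, T a η = 8 * R := by
    have h1 := quad_id x hx.nrm c 0
    rw [h8] at h1
    rw [hR]
    push_cast at h1
    rw [← h1]
    refine Finset.sum_congr rfl fun a _ => Finset.sum_congr rfl fun η _ => ?_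
    rw [zero_sub, AddChar.neg_apply, neg_neg]
  set E : A → AddChar A ℂ → Prop := fun a η => (a = 0 ∨ a = c) ∧ η = 0 with hE
  have hTE : ∀ a η, E a η → T a η = R := by
    rintro a η ⟨h1 | h1, h2⟩
    · simp only [hT]
      rw [h1, h2, sub_zero, neg_zero, hx.nrm]
      simp [hR]
    · simp only [hT]
      rw [h1, h2, sub_self, neg_zero, hx.nrm]
      simp [hR]
  have hT2 : ∀ a η, ¬ E a η → (9 * T a η) ^ 2 = η c := by
    intro a η hne
    have h1 : a ≠ 0 ∨ η ≠ 0 := by
      by_contra h
      push Not at h
      exact hne ⟨Or.inl h.1, h.2⟩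
    have h2 : c - a ≠ 0 ∨ -η ≠ 0 := by
      by_contra h
      push Not at h
      exact hne ⟨Or.inr (sub_eq_zero.1 h.1).symm, neg_eq_zero.1 h.2⟩
    have h3 := hx.sq a η h1
    have h4 := hx.sq (c - a) (-η) h2
    rw [h8] at h3 h4
    rw [AddChar.neg_apply, neg_sub] at h4
    have h5 : η a = η c * η (a - c) := by
      rw [← AddChar.map_add_eq_mul]; congr 1; abel
    simp only [hT]
    push_cast at h3 h4
    have h6 : (η a * ov x a η ^ 2) * (η (a - c) * ov x (c - a) (-η) ^ 2) = 1 / 81 := by
      rw [h3, h4]; norm_num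
    calc (9 * (η a * (ov x a η * ov x (c - a) (-η)))) ^ 2
        = 81 * (η a * (η a * ov x a η ^ 2 * ov x (c - a) (-η) ^ 2)) := by ring
      _ = 81 * ((η c * η (a - c)) * (η a * ov x a η ^ 2 * ov x (c - a) (-η) ^ 2)) := by
        rw [← h5]
      _ = 81 * (η c * ((η a * ov x a η ^ 2) * (η (a - c) * ov x (c - a) (-η) ^ 2))) := by ring
      _ = η c := by rw [h6]; ring
  -- integer form of the real parts
  have hform : ∀ a η, ∃ p r : ℤ, (¬ E a η → 2 * (9 * T a η).re = 2 * p + r * Real.sqrt 2) ∧
      |p| ≤ (if η c = 1 then 1 else 0) := by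
    intro a η
    by_cases hEE : E a η
    · exact ⟨0, 0, fun h => absurd hEE h, by split_ifs <;> simp⟩
    · obtain ⟨p, r, h1, h2, h3⟩ := re_form (9 * T a η) (η c) (hT2 a η hEE) (hη4 η)
      refine ⟨p, r, fun _ => h1, ?_⟩
      by_cases h4 : η c = 1
      · rw [if_pos h4]; exact h2
      · rw [if_neg h4, h3 h4]; simp
  choose p r hpr hp using hform
  -- number of excluded pairs
  have hex : ∑ a : A, ∑ η : AddChar A ℂ, (if E a η then R else 0) = 2 * R := by
    have h1 : ∀ a : A, ∑ η : AddChar A ℂ, (if E a η then R else 0) =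
        (if a = 0 then R else 0) + if a = c then R else 0 := by
      intro a
      rw [Finset.sum_eq_single (0 : AddChar A ℂ)]
      · simp only [hE, and_true]
        by_cases h1 : a = 0
        · have : ¬ a = c := by rw [h1]; exact hc0.symm
          simp [h1, hc0.symm]
        · by_cases h2 : a = c
          · simp [h2, hc0]
          · simp [h1, h2]
      · intro η _ hη
        rw [if_neg]
        rintro ⟨-, h2⟩
        exact hη h2
      · simp
    rw [Finset.sum_congr rfl fun a _ => h1 a, Finset.sum_add_distrib, Finset.sum_ite_eq',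
      Finset.sum_ite_eq', if_pos (Finset.mem_univ _), if_pos (Finset.mem_univ _)]
    ring
  have hrest : ∑ a : A, ∑ η : AddChar A ℂ, (if E a η then 0 else T a η) = 6 * R := by
    have h1 : ∑ a : A, ∑ η : AddChar A ℂ, T a η =
        ∑ a : A, ∑ η : AddChar A ℂ, (if E a η then 0 else T a η) +
        ∑ a : A, ∑ η : AddChar A ℂ, (if E a η then R else 0) := by
      rw [← Finset.sum_add_distrib]
      refine Finset.sum_congr rfl fun a _ => ?_
      rw [← Finset.sum_add_distrib]
      refine Finset.sum_congr rfl fun η _ => ?_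
      by_cases h : E a η
      · rw [if_pos h, if_pos h, hTE a η h, zero_add]
      · rw [if_neg h, if_neg h, add_zero]
    rw [hsum, hex] at h1
    linear_combination -h1
  -- the integers
  set P : ℤ := ∑ a : A, ∑ η : AddChar A ℂ, (if E a η then 0 else p a η) with hP
  set S : ℤ := ∑ a : A, ∑ η : AddChar A ℂ, (if E a η then 0 else r a η) with hS
  have hre : 2 * (9 * (6 * R)).re = 2 * P + S * Real.sqrt 2 := by
    rw [← hrest, Finset.mul_sum, Complex.re_sum, Finset.mul_sum, hP, hS]
    push_cast
    rw [Finset.mul_sum, Finset.sum_mul, ← Finset.sum_add_distrib]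
    refine Finset.sum_congr rfl fun a _ => ?_
    rw [Finset.mul_sum, Complex.re_sum, Finset.mul_sum, Finset.mul_sum, Finset.sum_mul,
      ← Finset.sum_add_distrib]
    refine Finset.sum_congr rfl fun η _ => ?_
    by_cases h : E a η
    · rw [if_pos h, if_pos h, if_pos h]; simp
    · rw [if_neg h, if_neg h, if_neg h]
      exact hpr a η h
  -- bound for `P`
  have hcount : ∑ η : AddChar A ℂ, (if η c = 1 then (1 : ℤ) else 0) = 2 := by
    have h1 : ∀ η : AddChar A ℂ, η 0 + η c + η (c + c) + η (c + c + c) =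
        4 * (((if η c = 1 then (1 : ℤ) else 0) : ℤ) : ℂ) := by
      intro η
      rw [AddChar.map_zero_eq_one, AddChar.map_add_eq_mul, AddChar.map_add_eq_mul]
      by_cases h : η c = 1
      · rw [if_pos h, h]
        rw [AddChar.map_add_eq_mul, h]; norm_num
      · rw [if_neg h]
        rw [AddChar.map_add_eq_mul]
        have h3 : (η c - 1) * (1 + η c + η c * η c + η c * η c * η c) = 0 := by
          linear_combination hη4 η
        have h4 := (mul_eq_zero.1 h3).resolve_left (sub_ne_zero.2 h)
        rw [h4]; simp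
    have h2 : ∑ η : AddChar A ℂ, (η 0 + η c + η (c + c) + η (c + c + c)) = 8 := by
      rw [Finset.sum_add_distrib, Finset.sum_add_distrib, Finset.sum_add_distrib,
        sum_char_apply, sum_char_apply, sum_char_apply, sum_char_apply, if_pos rfl, if_neg hc0,
        if_neg hc2, if_neg hc3, h8]
      norm_num
    rw [Finset.sum_congr rfl fun η _ => h1 η, ← Finset.mul_sum] at h2
    have h3 : (4 : ℤ) * ∑ η : AddChar A ℂ, (if η c = 1 then (1 : ℤ) else 0) = 8 := by
      exact_mod_cast h2
    linarith
  have hPb : |P| ≤ 16 := by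
    calc |P| ≤ ∑ a : A, ∑ η : AddChar A ℂ, |if E a η then 0 else p a η| := by
          refine (Finset.abs_sum_le_sum_abs _ _).trans ?_
          exact Finset.sum_le_sum fun a _ => Finset.abs_sum_le_sum_abs _ _
      _ ≤ ∑ a : A, ∑ η : AddChar A ℂ, (if η c = 1 then (1 : ℤ) else 0) := by
          refine Finset.sum_le_sum fun a _ => Finset.sum_le_sum fun η _ => ?_
          by_cases h : E a η
          · rw [if_pos h]; split_ifs <;> simp
          · rw [if_neg h]; exact hp a η
      _ = 16 := by
          rw [hcount, Finset.sum_const, Finset.card_univ, h8]; norm_num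
  -- irrationality
  have hR3 : (3 * R).re = 1 ∨ (3 * R).re = -1 := by
    rcases sq_eq_one_iff.1 hR9 with h | h
    · left; rw [h]; simp
    · right; rw [h]; simp
  have h18 : 2 * (9 * (6 * R)).re = 36 * (3 * R).re := by
    have : 9 * (6 * R) = ((18 : ℝ) : ℂ) * (3 * R) := by push_cast; ring
    rw [this, Complex.re_ofReal_mul]; ring
  rw [h18] at hre
  have hS0 : S = 0 := by
    by_contra hS0
    apply irrational_sqrt_two
    have hS' : (S : ℝ) ≠ 0 := by exact_mod_cast hS0
    rcases hR3 with h | h
    · refine ⟨(36 - 2 * (P : ℚ)) / S, ?_⟩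
      push_cast
      rw [div_eq_iff hS']
      rw [h] at hre
      linarith
    · refine ⟨(-36 - 2 * (P : ℚ)) / S, ?_⟩
      push_cast
      rw [div_eq_iff hS']
      rw [h] at hre
      linarith
  rw [hS0] at hre
  push_cast at hre
  rw [zero_mul, add_zero] at hre
  rw [abs_le] at hPb
  rcases hR3 with h | h
  · rw [h] at hre
    have : (P : ℝ) = 18 := by linarith
    have : P = 18 := by exact_mod_cast this
    omega
  · rw [h] at hre
    have : (P : ℝ) = -18 := by linarith
    have : P = -18 := by exact_mod_cast this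
    omega

end Pool.Agent.U338.SIC
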