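import Mathlib

/-!
# Sign functions on the plane over `𝔽_q` that are constant on punctured lines
-/

set_option autoImplicit false

open Finset

namespace Pool.Agent.U338.SIC

variable {q : ℕ} [hqf : Fact q.Prime]

/-- the symplectic form -/
def br {R : Type*} [CommRing R] (w v : R × R) : R := w.2 * v.1 - w.1 * v.2

/-- structure of the sign functions constant on punctured lines with sum divisible by `q` -/
theorem plane_struct (hq2 : q ≠ 2) (g : ZMod q × ZMod q → ℤ) (hg : ∀ w, g w = 1 ∨ g w = -1)
    (hu : ∀ (u : ZMod q) (w : ZMod q × ZMod q), u ≠ 0 → g (u * w.1, u * w.2) = g w)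
    (hdvd : (q : ℤ) ∣ ∑ w, g w) :
    (∀ w, g w = g 0) ∨ ∃ e : ZMod q × ZMod q, e ≠ 0 ∧
      ∀ w, g w = if br e w = 0 then g 0 else - g 0 := by
  classical
  have hq : q.Prime := hqf.out
  -- the sum
  have hrow : ∀ u : ZMod q, ∑ b, g (u, b) =
      if u = 0 then g 0 + (q - 1) * g (0, 1) else ∑ t, g (1, t) := by
    intro u
    by_cases h0 : u = 0
    · rw [if_pos h0, h0]
      have h1 : ∀ b : ZMod q, g (0, b) = g (0, 1) + if b = 0 then g 0 - g (0, 1) else 0 := by
        intro b
        by_cases hb : b = 0
        · rw [if_pos hb, hb]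
          have : g (0, 0) = g 0 := rfl
          rw [this]; ring
        · rw [if_neg hb, add_zero]
          have := hu b (0, 1) hb
          simpa using this
      rw [Finset.sum_congr rfl fun b _ => h1 b, Finset.sum_add_distrib, Finset.sum_ite_eq',
        if_pos (Finset.mem_univ _), Finset.sum_const, Finset.card_univ, ZMod.card, nsmul_eq_mul]
      ring
    · rw [if_neg h0, ← Equiv.sum_comp (Equiv.mulLeft₀ u h0)]
      refine Finset.sum_congr rfl fun t _ => ?_
      have := hu u (1, t) h0
      simpa using this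
  have hsum : ∑ w, g w = (g 0 + (q - 1) * g (0, 1)) + (q - 1) * ∑ t, g (1, t) := by
    rw [Fintype.sum_prod_type, Finset.sum_congr rfl fun u _ => hrow u]
    have h1 : ∀ u : ZMod q, (if u = 0 then g 0 + (q - 1) * g (0, 1) else ∑ t, g (1, t)) =
        (∑ t, g (1, t)) + if u = 0 then g 0 + (q - 1) * g (0, 1) - ∑ t, g (1, t) else 0 := by
      intro u
      split_ifs <;> ring
    rw [Finset.sum_congr rfl fun u _ => h1 u, Finset.sum_add_distrib, Finset.sum_ite_eq',
      if_pos (Finset.mem_univ _), Finset.sum_const, Finset.card_univ, ZMod.card, nsmul_eq_mul]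
    ring
  -- the number of lines of the other sign
  set N := (Finset.univ.filter fun t : ZMod q => g (1, t) = - g 0).card with hN
  have hG : ∑ t, g (1, t) = g 0 * (q - 2 * N) := by
    have h1 : ∀ t : ZMod q, g (1, t) = g 0 + if g (1, t) = - g 0 then -2 * g 0 else 0 := by
      intro t
      rcases hg (1, t) with h1 | h1 <;> rcases hg 0 with h2 | h2 <;> rw [h1, h2] <;> norm_num
    rw [Finset.sum_congr rfl fun t _ => h1 t, Finset.sum_add_distrib, ← Finset.sum_filter,
      Finset.sum_const, Finset.sum_const, Finset.card_univ, ZMod.card, nsmul_eq_mul,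
      nsmul_eq_mul, ← hN]
    ring
  have hNq : N ≤ q := by
    have : N ≤ (Finset.univ : Finset (ZMod q)).card := Finset.card_filter_le _ _
    rwa [Finset.card_univ, ZMod.card] at this
  have hcop : IsCoprime (q : ℤ) 2 := by
    have : Nat.Coprime q 2 := by
      rw [Nat.coprime_primes hq Nat.prime_two]; exact hq2
    exact_mod_cast Nat.isCoprime_iff_coprime.2 this
  have hgg : g 0 * g 0 = 1 := by rcases hg 0 with h | h <;> rw [h] <;> norm_num
  have hline : ∀ w : ZMod q × ZMod q, w.1 ≠ 0 → g w = g (1, w.1⁻¹ * w.2) := by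
    intro w hw
    have := hu w.1 (1, w.1⁻¹ * w.2) hw
    rw [← this]
    congr 1
    ext
    · simp
    · simp [mul_inv_cancel_left₀ hw]
  have hinf : ∀ w : ZMod q × ZMod q, w.1 = 0 → w.2 ≠ 0 → g w = g (0, 1) := by
    intro w h1 h2
    have := hu w.2 (0, 1) h2
    rw [← this]
    congr 1
    ext
    · simp [h1]
    · simp
  have hgi : g (0, 1) = g 0 ∨ g (0, 1) = - g 0 := by
    rcases hg (0, 1) with h1 | h1 <;> rcases hg 0 with h2 | h2 <;> rw [h1, h2] <;> norm_num
  have hpm : ∀ w, g w = g 0 ∨ g w = - g 0 := by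
    intro w
    rcases hg w with h1 | h1 <;> rcases hg 0 with h2 | h2 <;> rw [h1, h2] <;> norm_num
  have hne : g 0 ≠ - g 0 := by rcases hg 0 with h | h <;> rw [h] <;> norm_num
  rcases hgi with hgi | hgi
  · -- the infinite line has the sign of the origin
    have h1 : (q : ℤ) ∣ 2 * N := by
      obtain ⟨c, hc⟩ := hdvd
      rw [hsum, hG, hgi] at hc
      refine ⟨g 0 * c - (q - 2 * N), ?_⟩
      linear_combination (g 0) * hc - (q + (q - 1) * ((q : ℤ) - 2 * N)) * hgg
    have h2 : q ∣ N := by exact_mod_cast hcop.dvd_of_dvd_mul_left h1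
    obtain ⟨j, hj⟩ := h2
    have hj2 : j = 0 ∨ j = 1 := by
      by_contra h3
      have : 2 ≤ j := by omega
      have : q * 2 ≤ N := by rw [hj]; exact Nat.mul_le_mul_left q this
      have := hq.pos
      omega
    rcases hj2 with h3 | h3
    · left
      have h4 : N = 0 := by rw [hj, h3, mul_zero]
      rw [hN, Finset.card_eq_zero, Finset.filter_eq_empty_iff] at h4
      intro w
      by_cases hw : w.1 = 0
      · by_cases hw2 : w.2 = 0
        · have : w = 0 := Prod.ext hw hw2
          rw [this]
        · rw [hinf w hw hw2, hgi]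
      · rw [hline w hw]
        exact (hpm _).resolve_right (h4 (Finset.mem_univ _))
    · right
      have h4 : N = q := by rw [hj, h3, mul_one]
      have h5 : (Finset.univ.filter fun t : ZMod q => g (1, t) = - g 0) = Finset.univ := by
        apply Finset.eq_univ_of_card
        rw [← hN, h4, ZMod.card]
      refine ⟨(0, 1), ?_, ?_⟩
      · intro h6
        have := congrArg Prod.snd h6
        simp at this
      · intro w
        have hbr : br ((0 : ZMod q), (1 : ZMod q)) w = w.1 := by unfold br; ring
        rw [hbr]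
        by_cases hw : w.1 = 0
        · rw [if_pos hw]
          by_cases hw2 : w.2 = 0
          · have : w = 0 := Prod.ext hw hw2
            rw [this]
          · rw [hinf w hw hw2, hgi]
        · rw [if_neg hw, hline w hw]
          have h6 : w.1⁻¹ * w.2 ∈ (Finset.univ.filter fun t : ZMod q => g (1, t) = - g 0) := by
            rw [h5]; exact Finset.mem_univ _
          exact (Finset.mem_filter.1 h6).2
  · right
    have h1 : (q : ℤ) ∣ 2 * ((N + 1 : ℕ) : ℤ) := by
      obtain ⟨c, hc⟩ := hdvd
      rw [hsum, hG, hgi] at hc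
      refine ⟨g 0 * c - (q - 2 * N - 2), ?_⟩
      push_cast
      linear_combination (g 0) * hc - (2 - q + (q - 1) * ((q : ℤ) - 2 * N)) * hgg
    have h2 : q ∣ N + 1 := by exact_mod_cast hcop.dvd_of_dvd_mul_left h1
    obtain ⟨j, hj⟩ := h2
    have hq3 : 3 ≤ q := by
      have := hq.two_le
      omega
    have hj2 : j = 1 := by
      have h0 : j ≠ 0 := by rintro rfl; omega
      by_contra h3
      have : 2 ≤ j := by omega
      have : q * 2 ≤ N + 1 := by rw [hj]; exact Nat.mul_le_mul_left q this
      omega
    have h4 : N + 1 = q := by rw [hj, hj2, mul_one]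
    have h5 : ((Finset.univ.filter fun t : ZMod q => g (1, t) = - g 0)ᶜ).card = 1 := by
      rw [Finset.card_compl, ← hN, ZMod.card]
      omega
    obtain ⟨t0, ht0⟩ := Finset.card_eq_one.1 h5
    have h6 : ∀ t : ZMod q, g (1, t) = if t = t0 then g 0 else - g 0 := by
      intro t
      by_cases ht : t = t0
      · rw [if_pos ht]
        have h7 : t ∈ (Finset.univ.filter fun t : ZMod q => g (1, t) = - g 0)ᶜ := by
          rw [ht0, ht]; exact Finset.mem_singleton_self _
        rw [Finset.mem_compl, Finset.mem_filter] at h7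
        push Not at h7
        exact (hpm _).resolve_right (h7 (Finset.mem_univ _))
      · rw [if_neg ht]
        have h7 : t ∉ (Finset.univ.filter fun t : ZMod q => g (1, t) = - g 0)ᶜ := by
          rw [ht0, Finset.mem_singleton]; exact ht
        rw [Finset.mem_compl, not_not, Finset.mem_filter] at h7
        exact h7.2
    refine ⟨(1, t0), ?_, ?_⟩
    · intro h7
      have := congrArg Prod.fst h7
      simp at this
    · intro w
      have hbr : br ((1 : ZMod q), t0) w = t0 * w.1 - w.2 := by unfold br; ring
      rw [hbr]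
      by_cases hw : w.1 = 0
      · by_cases hw2 : w.2 = 0
        · have : w = 0 := Prod.ext hw hw2
          rw [this]
          simp
        · rw [hinf w hw hw2, hgi, hw, mul_zero, zero_sub, if_neg (neg_ne_zero.2 hw2)]
      · rw [hline w hw, h6]
        have h7 : (w.1⁻¹ * w.2 = t0) ↔ (t0 * w.1 - w.2 = 0) := by
          constructor
          · intro h8
            rw [← h8, mul_comm w.1⁻¹, inv_mul_cancel_right₀ hw, sub_self]
          · intro h8
            have : w.2 = t0 * w.1 := by linear_combination -h8
            rw [this, mul_comm t0, inv_mul_cancel_left₀ hw]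
        simp only [h7]

/-- a sum over a finite group vanishes if a translation multiplies the summand by `ξ ≠ 1` -/
theorem sum_zero_of_shift {V : Type*} [AddCommGroup V] [Fintype V] (f : V → ℂ) (u : V) (ξ : ℂ)
    (hξ : ξ ≠ 1) (h : ∀ w, f (w + u) = ξ * f w) : ∑ w, f w = 0 := by
  have h1 : ∑ w, f w = ξ * ∑ w, f w := by
    conv_lhs => rw [← Equiv.sum_comp (Equiv.addRight u)]
    rw [Finset.mul_sum]
    exact Finset.sum_congr rfl fun w _ => by simp [h]
  have h2 : (1 - ξ) * ∑ w, f w = 0 := by linear_combination h1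
  exact (mul_eq_zero.1 h2).resolve_left (sub_ne_zero.2 (Ne.symm hξ))

/-- the twisted autocorrelation vanishes -/
theorem plane_corr (hq2 : q ≠ 2) (g : ZMod q × ZMod q → ℤ) (hg : ∀ w, g w = 1 ∨ g w = -1)
    (hu : ∀ (u : ZMod q) (w : ZMod q × ZMod q), u ≠ 0 → g (u * w.1, u * w.2) = g w)
    (hdvd : (q : ℤ) ∣ ∑ w, g w) (e : AddChar (ZMod q) ℂ) (he : e ≠ 1) (v : ZMod q × ZMod q)
    (hv : v ≠ 0) :
    ∑ w, e (br w v) * ((g w : ℂ) * g (w - v)) = 0 := by
  classical
  have hq : q.Prime := hqf.out
  obtain ⟨z, hz⟩ := AddChar.ne_one_iff.1 he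
  have hgg : ∀ w, (g w : ℂ) * g w = 1 := by
    intro w
    rcases hg w with h | h <;> rw [h] <;> norm_num
  -- the constant correlation
  have hconst : ∀ σ : ℂ, ∑ w, e (br w v) * σ = 0 := by
    intro σ
    obtain ⟨u, hu⟩ : ∃ u : ZMod q × ZMod q, br u v = z := by
      by_cases h1 : v.1 = 0
      · have h2 : v.2 ≠ 0 := fun h2 => hv (Prod.ext h1 h2)
        refine ⟨(-(z * v.2⁻¹), 0), ?_⟩
        unfold br
        simp only [zero_mul, zero_sub, neg_mul, neg_neg]
        rw [inv_mul_cancel_right₀ h2]
      · refine ⟨(0, z * v.1⁻¹), ?_⟩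
        unfold br
        simp only [zero_mul, sub_zero]
        rw [inv_mul_cancel_right₀ h1]
    refine sum_zero_of_shift _ u (e z) hz fun w => ?_
    have h1 : br (w + u) v = z + br w v := by
      rw [← hu]; unfold br; simp only [Prod.fst_add, Prod.snd_add]; ring
    rw [h1, AddChar.map_add_eq_mul]
    ring
  rcases plane_struct hq2 g hg hu hdvd with h | ⟨e0, he0, h⟩
  · have : ∀ w, e (br w v) * ((g w : ℂ) * g (w - v)) = e (br w v) * ((g 0 : ℂ) * g 0) := by
      intro w
      rw [h w, h (w - v)]
    rw [Finset.sum_congr rfl fun w _ => this w]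
    exact hconst _
  · by_cases h1 : br e0 v = 0
    · have : ∀ w, e (br w v) * ((g w : ℂ) * g (w - v)) = e (br w v) * 1 := by
        intro w
        have h2 : br e0 (w - v) = br e0 w - br e0 v := by
          unfold br; simp only [Prod.fst_sub, Prod.snd_sub]; ring
        have h3 : g (w - v) = g w := by
          rw [h (w - v), h w, h2, h1, sub_zero]
        rw [h3, hgg]
      rw [Finset.sum_congr rfl fun w _ => this w]
      exact hconst _
    · set t := z * (br e0 v)⁻¹ with ht
      have h2 : t * br e0 v = z := by rw [ht, inv_mul_cancel_right₀ h1]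
      have h3 : ∀ w, g (w + (t * e0.1, t * e0.2)) = g w := by
        intro w
        rw [h, h w]
        have : br e0 (w + (t * e0.1, t * e0.2)) = br e0 w := by
          unfold br; simp only [Prod.fst_add, Prod.snd_add]; ring
        rw [this]
      refine sum_zero_of_shift _ (t * e0.1, t * e0.2) (e z) hz fun w => ?_
      have h4 : br (w + (t * e0.1, t * e0.2)) v = z + br w v := by
        rw [← h2]; unfold br; simp only [Prod.fst_add, Prod.snd_add]; ring
      have h5 : w + (t * e0.1, t * e0.2) - v = (w - v) + (t * e0.1, t * e0.2) := by abel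
      rw [h4, h5, h3, h3, AddChar.map_add_eq_mul]
      ring

end Pool.Agent.U338.SIC
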