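import Mathlib
import Pool.Agent.U338.SIC.Square
import Pool.Agent.U338.SIC.Plane
import Pool.Agent.U338.SIC.Galois

/-!
# Splitting off a cyclic factor of odd order
-/

set_option autoImplicit false
set_option linter.unusedSectionVars false

open Finset ComplexConjugate

namespace Pool.Agent.U338.SIC

open Pool.Agent.N392.Ab

variable {Q : ℕ} [NeZero Q] {B : Type*} [AddCommGroup B] [Fintype B]

/-- the standard character of `ZMod Q` -/
noncomputable abbrev sc (z : ZMod Q) : ℂ := ZMod.stdAddChar z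

/-- the character of `ZMod Q × B` with coordinates `(β, η)` -/
noncomputable def ch (β : ZMod Q) (η : AddChar B ℂ) : AddChar (ZMod Q × B) ℂ where
  toFun p := ZMod.stdAddChar (β * p.1) * η p.2
  map_zero_eq_one' := by simp
  map_add_eq_mul' p r := by
    simp only [Prod.fst_add, Prod.snd_add, mul_add, AddChar.map_add_eq_mul]
    ring


theorem ch_apply (β : ZMod Q) (η : AddChar B ℂ) (y : ZMod Q) (b : B) :
    ch β η (y, b) = ZMod.stdAddChar (β * y) * η b := rfl

theorem ch_sub (β γ : ZMod Q) (η χ : AddChar B ℂ) : ch β η - ch γ χ = ch (β - γ) (η - χ) := by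
  ext ⟨y, b⟩
  rw [AddChar.sub_apply, Prod.neg_mk, ch_apply, ch_apply, ch_apply, AddChar.sub_apply, sub_mul,
    sub_eq_add_neg (β * y), AddChar.map_add_eq_mul, mul_neg]
  ring

theorem ch_neg (β : ZMod Q) (η : AddChar B ℂ) : -ch β η = ch (-β) (-η) := by
  ext ⟨y, b⟩
  rw [AddChar.neg_apply, Prod.neg_mk, ch_apply, ch_apply, AddChar.neg_apply]
  congr 2
  ring

theorem ch_zero : ch (0 : ZMod Q) (0 : AddChar B ℂ) = 0 := by
  ext ⟨y, b⟩
  rw [ch_apply]
  simp

theorem ch_injective : Function.Injective fun p : ZMod Q × AddChar B ℂ => ch p.1 p.2 := by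
  rintro ⟨β, η⟩ ⟨γ, χ⟩ h
  simp only at h
  have h1 : β = γ := by
    have := DFunLike.congr_fun h ((1 : ZMod Q), (0 : B))
    rw [ch_apply, ch_apply, mul_one, mul_one, AddChar.map_zero_eq_one, AddChar.map_zero_eq_one,
      mul_one, mul_one] at this
    exact ZMod.injective_stdAddChar this
  have h2 : η = χ := by
    ext b
    have := DFunLike.congr_fun h ((0 : ZMod Q), b)
    rw [ch_apply, ch_apply, mul_zero, mul_zero, AddChar.map_zero_eq_one, one_mul, one_mul] at this
    exact this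
  rw [h1, h2]

theorem ch_bijective : Function.Bijective fun p : ZMod Q × AddChar B ℂ => ch p.1 p.2 := by
  rw [Fintype.bijective_iff_injective_and_card]
  refine ⟨ch_injective, ?_⟩
  rw [Fintype.card_prod, AddChar.card_eq, AddChar.card_eq, Fintype.card_prod]

theorem sum_ch {M : Type*} [AddCommMonoid M] (f : AddChar (ZMod Q × B) ℂ → M) :
    ∑ X, f X = ∑ β : ZMod Q, ∑ η : AddChar B ℂ, f (ch β η) := by
  rw [← ch_bijective.sum_comp (fun X => f X), Fintype.sum_prod_type]

theorem ch_eq_zero {β : ZMod Q} {η : AddChar B ℂ} (h : ch β η = 0) : β = 0 ∧ η = 0 := by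
  rw [← ch_zero] at h
  have := ch_injective (a₁ := (β, η)) (a₂ := (0, 0)) h
  exact ⟨congrArg Prod.fst this, congrArg Prod.snd this⟩

/-- the normalised overlaps -/
noncomputable def FF (n : ℕ) (h : ZMod Q) (x : ZMod Q × B → ℂ) (w : ZMod Q × ZMod Q) (b : B)
    (η : AddChar B ℂ) : ℂ :=
  n * (ZMod.stdAddChar (h * (w.2 * w.1)) * ov x (w.1, b) (ch w.2 η))

variable {x : ZMod Q × B → ℂ} {ε : ℂ} {n : ℕ} {h : ZMod Q}

theorem FF_zero (hx : Par x ε) : FF n h x 0 0 0 = n := by
  unfold FF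
  simp only [Prod.fst_zero, Prod.snd_zero, mul_zero, AddChar.map_zero_eq_one, one_mul]
  rw [ch_zero]
  have : ov x ((0 : ZMod Q), (0 : B)) 0 = 1 := hx.nrm
  rw [this, mul_one]

theorem FF_sq (hx : Par x ε) (hn : n ^ 2 = Fintype.card (ZMod Q × B) + 1) (h2 : h + h = 1)
    (w : ZMod Q × ZMod Q) (b : B) (η : AddChar B ℂ) (hv : w ≠ 0 ∨ b ≠ 0 ∨ η ≠ 0) :
    FF n h x w b η ^ 2 * η b = 1 := by
  have hv' : ((w.1, b) : ZMod Q × B) ≠ 0 ∨ ch w.2 η ≠ 0 := by
    by_contra h3
    push Not at h3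
    obtain ⟨h4, h5⟩ := h3
    obtain ⟨h6, h7⟩ := ch_eq_zero h5
    have h8 : w.1 = 0 := congrArg Prod.fst h4
    have h9 : b = 0 := congrArg Prod.snd h4
    rcases hv with h | h | h
    · exact h (Prod.ext h8 h6)
    · exact h h9
    · exact h h7
  have h3 := hx.sq (w.1, b) (ch w.2 η) hv'
  rw [ch_apply] at h3
  have h4 : (Fintype.card (ZMod Q × B) : ℂ) + 1 = (n : ℂ) ^ 2 := by exact_mod_cast hn.symm
  have hn0 : (n : ℂ) ^ 2 ≠ 0 := by rw [← h4]; exact card1_ne
  rw [h4, eq_div_iff hn0] at h3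
  unfold FF
  have h5 : (ZMod.stdAddChar (h * (w.2 * w.1)) : ℂ) * ZMod.stdAddChar (h * (w.2 * w.1)) =
      ZMod.stdAddChar (w.2 * w.1) := by
    rw [← AddChar.map_add_eq_mul, ← add_mul, h2, one_mul]
  linear_combination h3 + (n : ℂ) ^ 2 * ov x (w.1, b) (ch w.2 η) ^ 2 * η b * h5

theorem FF_neg (hx : Par x ε) (w : ZMod Q × ZMod Q) (b : B) (η : AddChar B ℂ) :
    FF n h x (-w) (-b) (-η) = FF n h x w b η := by
  unfold FF
  have h1 := hx.neg (w.1, b) (ch w.2 η)
  rw [ch_neg] at h1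
  have h2 : h * ((-w).2 * (-w).1) = h * (w.2 * w.1) := by
    simp only [Prod.fst_neg, Prod.snd_neg]; ring
  rw [h2, ← h1]
  rfl

/-- self-duality in split form -/
theorem FF_sd (hx : Par x ε) (h2 : h + h = 1) (v : ZMod Q × ZMod Q) (a : B) (χ : AddChar B ℂ) :
    (Fintype.card (ZMod Q × B) : ℂ) * FF n h x v a χ =
      ε * ∑ w : ZMod Q × ZMod Q, ZMod.stdAddChar (h * br w v) *
        ∑ k : B, ∑ η : AddChar B ℂ, (η - χ) k * FF n h x w (k + k - a) η := by
  classical
  have h1 := hx.sd (v.1, a) (ch v.2 χ)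
  rw [Fintype.sum_prod_type] at h1
  -- the bijection `k ↦ 2k - v.1`
  set E : ZMod Q ≃ ZMod Q :=
    { toFun := fun k => k + k - v.1
      invFun := fun z => h * (z + v.1)
      left_inv := by
        intro k
        show h * (k + k - v.1 + v.1) = k
        linear_combination k * h2
      right_inv := by
        intro z
        show h * (z + v.1) + h * (z + v.1) - v.1 = z
        linear_combination (z + v.1) * h2 } with hE
  have h3 : ∑ w : ZMod Q × ZMod Q, ZMod.stdAddChar (h * br w v) *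
        ∑ k : B, ∑ η : AddChar B ℂ, (η - χ) k * FF n h x w (k + k - a) η =
      ∑ k0 : ZMod Q, ∑ k : B, n * ZMod.stdAddChar (h * (v.2 * v.1)) *
        ∑ X : AddChar (ZMod Q × B) ℂ, (X - ch v.2 χ) (k0, k) *
          ov x ((k0, k) + (k0, k) - (v.1, a)) X := by
    rw [Fintype.sum_prod_type, ← Equiv.sum_comp E]
    refine Finset.sum_congr rfl fun k0 _ => ?_
    simp_rw [Finset.mul_sum]
    rw [Finset.sum_comm]
    refine Finset.sum_congr rfl fun k _ => ?_
    rw [sum_ch (fun X => (n : ℂ) * ZMod.stdAddChar (h * (v.2 * v.1)) *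
      ((X - ch v.2 χ) (k0, k) * ov x ((k0, k) + (k0, k) - (v.1, a)) X))]
    refine Finset.sum_congr rfl fun γ _ => Finset.sum_congr rfl fun η _ => ?_
    rw [ch_sub, ch_apply]
    unfold FF
    simp only [br]
    have e1 : E k0 = k0 + k0 - v.1 := rfl
    rw [e1]
    have e2 : ((k0, k) + (k0, k) - (v.1, a) : ZMod Q × B) = (k0 + k0 - v.1, k + k - a) := rfl
    rw [e2]
    have e3 : (ZMod.stdAddChar (h * (γ * v.1 - (k0 + k0 - v.1) * v.2)) : ℂ) *
        ZMod.stdAddChar (h * (γ * (k0 + k0 - v.1))) =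
        ZMod.stdAddChar (h * (v.2 * v.1)) * ZMod.stdAddChar ((γ - v.2) * k0) := by
      rw [← AddChar.map_add_eq_mul, ← AddChar.map_add_eq_mul]
      congr 1
      linear_combination (k0 * (γ - v.2)) * h2
    linear_combination ((η - χ) k * n * ov x (k0 + k0 - v.1, k + k - a) (ch γ η)) * e3
  rw [h3]
  unfold FF
  simp_rw [← Finset.mul_sum]
  linear_combination (n * ZMod.stdAddChar (h * (v.2 * v.1)) : ℂ) * h1

/-- the quadratic identity in split form -/
theorem FF_quad (hx : Par x ε) (h2 : h + h = 1) (v : ZMod Q × ZMod Q) :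
    ∑ a : B, ∑ η : AddChar B ℂ, η a * ∑ w : ZMod Q × ZMod Q, ZMod.stdAddChar (h * br w v) *
        (FF n h x w a η * FF n h x (w - v) a η) =
      (Fintype.card (ZMod Q × B) : ℂ) * (n * FF n h x v 0 0) := by
  classical
  have h1 := quad_id x hx.nrm (v.1, 0) (ch v.2 0)
  rw [Fintype.sum_prod_type] at h1
  have h3 : ∑ a : B, ∑ η : AddChar B ℂ, η a * ∑ w : ZMod Q × ZMod Q,
      ZMod.stdAddChar (h * br w v) * (FF n h x w a η * FF n h x (w - v) a η) =
      ∑ y : ZMod Q, ∑ a : B, n ^ 2 * ZMod.stdAddChar (h * (v.2 * v.1)) *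
        ∑ X : AddChar (ZMod Q × B) ℂ, (ch v.2 (0 : AddChar B ℂ) - X) (-(y, a)) *
          (ov x (y, a) X * ov x ((v.1, 0) - (y, a)) (ch v.2 (0 : AddChar B ℂ) - X)) := by
    simp_rw [Finset.mul_sum, Fintype.sum_prod_type]
    rw [Finset.sum_comm (s := (Finset.univ : Finset (ZMod Q)))]
    refine Finset.sum_congr rfl fun a _ => ?_
    rw [Finset.sum_comm]
    refine Finset.sum_congr rfl fun y _ => ?_
    rw [sum_ch, Finset.sum_comm]
    refine Finset.sum_congr rfl fun γ _ => Finset.sum_congr rfl fun η _ => ?_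
    rw [ch_sub, Prod.neg_mk, ch_apply, zero_sub]
    have e1 : FF n h x ((y, γ) - v) a η = FF n h x (v - (y, γ)) (-a) (-η) := by
      rw [← FF_neg hx, neg_sub]
    rw [e1]
    unfold FF
    simp only [br, Prod.fst_sub, Prod.snd_sub]
    have e2 : ((v.1, 0) - (y, a) : ZMod Q × B) = (v.1 - y, -a) := by
      rw [Prod.mk_sub_mk, zero_sub]
    rw [e2, AddChar.neg_apply, neg_neg]
    have e3 : (ZMod.stdAddChar (h * (γ * v.1 - y * v.2)) : ℂ) *
        ZMod.stdAddChar (h * (γ * y)) * ZMod.stdAddChar (h * ((v.2 - γ) * (v.1 - y))) =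
        ZMod.stdAddChar (h * (v.2 * v.1)) * ZMod.stdAddChar ((v.2 - γ) * -y) := by
      rw [← AddChar.map_add_eq_mul, ← AddChar.map_add_eq_mul, ← AddChar.map_add_eq_mul]
      congr 1
      linear_combination (y * (γ - v.2)) * h2
    linear_combination (η a * n ^ 2 * ov x (y, a) (ch γ η) *
      ov x (v.1 - y, -a) (ch (v.2 - γ) (-η))) * e3
  rw [h3]
  unfold FF
  simp_rw [← Finset.mul_sum]
  rw [h1]
  ring

end Pool.Agent.U338.SIC
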