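import Mathlib
import Pool.Agent.U338.SIC.Split

/-!
# Galois invariance and divisibility of the normalised overlaps
-/

set_option autoImplicit false
set_option linter.unusedSectionVars false

open Finset ComplexConjugate

namespace Pool.Agent.U338.SIC

open Pool.Agent.N392.Ab

variable {Q : ℕ} [NeZero Q] {B : Type*} [AddCommGroup B] [Fintype B]
variable {x : ZMod Q × B → ℂ} {ε : ℂ} {n : ℕ} {h : ZMod Q}

theorem char_pow_card (η : AddChar B ℂ) (b : B) : η b ^ Fintype.card B = 1 := by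
  rw [← AddChar.map_nsmul_eq_pow, card_nsmul_eq_zero, AddChar.map_zero_eq_one]

theorem sc_pow_card (z : ZMod Q) : (ZMod.stdAddChar z : ℂ) ^ Q = 1 := by
  have := char_pow_card (B := ZMod Q) ZMod.stdAddChar z
  rwa [ZMod.card] at this

/-- every normalised overlap is an integer times a root of unity of order prime to `Q` -/
theorem FF_form (hx : Par x ε) (hn : n ^ 2 = Fintype.card (ZMod Q × B) + 1) (h2 : h + h = 1)
    (w : ZMod Q × ZMod Q) (b : B) (η : AddChar B ℂ) :
    ∃ (m : ℤ) (f : ℂ), FF n h x w b η = m * f ∧ f ^ (2 * Fintype.card B) = 1 := by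
  by_cases hv : w ≠ 0 ∨ b ≠ 0 ∨ η ≠ 0
  · refine ⟨1, FF n h x w b η, by simp, ?_⟩
    have h1 := FF_sq hx hn h2 w b η hv
    have h3 := congrArg (fun t => t ^ Fintype.card B) h1
    simp only [mul_pow, one_pow, char_pow_card, mul_one] at h3
    rw [pow_mul]
    exact h3
  · push Not at hv
    obtain ⟨h3, h4, h5⟩ := hv
    refine ⟨n, 1, ?_, one_pow _⟩
    rw [h3, h4, h5, FF_zero hx]
    simp

theorem FF_int (hx : Par x ε) (hn : n ^ 2 = Fintype.card (ZMod Q × B) + 1) (h2 : h + h = 1)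
    (w : ZMod Q × ZMod Q) (b : B) (η : AddChar B ℂ) : IsIntegral ℤ (FF n h x w b η) := by
  obtain ⟨m, f, h3, h4⟩ := FF_form hx hn h2 w b η
  rw [h3]
  apply IsIntegral.mul
  · exact isIntegral_algebraMap (R := ℤ) (x := m)
  · exact IsIntegral.of_pow (n := 2 * Fintype.card B) (by
      have : 0 < Fintype.card B := Fintype.card_pos
      omega) (by rw [h4]; exact isIntegral_one)

theorem char_int (η : AddChar B ℂ) (b : B) : IsIntegral ℤ (η b) :=
  IsIntegral.of_pow (n := Fintype.card B) Fintype.card_pos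
    (by rw [char_pow_card]; exact isIntegral_one)

/-- Galois invariance -/
theorem FF_gal (hx : Par x ε) (hn : n ^ 2 = Fintype.card (ZMod Q × B) + 1) (h2 : h + h = 1)
    (hQ2 : Nat.Coprime Q 2) (hco : Nat.Coprime Q (Fintype.card B)) (u : (ZMod Q)ˣ)
    (v : ZMod Q × ZMod Q) (a : B) (χ : AddChar B ℂ) :
    FF n h x (u * v.1, u * v.2) a χ = FF n h x v a χ := by
  classical
  set D := Fintype.card B with hD
  have hDpos : 0 < D := Fintype.card_pos
  have hQpos : 0 < Q := Nat.pos_of_ne_zero (NeZero.ne Q)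
  have hcoQ : Nat.Coprime Q (2 * D) := Nat.Coprime.mul_right hQ2 hco
  obtain ⟨k, hk1, hk2⟩ := Nat.chineseRemainder hcoQ (u : ZMod Q).val 1
  have hku : ((k : ℕ) : ZMod Q) = u := by
    have := (ZMod.natCast_eq_natCast_iff _ _ _).2 hk1
    rw [this, ZMod.natCast_zmod_val]
  have hkco : Nat.Coprime k (Q * (2 * D)) := by
    apply Nat.Coprime.mul_right
    · rw [← ZMod.isUnit_iff_coprime, hku]
      exact u.isUnit
    · have := hk2.gcd_eq
      rw [Nat.Coprime, this, Nat.gcd_one_left]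
  have hfix : ∀ f : ℂ, f ^ (2 * D) = 1 → f ^ k = f := by
    intro f hf
    rw [pow_eq_pow_of_modEq hk2 hf, pow_one]
  choose m f hm hf using fun (w : ZMod Q × ZMod Q) (b : B) (η : AddChar B ℂ) =>
    FF_form hx hn h2 w b η
  obtain ⟨e, he⟩ : ∃ e : ℤ, ε = e := by
    rcases hx.eps with h3 | h3
    · exact ⟨1, by rw [h3]; simp⟩
    · exact ⟨-1, by rw [h3]; simp⟩
  have hch : ∀ (η : AddChar B ℂ) (b : B), η b ^ (2 * D) = 1 := by
    intro η b
    rw [mul_comm, pow_mul, hD, char_pow_card, one_pow]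
  -- the relation as a sum over a single index set
  have hrel : ∀ v : ZMod Q × ZMod Q, ∑ i : (ZMod Q × ZMod Q) × (B × AddChar B ℂ),
      ((e * m i.1 (i.2.1 + i.2.1 - a) i.2.2 : ℤ) : ℂ) * (ZMod.stdAddChar (h * br i.1 v) *
        ((i.2.2 - χ) i.2.1 * f i.1 (i.2.1 + i.2.1 - a) i.2.2)) =
      (Fintype.card (ZMod Q × B) : ℂ) * FF n h x v a χ := by
    intro v
    rw [FF_sd hx h2 v a χ, he, Fintype.sum_prod_type, Finset.mul_sum]
    refine Finset.sum_congr rfl fun w _ => ?_
    rw [Fintype.sum_prod_type]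
    simp_rw [Finset.mul_sum]
    refine Finset.sum_congr rfl fun b _ => Finset.sum_congr rfl fun η _ => ?_
    rw [hm]
    push_cast
    ring
  have h3 := gal (Q * (2 * D)) k (by positivity) hkco
    (Finset.univ : Finset ((ZMod Q × ZMod Q) × (B × AddChar B ℂ)))
    (fun i => e * m i.1 (i.2.1 + i.2.1 - a) i.2.2)
    (fun i => ZMod.stdAddChar (h * br i.1 v) *
        ((i.2.2 - χ) i.2.1 * f i.1 (i.2.1 + i.2.1 - a) i.2.2))
    (by
      intro i _
      have e1 : ∀ t : ℂ, t ^ (2 * D) = 1 → t ^ (Q * (2 * D)) = 1 := by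
        intro t ht
        rw [mul_comm Q, pow_mul, ht, one_pow]
      rw [mul_pow, mul_pow, e1 _ (hch _ _), e1 _ (hf _ _ _), pow_mul, sc_pow_card, one_pow,
        one_mul, one_mul])
    ((Fintype.card (ZMod Q × B) : ℤ) * m v a χ) (f v a χ)
    (by rw [mul_comm Q, pow_mul, hf, one_pow])
    (by
      rw [hrel v, hm]
      push_cast
      ring)
  rw [hfix _ (hf _ _ _)] at h3
  have h4 : ∑ i : (ZMod Q × ZMod Q) × (B × AddChar B ℂ),
      ((e * m i.1 (i.2.1 + i.2.1 - a) i.2.2 : ℤ) : ℂ) * (ZMod.stdAddChar (h * br i.1 v) *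
        ((i.2.2 - χ) i.2.1 * f i.1 (i.2.1 + i.2.1 - a) i.2.2)) ^ k =
      (Fintype.card (ZMod Q × B) : ℂ) * FF n h x (u * v.1, u * v.2) a χ := by
    rw [← hrel]
    refine Finset.sum_congr rfl fun i _ => ?_
    have e2 : (u : ZMod Q) * (h * br i.1 v) = h * br i.1 (u * v.1, u * v.2) := by
      unfold br
      ring
    rw [mul_pow, mul_pow, hfix _ (hch _ _), hfix _ (hf _ _ _), ← AddChar.map_nsmul_eq_pow,
      nsmul_eq_mul, hku, e2]
  rw [h4] at h3
  have h5 : (Fintype.card (ZMod Q × B) : ℂ) ≠ 0 := card_ne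
  apply mul_left_cancel₀ h5
  rw [h3]
  conv_rhs => rw [hm]
  push_cast
  ring

/-- orthogonality on the plane -/
theorem plane_orth (h2 : h + h = 1) (w v : ZMod Q × ZMod Q) :
    ∑ y : ZMod Q × ZMod Q, (ZMod.stdAddChar (h * br y v) * ZMod.stdAddChar (h * br w y) : ℂ) =
      if w = v then (Q : ℂ) ^ 2 else 0 := by
  classical
  have hprim := ZMod.isPrimitive_stdAddChar Q
  have h1 : ∀ y : ZMod Q × ZMod Q,
      (ZMod.stdAddChar (h * br y v) * ZMod.stdAddChar (h * br w y) : ℂ) =
      ZMod.stdAddChar (y.1 * (h * (w.2 - v.2))) * ZMod.stdAddChar (y.2 * (h * (v.1 - w.1))) := by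
    intro y
    rw [← AddChar.map_add_eq_mul, ← AddChar.map_add_eq_mul]
    congr 1
    unfold br
    ring
  rw [Finset.sum_congr rfl fun y _ => h1 y, Fintype.sum_prod_type]
  simp only
  rw [← Finset.sum_mul_sum, AddChar.sum_mulShift _ hprim, AddChar.sum_mulShift _ hprim]
  have h3 : ∀ z : ZMod Q, h * z = 0 ↔ z = 0 := by
    intro z
    constructor
    · intro h4
      have : z = (h + h) * z := by rw [h2, one_mul]
      rw [this, add_mul, h4, add_zero]
    · intro h4
      rw [h4, mul_zero]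
  simp only [h3, sub_eq_zero, ZMod.card]
  by_cases h4 : w = v
  · rw [if_pos h4, h4]; simp [sq]
  · rw [if_neg h4]
    by_cases h5 : w.2 = v.2
    · have h6 : ¬ v.1 = w.1 := fun h6 => h4 (Prod.ext h6.symm h5)
      rw [if_neg h6]
      simp
    · rw [if_neg h5]
      simp

/-- the symplectic Fourier transform on the plane -/
noncomputable def hat (n : ℕ) (h : ZMod Q) (x : ZMod Q × B → ℂ) (v : ZMod Q × ZMod Q) (b : B)
    (η : AddChar B ℂ) : ℂ :=
  ∑ w : ZMod Q × ZMod Q, ZMod.stdAddChar (h * br w v) * FF n h x w b η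

theorem hat_eq (hx : Par x ε) (h2 : h + h = 1) (v : ZMod Q × ZMod Q) (a : B)
    (χ : AddChar B ℂ) :
    (Fintype.card B : ℂ) * hat n h x v a χ =
      ε * (Q * ∑ k : B, ∑ η : AddChar B ℂ, (η - χ) k * FF n h x v (k + k - a) η) := by
  classical
  have hQ : (Q : ℂ) ≠ 0 := by exact_mod_cast NeZero.ne Q
  have h1 : (Fintype.card (ZMod Q × B) : ℂ) * hat n h x v a χ =
      ε * (Q ^ 2 * ∑ k : B, ∑ η : AddChar B ℂ, (η - χ) k * FF n h x v (k + k - a) η) := by
    unfold hat
    rw [Finset.mul_sum]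
    have h3 : ∀ y : ZMod Q × ZMod Q, (Fintype.card (ZMod Q × B) : ℂ) *
        (ZMod.stdAddChar (h * br y v) * FF n h x y a χ) =
        ∑ w : ZMod Q × ZMod Q, (ε * ∑ k : B, ∑ η : AddChar B ℂ,
          (η - χ) k * FF n h x w (k + k - a) η) *
          (ZMod.stdAddChar (h * br y v) * ZMod.stdAddChar (h * br w y)) := by
      intro y
      have h4 := FF_sd (n := n) hx h2 y a χ
      calc (Fintype.card (ZMod Q × B) : ℂ) * (ZMod.stdAddChar (h * br y v) * FF n h x y a χ)
          = ZMod.stdAddChar (h * br y v) *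
            ((Fintype.card (ZMod Q × B) : ℂ) * FF n h x y a χ) := by ring
        _ = _ := by
          rw [h4, Finset.mul_sum, Finset.mul_sum]
          refine Finset.sum_congr rfl fun w _ => ?_
          ring
    rw [Finset.sum_congr rfl fun y _ => h3 y, Finset.sum_comm]
    simp_rw [← Finset.mul_sum, plane_orth h2]
    simp only [mul_ite, mul_zero]
    rw [Finset.sum_ite_eq' Finset.univ v, if_pos (Finset.mem_univ _)]
    ring
  rw [Fintype.card_prod, ZMod.card] at h1
  push_cast at h1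
  have h3 : (Q : ℂ) * ((Fintype.card B : ℂ) * hat n h x v a χ) = Q * (ε * (Q * ∑ k : B,
      ∑ η : AddChar B ℂ, (η - χ) k * FF n h x v (k + k - a) η)) := by
    linear_combination h1
  exact mul_left_cancel₀ hQ h3

/-- divisibility of the transform of the sign function -/
theorem dvd_hat (hx : Par x ε) (hn : n ^ 2 = Fintype.card (ZMod Q × B) + 1) (h2 : h + h = 1)
    (hco : Nat.Coprime Q (Fintype.card B)) (v : ZMod Q × ZMod Q) (b : B) (η : AddChar B ℂ)
    (c : ℂ) (hc : c ^ 2 * η b = 1) (S : ℤ) (hS : hat n h x v b η = c * S) : (Q : ℤ) ∣ S := by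
  have hcint : IsIntegral ℤ c := by
    refine IsIntegral.of_pow (n := 2 * Fintype.card B) (by
      have : 0 < Fintype.card B := Fintype.card_pos
      omega) ?_
    have h3 := congrArg (fun t => t ^ Fintype.card B) hc
    simp only [mul_pow, one_pow, char_pow_card, mul_one] at h3
    rw [pow_mul, h3]
    exact isIntegral_one
  refine dvd_of_integral Q (Fintype.card B) (NeZero.ne Q) hco S
    (c * η b * (ε * ∑ k : B, ∑ χ : AddChar B ℂ, (χ - η) k * FF n h x v (k + k - b) χ)) ?_ ?_
  · apply IsIntegral.mul (IsIntegral.mul hcint (char_int η b))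
    apply IsIntegral.mul
    · rcases hx.eps with h3 | h3
      · rw [h3]; exact isIntegral_one
      · rw [h3]; exact isIntegral_one.neg
    · apply IsIntegral.sum
      intro k _
      apply IsIntegral.sum
      intro χ _
      exact IsIntegral.mul (char_int _ _) (FF_int hx hn h2 _ _ _)
  · have h3 := hat_eq (n := n) hx h2 v b η
    rw [hS] at h3
    linear_combination (c * η b) * h3 - (Fintype.card B * S : ℂ) * hc

end Pool.Agent.U338.SIC
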