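import Mathlib
import Pool.Agent.U338.SIC.Conj

/-!
# An odd prime exactly dividing the order forces order three
-/

set_option autoImplicit false
set_option linter.unusedSectionVars false

open Finset ComplexConjugate

namespace Pool.Agent.U338.SIC

open Pool.Agent.N392.Ab

variable {q : ℕ} [hqf : Fact q.Prime] {B : Type*} [AddCommGroup B] [Fintype B]
variable {x : ZMod q × B → ℂ} {ε : ℂ} {n : ℕ}

/-- sign functions -/
theorem exists_sign (f : ZMod q × ZMod q → ℂ) (c : ℂ) (s : Set (ZMod q × ZMod q))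
    (hf : ∀ w ∈ s, f w ^ 2 = c ^ 2) :
    ∃ g : ZMod q × ZMod q → ℤ, ∀ w ∈ s, (g w = 1 ∨ g w = -1) ∧ f w = c * g w := by
  have h1 : ∀ w, ∃ g : ℤ, w ∈ s → (g = 1 ∨ g = -1) ∧ f w = c * g := by
    intro w
    by_cases hw : w ∈ s
    · rcases sq_eq_sq_iff_eq_or_eq_neg.1 (hf w hw) with h | h
      · exact ⟨1, fun _ => ⟨Or.inl rfl, by rw [h]; simp⟩⟩
      · exact ⟨-1, fun _ => ⟨Or.inr rfl, by rw [h]; simp⟩⟩
    · exact ⟨1, fun h => absurd h hw⟩
  choose g hg using h1
  exact ⟨g, hg⟩

theorem hat_zero_eq {h : ZMod q} (b : B) (η : AddChar B ℂ) :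
    hat n h x 0 b η = ∑ w, FF n h x w b η := by
  unfold hat
  refine Finset.sum_congr rfl fun w _ => ?_
  have : br w (0 : ZMod q × ZMod q) = 0 := by unfold br; simp
  rw [this, mul_zero, AddChar.map_zero_eq_one, one_mul]

theorem prime_case (hq2 : q ≠ 2) (hx : Par x ε)
    (hn : n ^ 2 = Fintype.card (ZMod q × B) + 1) (hco : Nat.Coprime q (Fintype.card B)) :
    Fintype.card (ZMod q × B) = 3 := by
  classical
  have hq : q.Prime := hqf.out
  have hqpos : 0 < q := hq.pos
  have hq2' : Nat.Coprime q 2 := by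
    rw [Nat.coprime_primes hq Nat.prime_two]; exact hq2
  have h20 : (2 : ZMod q) ≠ 0 := by
    intro h
    have : ((2 : ℕ) : ZMod q) = 0 := by exact_mod_cast h
    rw [ZMod.natCast_eq_zero_iff] at this
    exact hq2 ((Nat.prime_dvd_prime_iff_eq hq Nat.prime_two).1 this)
  set h : ZMod q := (2 : ZMod q)⁻¹ with hh
  have h2 : h + h = 1 := by
    rw [← two_mul, hh, mul_inv_cancel₀ h20]
  have hh0 : h ≠ 0 := inv_ne_zero h20
  set e : AddChar (ZMod q) ℂ := AddChar.mulShift ZMod.stdAddChar h with he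
  have he1 : e ≠ 1 := ZMod.isPrimitive_stdAddChar q hh0
  have hez : ∀ z, (ZMod.stdAddChar (h * z) : ℂ) = e z := fun z => by
    rw [he, AddChar.mulShift_apply]
  have hunit : ∀ (u : ZMod q), u ≠ 0 → ∀ (w : ZMod q × ZMod q) (b : B) (η : AddChar B ℂ),
      FF n h x (u * w.1, u * w.2) b η = FF n h x w b η := by
    intro u hu w b η
    exact FF_gal hx hn h2 hq2' hco (Units.mk0 u hu) w b η
  -- the inner sums away from the origin of `B × B^` vanish
  have hoff : ∀ (v : ZMod q × ZMod q), v ≠ 0 → ∀ (b : B) (η : AddChar B ℂ), (b ≠ 0 ∨ η ≠ 0) →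
      ∑ w : ZMod q × ZMod q, (ZMod.stdAddChar (h * br w v) : ℂ) *
        (FF n h x w b η * FF n h x (w - v) b η) = 0 := by
    intro v hv b η hbη
    set c := FF n h x 0 b η with hc
    have hc2 : c ^ 2 * η b = 1 := FF_sq hx hn h2 0 b η (Or.inr hbη)
    have hc0 : c ≠ 0 := by
      rintro h3
      rw [h3] at hc2
      norm_num at hc2
    have hηb : η b ≠ 0 := by
      intro h3
      rw [h3, mul_zero] at hc2
      exact zero_ne_one hc2
    obtain ⟨g, hg⟩ := exists_sign (fun w => FF n h x w b η) c Set.univ (by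
      intro w _
      have h3 := FF_sq hx hn h2 w b η (Or.inr hbη)
      rw [← hc2] at h3
      exact mul_right_cancel₀ hηb h3)
    have hg1 : ∀ w, g w = 1 ∨ g w = -1 := fun w => (hg w (Set.mem_univ _)).1
    have hg2 : ∀ w, FF n h x w b η = c * g w := fun w => (hg w (Set.mem_univ _)).2
    have hgu : ∀ (u : ZMod q) (w : ZMod q × ZMod q), u ≠ 0 → g (u * w.1, u * w.2) = g w := by
      intro u w hu
      have h3 := hunit u hu w b η
      rw [hg2, hg2] at h3
      exact_mod_cast mul_left_cancel₀ hc0 h3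
    have hdvd : (q : ℤ) ∣ ∑ w, g w := by
      apply dvd_hat hx hn h2 hco 0 b η c hc2
      rw [hat_zero_eq]
      simp_rw [hg2]
      push_cast
      rw [Finset.mul_sum]
    have h3 := plane_corr hq2 g hg1 hgu hdvd e he1 v hv
    have h4 : ∀ w : ZMod q × ZMod q, (ZMod.stdAddChar (h * br w v) : ℂ) *
        (FF n h x w b η * FF n h x (w - v) b η) =
        c ^ 2 * (e (br w v) * ((g w : ℂ) * g (w - v))) := by
      intro w
      rw [hez, hg2, hg2]
      ring
    rw [Finset.sum_congr rfl fun w _ => h4 w, ← Finset.mul_sum, h3, mul_zero]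
  -- the sign congruent to `n`
  have hcard : Fintype.card (ZMod q × B) = q * Fintype.card B := by
    rw [Fintype.card_prod, ZMod.card]
  obtain ⟨s, hs, hqs⟩ : ∃ s : ℤ, (s = 1 ∨ s = -1) ∧ (q : ℤ) ∣ n - s := by
    have h3 : (q : ℤ) ∣ ((n : ℤ) - 1) * ((n : ℤ) + 1) := by
      refine ⟨Fintype.card B, ?_⟩
      have : (n : ℤ) ^ 2 = q * Fintype.card B + 1 := by
        rw [hcard] at hn
        exact_mod_cast hn
      linear_combination this
    rcases (Nat.prime_iff_prime_int.1 hq).dvd_mul.1 h3 with h4 | h4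
    · exact ⟨1, Or.inl rfl, h4⟩
    · exact ⟨-1, Or.inr rfl, by simpa using h4⟩
  -- the sign function at the origin
  obtain ⟨g0, hg0⟩ := exists_sign (fun w => FF n h x w 0 0) 1 {0}ᶜ (by
    intro w hw
    have h3 := FF_sq hx hn h2 w 0 0 (Or.inl hw)
    rw [AddChar.zero_apply, mul_one] at h3
    rw [h3]; norm_num)
  set g : ZMod q × ZMod q → ℤ := fun w => if w = 0 then s else g0 w with hgdef
  have hgs : g 0 = s := by simp [hgdef]
  have hgn : ∀ w, w ≠ 0 → g w = g0 w := fun w hw => by simp [hgdef, hw]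
  have hg1 : ∀ w, g w = 1 ∨ g w = -1 := by
    intro w
    by_cases hw : w = 0
    · rw [hw, hgs]; exact hs
    · rw [hgn w hw]; exact (hg0 w hw).1
  have hg2 : ∀ w, FF n h x w 0 0 = g w + if w = 0 then ((n : ℂ) - s) else 0 := by
    intro w
    by_cases hw : w = 0
    · rw [if_pos hw, hw, FF_zero hx, hgs]; ring
    · rw [if_neg hw, add_zero, hgn w hw, (hg0 w hw).2, one_mul]
  have hgu : ∀ (u : ZMod q) (w : ZMod q × ZMod q), u ≠ 0 → g (u * w.1, u * w.2) = g w := by
    intro u w hu
    by_cases hw : w = 0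
    · rw [hw]
      simp only [Prod.fst_zero, Prod.snd_zero, mul_zero]
      rfl
    · have huw : (u * w.1, u * w.2) ≠ (0 : ZMod q × ZMod q) := by
        intro h3
        apply hw
        have h4 := congrArg Prod.fst h3
        have h5 := congrArg Prod.snd h3
        simp only [Prod.fst_zero, Prod.snd_zero, mul_eq_zero, hu, false_or] at h4 h5
        exact Prod.ext h4 h5
      have h3 := hunit u hu w 0 0
      rw [hg2, hg2, if_neg hw, if_neg huw, add_zero, add_zero] at h3
      exact_mod_cast h3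
  have hdvd : (q : ℤ) ∣ ∑ w, g w := by
    have h3 : (q : ℤ) ∣ (∑ w, g w) + (n - s) := by
      apply dvd_hat hx hn h2 hco 0 0 0 1 (by simp)
      rw [hat_zero_eq]
      simp_rw [hg2]
      rw [Finset.sum_add_distrib, Finset.sum_ite_eq', if_pos (Finset.mem_univ _)]
      push_cast
      ring
    exact (dvd_add_left hqs).1 h3
  set v : ZMod q × ZMod q := (1, 0) with hv
  have hv0 : v ≠ 0 := by
    intro h3
    have := congrArg Prod.fst h3
    simp [hv] at this
  have hgv : g (-v) = g v := by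
    have := hgu (-1) v (by simp)
    simpa [hv] using this
  have hcorr := plane_corr hq2 g hg1 hgu hdvd e he1 v hv0
  have hin : ∑ w : ZMod q × ZMod q, (ZMod.stdAddChar (h * br w v) : ℂ) *
        (FF n h x w 0 0 * FF n h x (w - v) 0 0) = 2 * ((n : ℂ) - s) * g v := by
    have h4 : ∀ w : ZMod q × ZMod q, (ZMod.stdAddChar (h * br w v) : ℂ) *
        (FF n h x w 0 0 * FF n h x (w - v) 0 0) =
        e (br w v) * ((g w : ℂ) * g (w - v)) + ((if w = 0 then ((n : ℂ) - s) * g v else 0) +
          if w = v then ((n : ℂ) - s) * g v else 0) := by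
      intro w
      rw [hez, hg2, hg2]
      by_cases hw : w = 0
      · have hw' : ¬ w = v := by rw [hw]; exact hv0.symm
        have hw2 : ¬ w - v = 0 := by rw [sub_eq_zero]; exact hw'
        have e1 : br (0 : ZMod q × ZMod q) v = 0 := by unfold br; simp
        rw [if_pos hw, if_pos hw, if_neg hw', if_neg hw2, hw, zero_sub, hgv, e1,
          AddChar.map_zero_eq_one]
        ring
      · by_cases hw' : w = v
        · have hw2 : w - v = 0 := by rw [sub_eq_zero]; exact hw'
          have e1 : br v v = 0 := by unfold br; ring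
          rw [if_neg hw, if_neg hw, if_pos hw', if_pos hw2, hw2, hw', e1,
            AddChar.map_zero_eq_one]
          ring
        · have hw2 : ¬ w - v = 0 := by rw [sub_eq_zero]; exact hw'
          rw [if_neg hw, if_neg hw, if_neg hw', if_neg hw2]
          ring
    rw [Finset.sum_congr rfl fun w _ => h4 w, Finset.sum_add_distrib, hcorr,
      Finset.sum_add_distrib, Finset.sum_ite_eq', Finset.sum_ite_eq',
      if_pos (Finset.mem_univ _), if_pos (Finset.mem_univ _)]
    ring
  have hquad := FF_quad (n := n) hx h2 v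
  have hL : ∑ a : B, ∑ η : AddChar B ℂ, η a * ∑ w : ZMod q × ZMod q,
      (ZMod.stdAddChar (h * br w v) : ℂ) * (FF n h x w a η * FF n h x (w - v) a η) =
      2 * ((n : ℂ) - s) * g v := by
    rw [Finset.sum_eq_single (0 : B)]
    · rw [Finset.sum_eq_single (0 : AddChar B ℂ)]
      · rw [hin, AddChar.zero_apply, one_mul]
      · intro η _ hη
        rw [hoff v hv0 0 η (Or.inr hη), mul_zero]
      · simp
    · intro b _ hb
      refine Finset.sum_eq_zero fun η _ => ?_
      rw [hoff v hv0 b η (Or.inl hb), mul_zero]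
    · simp
  rw [hL, hg2 v, if_neg hv0, add_zero] at hquad
  have hgv0 : (g v : ℂ) ≠ 0 := by
    rcases hg1 v with h3 | h3 <;> rw [h3] <;> norm_num
  have h5 : 2 * ((n : ℂ) - s) = (Fintype.card (ZMod q × B) : ℂ) * n := by
    apply mul_right_cancel₀ hgv0
    linear_combination hquad
  have h6 : 2 * ((n : ℤ) - s) = (Fintype.card (ZMod q × B) : ℤ) * n := by exact_mod_cast h5
  have h7 : (Fintype.card (ZMod q × B) : ℤ) = (n : ℤ) ^ 2 - 1 := by
    have : (n : ℤ) ^ 2 = (Fintype.card (ZMod q × B) : ℤ) + 1 := by exact_mod_cast hn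
    linear_combination -this
  have hpos : 0 < Fintype.card (ZMod q × B) := Fintype.card_pos
  have hn2 : 2 ≤ n := by
    by_contra h8
    have : n ≤ 1 := by omega
    have : n ^ 2 ≤ 1 := by
      calc n ^ 2 ≤ 1 ^ 2 := Nat.pow_le_pow_left this 2
        _ = 1 := one_pow 2
    omega
  rw [h7] at h6
  have hn2' : (2 : ℤ) ≤ n := by exact_mod_cast hn2
  rcases hs with h8 | h8
  · exfalso
    rw [h8] at h6
    have h9 : ((n : ℤ) - 1) ^ 2 * (n + 2) = 0 := by linear_combination -h6
    have h10 : 0 < ((n : ℤ) - 1) ^ 2 * (n + 2) := by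
      apply mul_pos
      · apply pow_pos; omega
      · omega
    omega
  · rw [h8] at h6
    have h9 : ((n : ℤ) + 1) ^ 2 * (n - 2) = 0 := by linear_combination -h6
    have h10 : ((n : ℤ) + 1) ^ 2 ≠ 0 := by
      apply pow_ne_zero; omega
    have h11 : (n : ℤ) - 2 = 0 := (mul_eq_zero.1 h9).resolve_left h10
    have h12 : n = 2 := by omega
    rw [h12] at hn
    omega

end Pool.Agent.U338.SIC
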