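import Mathlib
import Pool.Agent.U338.SIC.PrimeCase
import Pool.Agent.R848.SIC.Ram

/-!
# No cyclic factor of odd prime power order `≥ 7` coprime to its complement

The combinatorial inputs `R848.SIC.key_bound` and `R848.SIC.ramanujan` are those of
`Pool.Agent.R848.SIC` (there used for cyclic groups).
-/

set_option autoImplicit false
set_option linter.unusedSectionVars false

open Finset ComplexConjugate

namespace Pool.Agent.U338.SIC

open Pool.Agent.N392.Ab

section parseval

variable {B : Type*} [AddCommGroup B] [Fintype B]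

theorem pars1 (f : B → ℂ) :
    ∑ χ : AddChar B ℂ, (∑ i, χ (-i) * f i) * conj (∑ i, χ (-i) * f i) =
      Fintype.card B * ∑ i, f i * conj (f i) := by
  classical
  have h1 : ∀ χ : AddChar B ℂ, (∑ i, χ (-i) * f i) * conj (∑ i, χ (-i) * f i) =
      ∑ i, ∑ j, (f i * conj (f j)) * χ (j - i) := by
    intro χ
    rw [map_sum, Finset.sum_mul_sum]
    refine Finset.sum_congr rfl fun i _ => Finset.sum_congr rfl fun j _ => ?_
    rw [map_mul, conj_char, neg_neg, sub_eq_add_neg, AddChar.map_add_eq_mul]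
    ring
  simp_rw [h1]
  rw [Finset.sum_comm, Finset.mul_sum]
  refine Finset.sum_congr rfl fun i _ => ?_
  rw [Finset.sum_comm]
  simp_rw [← Finset.mul_sum, sum_char_apply]
  rw [Finset.sum_eq_single i]
  · rw [sub_self, if_pos rfl]; ring
  · intro j _ hj
    rw [if_neg (sub_ne_zero.2 hj), mul_zero]
  · simp

theorem pars2 (g : AddChar B ℂ → ℂ) :
    ∑ j : B, (∑ η : AddChar B ℂ, η j * g η) * conj (∑ η : AddChar B ℂ, η j * g η) =
      Fintype.card B * ∑ η : AddChar B ℂ, g η * conj (g η) := by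
  classical
  have h1 : ∀ j : B, (∑ η : AddChar B ℂ, η j * g η) * conj (∑ η : AddChar B ℂ, η j * g η) =
      ∑ η : AddChar B ℂ, ∑ χ : AddChar B ℂ, (g η * conj (g χ)) * (η - χ) j := by
    intro j
    rw [map_sum, Finset.sum_mul_sum]
    refine Finset.sum_congr rfl fun i _ => Finset.sum_congr rfl fun j _ => ?_
    rw [map_mul, conj_char, AddChar.sub_apply]
    ring
  simp_rw [h1]
  rw [Finset.sum_comm, Finset.mul_sum]
  refine Finset.sum_congr rfl fun η _ => ?_
  rw [Finset.sum_comm]
  simp_rw [← Finset.mul_sum, AddChar.sum_eq_ite]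
  rw [Finset.sum_eq_single η]
  · rw [sub_self, if_pos rfl]; ring
  · intro χ _ hχ
    rw [if_neg (sub_ne_zero.2 (Ne.symm hχ)), mul_zero]
  · simp

end parseval

section

variable {Q : ℕ} [NeZero Q] {B : Type*} [AddCommGroup B] [Fintype B]
variable {x : ZMod Q × B → ℂ} {ε : ℂ} {n : ℕ} {h : ZMod Q}

/-- Parseval identity for the transforms at a nonzero point `v` -/
theorem hat_parseval (hx : Par x ε) (hn : n ^ 2 = Fintype.card (ZMod Q × B) + 1)
    (h2 : h + h = 1) (v : ZMod Q × ZMod Q) (hv : v ≠ 0) :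
    ∑ i : B, ∑ η : AddChar B ℂ, hat n h x v (i + i) η * conj (hat n h x v (i + i) η) =
      (Fintype.card (ZMod Q × B) : ℂ) ^ 2 := by
  classical
  set d : ℂ := (Fintype.card (ZMod Q × B) : ℂ) with hd
  set u : B → AddChar B ℂ → ℂ := fun i η => η i * hat n h x v (i + i) η with hu
  have hDD : (Fintype.card B : ℂ) ≠ 0 := card_ne
  -- the relation
  have h1 : ∀ (j : B) (χ : AddChar B ℂ), d * FF n h x v (j + j) χ =
      ε * χ (-j) * ∑ i : B, χ (-i) * ∑ η : AddChar B ℂ, η j * u i η := by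
    intro j χ
    rw [hd, FF_sd hx h2 v (j + j) χ]
    have h3 : ∑ w : ZMod Q × ZMod Q, (ZMod.stdAddChar (h * br w v) : ℂ) *
        ∑ k : B, ∑ η : AddChar B ℂ, (η - χ) k * FF n h x w (k + k - (j + j)) η =
        ∑ k : B, ∑ η : AddChar B ℂ, (η - χ) k * hat n h x v (k + k - (j + j)) η := by
      simp_rw [Finset.mul_sum]
      rw [Finset.sum_comm]
      refine Finset.sum_congr rfl fun k _ => ?_
      rw [Finset.sum_comm]
      refine Finset.sum_congr rfl fun η _ => ?_
      unfold hat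
      rw [Finset.mul_sum]
      refine Finset.sum_congr rfl fun w _ => ?_
      ring
    rw [h3, ← Equiv.sum_comp (Equiv.addRight j), mul_assoc]
    congr 1
    rw [Finset.mul_sum]
    refine Finset.sum_congr rfl fun i _ => ?_
    rw [Finset.mul_sum, Finset.mul_sum]
    refine Finset.sum_congr rfl fun η _ => ?_
    simp only [Equiv.coe_addRight, hu]
    have e1 : i + j + (i + j) - (j + j) = i + i := by abel
    have e2 : (η - χ) (i + j) = η i * η j * (χ (-i) * χ (-j)) := by
      rw [AddChar.sub_apply, AddChar.map_add_eq_mul, neg_add, AddChar.map_add_eq_mul]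
    rw [e1, e2]
    ring
  -- moduli
  have h4 : ∀ (j : B) (χ : AddChar B ℂ), (d * FF n h x v (j + j) χ) *
      conj (d * FF n h x v (j + j) χ) = d ^ 2 := by
    intro j χ
    have h5 := FF_sq hx hn h2 v (j + j) χ (Or.inl hv)
    have h6 : ‖FF n h x v (j + j) χ‖ = 1 := by
      have h7 := congrArg norm h5
      rw [norm_mul, norm_pow, norm_char, mul_one, norm_one] at h7
      exact (pow_eq_one_iff_of_nonneg (norm_nonneg _) two_ne_zero).1 h7
    have h8 : FF n h x v (j + j) χ * conj (FF n h x v (j + j) χ) = 1 := by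
      rw [Complex.mul_conj, Complex.normSq_eq_norm_sq, h6]
      norm_num
    rw [map_mul]
    have h9 : conj d = d := by rw [hd, map_natCast]
    rw [h9]
    linear_combination (d ^ 2) * h8
  have h5 : ∀ (j : B) (χ : AddChar B ℂ), (d * FF n h x v (j + j) χ) *
      conj (d * FF n h x v (j + j) χ) =
      (∑ i : B, χ (-i) * ∑ η : AddChar B ℂ, η j * u i η) *
        conj (∑ i : B, χ (-i) * ∑ η : AddChar B ℂ, η j * u i η) := by
    intro j χ
    rw [h1, map_mul, map_mul, conj_char, neg_neg, eps_conj hx.eps]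
    have e1 := eps_sq hx.eps
    have e2 := char_mul_neg χ j
    generalize (∑ i : B, χ (-i) * ∑ η : AddChar B ℂ, η j * u i η) = S
    linear_combination (χ j * χ (-j) * S * conj S) * e1 + (S * conj S) * e2
  have h6 : ∑ j : B, ∑ χ : AddChar B ℂ, d ^ 2 = (Fintype.card B : ℂ) * ((Fintype.card B : ℂ) *
      ∑ i : B, ∑ η : AddChar B ℂ, hat n h x v (i + i) η * conj (hat n h x v (i + i) η)) := by
    calc ∑ j : B, ∑ χ : AddChar B ℂ, d ^ 2
        = ∑ j : B, ∑ χ : AddChar B ℂ, (∑ i : B, χ (-i) * ∑ η : AddChar B ℂ, η j * u i η) *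
        conj (∑ i : B, χ (-i) * ∑ η : AddChar B ℂ, η j * u i η) := by
          refine Finset.sum_congr rfl fun j _ => Finset.sum_congr rfl fun χ _ => ?_
          rw [← h5, h4]
      _ = ∑ j : B, (Fintype.card B : ℂ) * ∑ i : B, (∑ η : AddChar B ℂ, η j * u i η) *
          conj (∑ η : AddChar B ℂ, η j * u i η) :=
          Finset.sum_congr rfl fun j _ => pars1 _
      _ = (Fintype.card B : ℂ) * ∑ i : B, ∑ j : B, (∑ η : AddChar B ℂ, η j * u i η) *
          conj (∑ η : AddChar B ℂ, η j * u i η) := by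
          rw [← Finset.mul_sum, Finset.sum_comm]
      _ = (Fintype.card B : ℂ) * ∑ i : B, (Fintype.card B : ℂ) *
          ∑ η : AddChar B ℂ, u i η * conj (u i η) := by
          congr 1
          exact Finset.sum_congr rfl fun i _ => pars2 _
      _ = _ := by
          rw [← Finset.mul_sum]
          congr 2
          refine Finset.sum_congr rfl fun i _ => Finset.sum_congr rfl fun η _ => ?_
          simp only [hu]
          rw [map_mul, conj_char]
          have e2 := char_mul_neg η i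
          linear_combination (hat n h x v (i + i) η * conj (hat n h x v (i + i) η)) * e2
  simp only [Finset.sum_const, Finset.card_univ, AddChar.card_eq, nsmul_eq_mul] at h6
  exact (mul_left_cancel₀ hDD (mul_left_cancel₀ hDD h6)).symm

end

section power

variable {q e : ℕ} {B : Type*} [AddCommGroup B] [Fintype B]
variable [NeZero (q ^ e)]
variable {x : ZMod (q ^ e) × B → ℂ} {ε : ℂ} {n : ℕ} {h : ZMod (q ^ e)}

/-- the transform at `(1, t)` as a difference of two line sums -/
theorem hat_line (hq : q.Prime) (he : 1 ≤ e)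
    (hx : Par x ε) (hn : n ^ 2 = Fintype.card (ZMod (q ^ e) × B) + 1) (h2 : h + h = 1)
    (hQ2 : Nat.Coprime (q ^ e) 2) (hco : Nat.Coprime (q ^ e) (Fintype.card B))
    (t : ZMod (q ^ e)) (b : B) (η : AddChar B ℂ) :
    hat n h x (1, t) b η = ∑ a : ZMod (q ^ e), (FF n h x (a, t * a) b η -
      FF n h x (a, t * a + ((q ^ (e - 1) : ℕ) : ZMod (q ^ e))) b η) := by
  classical
  set χ : AddChar (ZMod (q ^ e)) ℂ := AddChar.mulShift ZMod.stdAddChar h with hχ
  have hprim : χ.IsPrimitive := by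
    intro a ha
    rw [hχ, AddChar.mulShift_mulShift]
    apply ZMod.isPrimitive_stdAddChar
    intro h3
    apply ha
    have : a = (h + h) * a := by rw [h2, one_mul]
    rw [this, add_mul, h3, add_zero]
  have hχz : ∀ z, (ZMod.stdAddChar (h * z) : ℂ) = χ z := fun z => by
    rw [hχ, AddChar.mulShift_apply]
  have h3 : hat n h x (1, t) b η = ∑ β : ZMod (q ^ e), χ β *
      ∑ a : ZMod (q ^ e), FF n h x (a, t * a + β) b η := by
    unfold hat
    simp_rw [Finset.mul_sum]
    rw [Fintype.sum_prod_type, Finset.sum_comm (s := (Finset.univ : Finset (ZMod (q ^ e))))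
      (t := (Finset.univ : Finset (ZMod (q ^ e)))) (f := fun β a =>
        χ β * FF n h x (a, t * a + β) b η)]
    refine Finset.sum_congr rfl fun a _ => ?_
    rw [← Equiv.sum_comp (Equiv.addLeft (t * a))]
    refine Finset.sum_congr rfl fun β _ => ?_
    simp only [Equiv.coe_addLeft, br]
    rw [← hχz]
    congr 3
    ring
  rw [h3, R848.SIC.ramanujan hq he χ hprim]
  · rw [← Finset.sum_sub_distrib]
    simp only [add_zero]
  · intro k β
    rw [← Equiv.sum_comp (Units.mulLeft k)]
    refine Finset.sum_congr rfl fun a _ => ?_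
    simp only [Units.mulLeft_apply]
    rw [← FF_gal hx hn h2 hQ2 hco k (a, t * a + β) b η]
    congr 2
    ring

/-- numerical endgame -/
theorem power_num (Q D n ν s κ : ℤ) (hQ : 7 ≤ Q) (hs : s = 1 ∨ s = -1)
    (hnν : n = s + Q * ν) (hn2 : 2 ≤ n) (hQD : n ^ 2 = Q * D + 1) (hκ0 : 0 ≤ κ) (hκ : κ ≤ D)
    (hineq : Q * (Q * D) ^ 2 ≤ D * (D * (4 * Q ^ 2)) +
      κ * ((Q * (Q * ν) ^ 2 + max 0 (4 * Q * s * (Q * ν) + 4 * Q ^ 2)) - 4 * Q ^ 2)) : False := by
  have hs2 : s ^ 2 = 1 := by rcases hs with h | h <;> rw [h] <;> norm_num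
  have hν : 1 ≤ ν := by
    by_contra h
    push Not at h
    have h1 : ν ≤ 0 := by omega
    have h2 : Q * ν ≤ 0 := by nlinarith
    rcases hs with h | h <;> rw [h] at hnν <;> linarith
  have hD : D = ν * (Q * ν + 2 * s) := by
    have h1 : Q * D = Q * (ν * (Q * ν + 2 * s)) := by
      have : Q * D = n ^ 2 - s ^ 2 := by rw [hQD, hs2]; ring
      rw [this, hnν]; ring
    exact mul_left_cancel₀ (by omega) h1
  have hQ2 : (0 : ℤ) < Q ^ 2 := by positivity
  have hDpos : 0 < D := by
    rw [hD]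
    apply mul_pos (by omega)
    rcases hs with h | h <;> rw [h] <;> nlinarith
  rcases hs with h1 | h1
  · rw [h1] at hineq hD
    have hmax : max 0 (4 * Q * 1 * (Q * ν) + 4 * Q ^ 2) = Q ^ 2 * (4 * ν + 4) := by
      rw [max_eq_right]
      · ring
      · positivity
    rw [hmax] at hineq
    have h2 : Q ^ 2 * (Q * D ^ 2) ≤ Q ^ 2 * (4 * D ^ 2 + κ * (Q * ν ^ 2 + 4 * ν)) := by
      nlinarith [hineq]
    have h3 := le_of_mul_le_mul_left h2 hQ2
    have h4 : κ * (Q * ν ^ 2 + 4 * ν) ≤ D * (Q * ν ^ 2 + 4 * ν) :=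
      mul_le_mul_of_nonneg_right hκ (by positivity)
    have h5 : D * (Q * D) ≤ D * (4 * D + (Q * ν ^ 2 + 4 * ν)) := by nlinarith
    have h6 := le_of_mul_le_mul_left h5 hDpos
    have h7 : ν * ((Q - 4) * (Q * ν + 2)) ≤ ν * (Q * ν + 4) := by
      rw [hD] at h6; nlinarith
    have h8 := le_of_mul_le_mul_left h7 (by omega)
    nlinarith
  · rw [h1] at hineq hD
    have hmax : max 0 (4 * Q * (-1) * (Q * ν) + 4 * Q ^ 2) = 0 := by
      apply max_eq_left
      nlinarith
    rw [hmax] at hineq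
    have h2 : Q ^ 2 * (Q * D ^ 2) ≤ Q ^ 2 * (4 * D ^ 2 + κ * (Q * ν ^ 2 - 4)) := by
      nlinarith [hineq]
    have h3 := le_of_mul_le_mul_left h2 hQ2
    have hpos : 0 ≤ Q * ν ^ 2 - 4 := by nlinarith
    have h4 : κ * (Q * ν ^ 2 - 4) ≤ D * (Q * ν ^ 2 - 4) :=
      mul_le_mul_of_nonneg_right hκ hpos
    have h5 : D * (Q * D) ≤ D * (4 * D + (Q * ν ^ 2 - 4)) := by nlinarith
    have h6 := le_of_mul_le_mul_left h5 hDpos
    rw [hD] at h6
    nlinarith [mul_pos (show (0:ℤ) < ν by omega) (show (0:ℤ) < Q * ν - 2 by nlinarith)]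

end power

end Pool.Agent.U338.SIC
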