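import Mathlib
import Pool.Agent.U338.SIC.PowerCase

/-!
# No cyclic factor of odd prime power order `≥ 7` coprime to its complement: the theorem
-/

set_option autoImplicit false
set_option linter.unusedSectionVars false

open Finset ComplexConjugate

namespace Pool.Agent.U338.SIC

open Pool.Agent.N392.Ab

variable {q e : ℕ} {B : Type*} [AddCommGroup B] [Fintype B]
variable [NeZero (q ^ e)]
variable {x : ZMod (q ^ e) × B → ℂ} {ε : ℂ} {n : ℕ} {h : ZMod (q ^ e)}

theorem exists_sign' {ι : Type*} (f : ι → ℂ) (c : ℂ) (s : Set ι)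
    (hf : ∀ w ∈ s, f w ^ 2 = c ^ 2) :
    ∃ g : ι → ℤ, ∀ w ∈ s, (g w = 1 ∨ g w = -1) ∧ f w = c * g w := by
  classical
  have h1 : ∀ w, ∃ g : ℤ, w ∈ s → (g = 1 ∨ g = -1) ∧ f w = c * g := by
    intro w
    by_cases hw : w ∈ s
    · rcases sq_eq_sq_iff_eq_or_eq_neg.1 (hf w hw) with h | h
      · exact ⟨1, fun _ => ⟨Or.inl rfl, by rw [h]; simp⟩⟩
      · exact ⟨-1, fun _ => ⟨Or.inr rfl, by rw [h]; simp⟩⟩
    · exact ⟨1, fun h => absurd h hw⟩
  choose g hg using h1
  exact ⟨g, hg⟩

theorem power_case (hq : q.Prime) (he : 1 ≤ e) (hq2 : q ≠ 2) (hQ : 7 ≤ q ^ e) (hx : Par x ε)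
    (hn : n ^ 2 = Fintype.card (ZMod (q ^ e) × B) + 1)
    (hco : Nat.Coprime (q ^ e) (Fintype.card B)) : False := by
  classical
  have hodd : Odd q := hq.odd_of_ne_two hq2
  have hQ2 : Nat.Coprime (q ^ e) 2 := by
    rw [Nat.coprime_comm, Nat.coprime_two_left]
    exact hodd.pow
  set p : ZMod (q ^ e) := ((q ^ (e - 1) : ℕ) : ZMod (q ^ e)) with hp
  have hp0 : p ≠ 0 := by
    rw [hp, ne_eq, ZMod.natCast_eq_zero_iff]
    intro h
    have h1 := Nat.le_of_dvd (pow_pos hq.pos _) h
    have h2 : q ^ (e - 1) < q ^ e := Nat.pow_lt_pow_right hq.one_lt (by omega)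
    omega
  obtain ⟨h, h2⟩ : ∃ h : ZMod (q ^ e), h + h = 1 := by
    refine ⟨((2 : ℕ) : ZMod (q ^ e))⁻¹, ?_⟩
    have := ZMod.coe_mul_inv_eq_one (n := q ^ e) 2 hQ2.symm
    rw [← two_mul]
    exact_mod_cast this
  have hone : (1 : ZMod (q ^ e)) ≠ 0 := by
    have : Fact (1 < q ^ e) := ⟨by omega⟩
    exact one_ne_zero
  have hvt : ∀ t : ZMod (q ^ e), ((1 : ZMod (q ^ e)), t) ≠ 0 := by
    intro t h3
    exact hone (congrArg Prod.fst h3)
  obtain ⟨Q, hQdef⟩ : ∃ Q : ℕ, Q = q ^ e := ⟨_, rfl⟩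
  have hQZ' : ((q ^ e : ℕ) : ℤ) = (Q : ℤ) := by rw [hQdef]
  set D := Fintype.card B with hD
  have hcard : Fintype.card (ZMod (q ^ e) × B) = q ^ e * D := by
    rw [Fintype.card_prod, ZMod.card]
  have hnZ : (n : ℤ) ^ 2 = Q * D + 1 := by
    rw [hcard] at hn
    rw [hQdef]
    exact_mod_cast hn
  have hpos : 0 < Fintype.card (ZMod (q ^ e) × B) := Fintype.card_pos
  have hn2 : 2 ≤ n := by
    by_contra h8
    have : n ≤ 1 := by omega
    have : n ^ 2 ≤ 1 := by
      calc n ^ 2 ≤ 1 ^ 2 := Nat.pow_le_pow_left this 2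
        _ = 1 := one_pow 2
    omega
  -- the residue of n
  obtain ⟨s, ν, hs, hnν⟩ : ∃ s ν : ℤ, (s = 1 ∨ s = -1) ∧ (n : ℤ) = s + Q * ν := by
    have hprod : (Q : ℤ) ∣ ((n : ℤ) - 1) * ((n : ℤ) + 1) := ⟨D, by linear_combination hnZ⟩
    by_cases hqd : (q : ℤ) ∣ (n : ℤ) - 1
    · have hnot : ¬ (q : ℤ) ∣ (n : ℤ) + 1 := by
        intro h3
        have h4 : (q : ℤ) ∣ 2 := by
          have := dvd_sub h3 hqd
          have h5 : (n : ℤ) + 1 - (n - 1) = 2 := by ring
          rwa [h5] at this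
        have h5 : q ∣ 2 := by exact_mod_cast h4
        exact hq2 ((Nat.prime_dvd_prime_iff_eq hq Nat.prime_two).1 h5)
      have hcop : IsCoprime ((Q : ℕ) : ℤ) ((n : ℤ) + 1) := by
        rw [hQdef]; push_cast
        exact IsCoprime.pow_left ((Nat.prime_iff_prime_int.1 hq).coprime_iff_not_dvd.2 hnot)
      obtain ⟨ν, hν⟩ := hcop.dvd_of_dvd_mul_right hprod
      exact ⟨1, ν, Or.inl rfl, by linarith⟩
    · have hcop : IsCoprime ((Q : ℕ) : ℤ) ((n : ℤ) - 1) := by
        rw [hQdef]; push_cast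
        exact IsCoprime.pow_left ((Nat.prime_iff_prime_int.1 hq).coprime_iff_not_dvd.2 hqd)
      obtain ⟨ν, hν⟩ := hcop.dvd_of_dvd_mul_left hprod
      exact ⟨-1, ν, Or.inr rfl, by linarith⟩
  set M : ℤ := (Q * (Q * ν) ^ 2 + max 0 (4 * Q * s * (Q * ν) + 4 * Q ^ 2)) with hM
  -- the integers `H`
  have hH : ∀ (b : B) (η : AddChar B ℂ), ∃ H : ZMod (q ^ e) → ℤ,
      (∀ t, hat n h x (1, t) b η * conj (hat n h x (1, t) b η) = ((H t ^ 2 : ℤ) : ℂ)) ∧
      ∑ t, H t ^ 2 ≤ if b = 0 ∧ η = 0 then M else 4 * (Q : ℤ) ^ 2 := by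
    intro b η
    by_cases hbη : b = 0 ∧ η = 0
    · obtain ⟨rfl, rfl⟩ := hbη
      rw [if_pos ⟨rfl, rfl⟩]
      obtain ⟨g0, hg0⟩ := exists_sign' (fun w => FF n h x w 0 0) 1 {0}ᶜ (by
        intro w hw
        have h3 := FF_sq hx hn h2 w 0 0 (Or.inl hw)
        rw [AddChar.zero_apply, mul_one] at h3
        rw [h3]; norm_num)
      set g : ZMod (q ^ e) → ZMod (q ^ e) → ℤ :=
        fun a c => if (a, c) = (0 : ZMod (q ^ e) × ZMod (q ^ e)) then s else g0 (a, c) with hg
      have hg1 : ∀ a c, g a c = 1 ∨ g a c = -1 := by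
        intro a c
        by_cases hw : (a, c) = (0 : ZMod (q ^ e) × ZMod (q ^ e))
        · simp only [hg, if_pos hw]; exact hs
        · simp only [hg, if_neg hw]; exact (hg0 _ hw).1
      have hg2 : ∀ a c, FF n h x (a, c) 0 0 = g a c +
          if (a, c) = (0 : ZMod (q ^ e) × ZMod (q ^ e)) then ((Q : ℂ) * ν) else 0 := by
        intro a c
        by_cases hw : (a, c) = (0 : ZMod (q ^ e) × ZMod (q ^ e))
        · simp only [hg, if_pos hw]
          rw [hw, FF_zero hx]
          exact_mod_cast hnν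
        · simp only [hg, if_neg hw]
          rw [(hg0 _ hw).2]
          ring
      have hline : ∀ t, hat n h x (1, t) 0 0 = 1 * ((((Q : ℤ) * ν) +
          ∑ a, (g a (t * a) - g a (t * a + p)) : ℤ) : ℂ) := by
        intro t
        rw [hat_line hq he hx hn h2 hQ2 hco]
        have e1 : ∀ a : ZMod (q ^ e), FF n h x (a, t * a) 0 0 - FF n h x (a, t * a + p) 0 0 =
            (((g a (t * a) - g a (t * a + p) : ℤ)) : ℂ) +
              if a = 0 then ((Q : ℂ) * ν) else 0 := by
          intro a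
          rw [hg2, hg2]
          by_cases ha : a = 0
          · have e2 : (a, t * a) = (0 : ZMod (q ^ e) × ZMod (q ^ e)) := by
              rw [ha, mul_zero]; rfl
            have e3 : ¬ (a, t * a + p) = (0 : ZMod (q ^ e) × ZMod (q ^ e)) := by
              intro h3
              have := congrArg Prod.snd h3
              simp only [ha, mul_zero, zero_add, Prod.snd_zero] at this
              exact hp0 this
            rw [if_pos e2, if_neg e3, if_pos ha]
            push_cast
            ring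
          · have e2 : ¬ (a, t * a) = (0 : ZMod (q ^ e) × ZMod (q ^ e)) :=
              fun h3 => ha (congrArg Prod.fst h3)
            have e3 : ¬ (a, t * a + p) = (0 : ZMod (q ^ e) × ZMod (q ^ e)) :=
              fun h3 => ha (congrArg Prod.fst h3)
            rw [if_neg e2, if_neg e3, if_neg ha]
            push_cast
            ring
        rw [Finset.sum_congr rfl fun a _ => e1 a, Finset.sum_add_distrib, Finset.sum_ite_eq',
          if_pos (Finset.mem_univ _)]
        push_cast
        ring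
      have hdvd : ∀ t, ((q ^ e : ℕ) : ℤ) ∣ ∑ a, (g a (t * a) - g a (t * a + p)) := by
        intro t
        have h3 := dvd_hat hx hn h2 hco (1, t) 0 0 1 (by simp) _ (hline t)
        rw [hQZ'] at h3 ⊢
        exact (dvd_add_right (dvd_mul_right _ _)).1 h3
      have hkb := R848.SIC.key_bound hq he hq2 g hg1 hdvd ((Q : ℤ) * ν)
      refine ⟨fun t => (Q : ℤ) * ν + ∑ a, (g a (t * a) - g a (t * a + p)), ?_, ?_⟩
      · intro t
        rw [hline t, one_mul, map_intCast]
        push_cast
        ring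
      · have hg00 : g 0 0 = s := by simp [hg]
        rw [hg00, hQZ'] at hkb
        refine hkb.trans (le_of_eq ?_)
        rw [hM]
    · rw [if_neg hbη]
      rw [not_and_or] at hbη
      set c := FF n h x 0 b η with hc
      have hc2 : c ^ 2 * η b = 1 := FF_sq hx hn h2 0 b η (Or.inr hbη)
      have hcn : c * conj c = 1 := by
        have h7 := congrArg norm hc2
        rw [norm_mul, norm_pow, norm_char, mul_one, norm_one] at h7
        have h8 : ‖c‖ = 1 := (pow_eq_one_iff_of_nonneg (norm_nonneg _) two_ne_zero).1 h7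
        rw [Complex.mul_conj, Complex.normSq_eq_norm_sq, h8]
        norm_num
      have hηb : η b ≠ 0 := by
        intro h3
        rw [h3, mul_zero] at hc2
        exact zero_ne_one hc2
      obtain ⟨g, hg⟩ := exists_sign' (fun w => FF n h x w b η) c Set.univ (by
        intro w _
        have h3 := FF_sq hx hn h2 w b η (Or.inr hbη)
        rw [← hc2] at h3
        exact mul_right_cancel₀ hηb h3)
      have hg1 : ∀ w, g w = 1 ∨ g w = -1 := fun w => (hg w (Set.mem_univ _)).1
      have hg2 : ∀ w, FF n h x w b η = c * g w := fun w => (hg w (Set.mem_univ _)).2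
      have hline : ∀ t, hat n h x (1, t) b η = c * ((∑ a, (g (a, (t * a)) -
          g (a, (t * a + p))) : ℤ) : ℂ) := by
        intro t
        rw [hat_line hq he hx hn h2 hQ2 hco]
        push_cast
        rw [Finset.mul_sum]
        refine Finset.sum_congr rfl fun a _ => ?_
        rw [hg2, hg2, hp]
        push_cast
        ring
      have hdvd : ∀ t, ((q ^ e : ℕ) : ℤ) ∣ ∑ a, (g (a, (t * a)) - g (a, (t * a + p))) := by
        intro t
        exact dvd_hat hx hn h2 hco (1, t) b η c hc2 _ (hline t)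
      have hkb := R848.SIC.key_bound hq he hq2 (fun a c => g (a, c)) (fun a c => hg1 _) hdvd 0
      refine ⟨fun t => ∑ a, (g (a, (t * a)) - g (a, (t * a + p))), ?_, ?_⟩
      · intro t
        rw [hline t, map_mul, map_intCast]
        push_cast
        linear_combination (((∑ a, ((g (a, (t * a)) : ℂ) -
          g (a, (t * a + p)))) ) ^ 2) * hcn
      · simp only [zero_add] at hkb
        rw [hQZ'] at hkb
        refine hkb.trans (le_of_eq ?_)
        have : (0 : ℤ) ≤ 4 * (Q : ℤ) ^ 2 := by positivity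
        rw [mul_zero, zero_add, max_eq_right this]
        ring
  choose H hH1 hH2 using hH
  -- Parseval
  have hP : ∀ t, ∑ i : B, ∑ η : AddChar B ℂ, H (i + i) η t ^ 2 = ((Q : ℤ) * D) ^ 2 := by
    intro t
    have h3 := hat_parseval hx hn h2 (1, t) (hvt t)
    simp_rw [hH1] at h3
    rw [hcard, ← hQdef] at h3
    exact_mod_cast h3
  set κ := (Finset.univ.filter fun i : B => i + i = 0).card with hκ
  have hκD : κ ≤ D := by
    rw [hD, ← Finset.card_univ]
    exact Finset.card_filter_le _ _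
  have htot : (Q : ℤ) * (Q * D) ^ 2 ≤ D * (D * (4 * Q ^ 2)) + κ * (M - 4 * Q ^ 2) := by
    calc (Q : ℤ) * (Q * D) ^ 2 = ∑ t : ZMod (q ^ e), ∑ i : B, ∑ η : AddChar B ℂ,
          H (i + i) η t ^ 2 := by
          rw [Finset.sum_congr rfl fun t _ => hP t]
          simp only [Finset.sum_const, Finset.card_univ, ZMod.card, nsmul_eq_mul]
          rw [hQdef]
      _ = ∑ i : B, ∑ η : AddChar B ℂ, ∑ t : ZMod (q ^ e), H (i + i) η t ^ 2 := by
          rw [Finset.sum_comm]
          refine Finset.sum_congr rfl fun i _ => ?_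
          rw [Finset.sum_comm]
      _ ≤ ∑ i : B, ∑ η : AddChar B ℂ, (if i + i = 0 ∧ η = 0 then M else 4 * (Q : ℤ) ^ 2) :=
          Finset.sum_le_sum fun i _ => Finset.sum_le_sum fun η _ => hH2 _ _
      _ = ∑ i : B, ((D : ℤ) * (4 * Q ^ 2) + if i + i = 0 then M - 4 * (Q : ℤ) ^ 2 else 0) := by
          refine Finset.sum_congr rfl fun i _ => ?_
          have e1 : ∀ η : AddChar B ℂ, (if i + i = 0 ∧ η = 0 then M else 4 * (Q : ℤ) ^ 2) =
              4 * (Q : ℤ) ^ 2 + if η = 0 then
                (if i + i = 0 then M - 4 * (Q : ℤ) ^ 2 else 0) else 0 := by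
            intro η
            by_cases h3 : i + i = 0 <;> by_cases h4 : η = 0 <;> simp [h3, h4]
          rw [Finset.sum_congr rfl fun η _ => e1 η, Finset.sum_add_distrib, Finset.sum_ite_eq',
            if_pos (Finset.mem_univ _), Finset.sum_const, Finset.card_univ, AddChar.card_eq,
            nsmul_eq_mul]
      _ = _ := by
          rw [Finset.sum_add_distrib, ← Finset.sum_filter, Finset.sum_const, Finset.sum_const,
            Finset.card_univ, nsmul_eq_mul, nsmul_eq_mul]
  exact power_num Q D n ν s κ (by rw [hQdef]; exact_mod_cast hQ) hs hnν (by exact_mod_cast hn2)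
    hnZ (by positivity) (by exact_mod_cast hκD) htot

end Pool.Agent.U338.SIC
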