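import Mathlib
import Pool.Agent.U338.SIC.Eight
import Pool.Agent.U338.SIC.PowerMain

/-!
# Transport of fiducials and splitting off cyclic Sylow subgroups
-/

set_option autoImplicit false
set_option linter.unusedSectionVars false

open Finset ComplexConjugate

namespace Pool.Agent.U338.SIC

open Pool.Agent.N392.Ab

section transport

variable {A A' : Type*} [AddCommGroup A] [Fintype A] [AddCommGroup A'] [Fintype A']

theorem ov_transport (x : A → ℂ) (e : A ≃+ A') (a : A') (χ : AddChar A' ℂ) :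
    ov (fun k => x (e.symm k)) a χ =
      ov x (e.symm a) (χ.compAddMonoidHom (e : A →+ A')) := by
  unfold ov
  rw [← Equiv.sum_comp e.toEquiv]
  refine Finset.sum_congr rfl fun k _ => ?_
  simp

theorem Par.transport {x : A → ℂ} {ε : ℂ} (h : Par x ε) (e : A ≃+ A') :
    Par (fun k => x (e.symm k)) ε := by
  have hcard : Fintype.card A' = Fintype.card A := (Fintype.card_congr e.toEquiv).symm
  refine ⟨?_, ?_, ?_, h.eps⟩
  · rw [ov_transport, map_zero]
    have : (0 : AddChar A' ℂ).compAddMonoidHom (e : A →+ A') = 0 := by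
      ext k; simp
    rw [this, h.nrm]
  · intro a χ hv
    rw [ov_transport, hcard]
    apply h.mod
    rcases hv with h1 | h1
    · left
      intro h2
      apply h1
      have := congrArg e h2
      simpa using this
    · right
      intro h2
      apply h1
      ext k
      have := DFunLike.congr_fun h2 (e.symm k)
      simpa using this
  · intro k
    rw [map_neg]
    exact h.par _

end transport

section splitting

variable {A : Type*} [AddCommGroup A] [Fintype A]

/-- generator of the elements of `q`-power order -/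
theorem exists_gen (q : ℕ) [Fact q.Prime]
    (hA : ∀ P : Sylow q (Multiplicative A), IsCyclic P) :
    ∃ g : A, (∃ k : ℕ, (q ^ k) • g = 0) ∧
      ∀ a : A, (∃ k : ℕ, (q ^ k) • a = 0) → a ∈ AddSubgroup.zmultiples g := by
  classical
  obtain ⟨P⟩ : Nonempty (Sylow q (Multiplicative A)) := inferInstance
  have hP := hA P
  obtain ⟨g, hg⟩ := hP.exists_generator
  have hgP : IsPGroup q P := P.isPGroup'
  refine ⟨Multiplicative.toAdd (g : Multiplicative A), ?_, ?_⟩
  · obtain ⟨k, hk⟩ := hgP g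
    refine ⟨k, ?_⟩
    have := congrArg (fun t : P => Multiplicative.toAdd (t : Multiplicative A)) hk
    simpa using this
  · rintro a ⟨k, hk⟩
    have hpa : IsPGroup q (Subgroup.zpowers (Multiplicative.ofAdd a)) := by
      rintro ⟨b, hb⟩
      obtain ⟨j, rfl⟩ := hb
      refine ⟨k, ?_⟩
      ext
      simp only [Subgroup.coe_pow, Subgroup.coe_one]
      have : (Multiplicative.ofAdd a) ^ (q ^ k) = 1 := by
        rw [← ofAdd_nsmul, hk]; rfl
      rw [← zpow_natCast, zpow_comm, zpow_natCast, this, one_zpow]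
    obtain ⟨P', hP'⟩ := hpa.exists_le_sylow
    have hnorm : (P : Subgroup (Multiplicative A)).Normal := inferInstance
    have hPP : P' = P := by
      have := Sylow.unique_of_normal P hnorm
      exact Subsingleton.elim _ _
    rw [hPP] at hP'
    have ha : Multiplicative.ofAdd a ∈ (P : Subgroup (Multiplicative A)) :=
      hP' (Subgroup.mem_zpowers _)
    obtain ⟨j, hj⟩ := hg ⟨_, ha⟩
    refine ⟨j, ?_⟩
    have := congrArg (fun t : P => Multiplicative.toAdd (t : Multiplicative A)) hj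
    simpa using this

/-- a cyclic Sylow subgroup splits off -/
theorem split (q : ℕ) [hqf : Fact q.Prime]
    (hA : ∀ P : Sylow q (Multiplicative A), IsCyclic P) (hdvd : q ∣ Fintype.card A) :
    ∃ (e : ℕ) (B : AddSubgroup A), 1 ≤ e ∧ Nat.Coprime (q ^ e) (Nat.card B) ∧
      Nonempty (A ≃+ ZMod (q ^ e) × B) := by
  classical
  have hq : q.Prime := hqf.out
  obtain ⟨g, ⟨k, hk⟩, hg⟩ := exists_gen q hA
  obtain ⟨e, -, he⟩ := (Nat.dvd_prime_pow hq).1 (addOrderOf_dvd_of_nsmul_eq_zero hk)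
  have hcard0 : Fintype.card A ≠ 0 := Fintype.card_ne_zero
  obtain ⟨c, D, hD, hcD⟩ := Nat.exists_eq_pow_mul_and_not_dvd hcard0 q hq.ne_one
  have hcop : Nat.Coprime (q ^ c) D := Nat.Coprime.pow_left _ ((Nat.Prime.coprime_iff_not_dvd hq).2 hD)
  have hcop' : Nat.Coprime (q ^ e) D := Nat.Coprime.pow_left _ ((Nat.Prime.coprime_iff_not_dvd hq).2 hD)
  set B : AddSubgroup A := (nsmulAddMonoidHom (α := A) D).ker with hB
  have hBmem : ∀ b : A, b ∈ B ↔ D • b = 0 := fun b => by
    rw [hB, AddMonoidHom.mem_ker]; rfl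
  have he1 : 1 ≤ e := by
    by_contra h
    have h0 : e = 0 := by omega
    rw [h0, pow_zero, AddMonoid.addOrderOf_eq_one_iff] at he
    have hd' : q ∣ Nat.card A := by rwa [Nat.card_eq_fintype_card]
    obtain ⟨a, ha⟩ := exists_prime_addOrderOf_dvd_card' q hd'
    have h1 : a ∈ AddSubgroup.zmultiples g := hg a ⟨1, by
      rw [pow_one, ← ha]; exact addOrderOf_nsmul_eq_zero a⟩
    rw [he, AddSubgroup.zmultiples_zero_eq_bot, AddSubgroup.mem_bot] at h1
    rw [h1, addOrderOf_zero] at ha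
    exact hq.ne_one ha.symm
  have hBq : Nat.Coprime (q ^ e) (Nat.card B) := by
    apply Nat.Coprime.pow_left
    rw [Nat.Prime.coprime_iff_not_dvd hq]
    intro h
    obtain ⟨b, hb⟩ := exists_prime_addOrderOf_dvd_card' q h
    apply hD
    rw [← hb]
    apply addOrderOf_dvd_of_nsmul_eq_zero
    ext
    exact (hBmem b).1 b.2
  refine ⟨e, B, he1, hBq, ?_⟩
  have hqe : (q ^ e) • g = 0 := by rw [← he]; exact addOrderOf_nsmul_eq_zero g
  set φ : ZMod (q ^ e) →+ A := ZMod.lift (q ^ e) ⟨zmultiplesHom A g, by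
    simp only [zmultiplesHom_apply, natCast_zsmul]
    exact hqe⟩ with hφ
  have hφz : ∀ m : ℤ, φ (m : ZMod (q ^ e)) = m • g := by
    intro m
    rw [hφ, ZMod.lift_coe]
    rfl
  set Φ : ZMod (q ^ e) × B →+ A := AddMonoidHom.coprod φ B.subtype with hΦ
  have hΦa : ∀ p, Φ p = φ p.1 + (p.2 : A) := fun p => rfl
  refine ⟨(AddEquiv.ofBijective Φ ⟨?_, ?_⟩).symm⟩
  · rw [injective_iff_map_eq_zero]
    rintro ⟨t, b⟩ h
    rw [hΦa] at h
    simp only at h
    obtain ⟨m, rfl⟩ := ZMod.intCast_surjective t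
    rw [hφz] at h
    have h1 : D • (m • g) = 0 := by
      have h2 := congrArg (fun z => D • z) h
      simp only [smul_add, smul_zero] at h2
      rw [(hBmem b).1 b.2, add_zero] at h2
      exact h2
    have h2 : ((D : ℤ) * m) • g = 0 := by
      rw [mul_smul, natCast_zsmul]; exact h1
    have h3 : ((q ^ e : ℕ) : ℤ) ∣ (D : ℤ) * m := by
      rw [← he]
      exact addOrderOf_dvd_iff_zsmul_eq_zero.2 h2
    have h4 : ((q ^ e : ℕ) : ℤ) ∣ m :=
      (Nat.isCoprime_iff_coprime.2 hcop').dvd_of_dvd_mul_left h3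
    have h5 : (m : ZMod (q ^ e)) = 0 := (ZMod.intCast_zmod_eq_zero_iff_dvd m (q ^ e)).2 h4
    have h6 : m • g = 0 := by rw [← hφz, h5, map_zero]
    rw [h6, zero_add] at h
    rw [Prod.mk_eq_zero]
    exact ⟨h5, Subtype.ext h⟩
  · intro a
    obtain ⟨u, v, huv⟩ := Nat.isCoprime_iff_coprime.2 hcop
    have h1 : D • a ∈ AddSubgroup.zmultiples g := hg _ ⟨c, by
      rw [← mul_nsmul, mul_comm, ← hcD]
      exact card_nsmul_eq_zero⟩
    obtain ⟨j, hj⟩ := h1
    simp only at hj
    refine ⟨(((v * j : ℤ) : ZMod (q ^ e)), ⟨(u * (q ^ c : ℕ) : ℤ) • a, ?_⟩), ?_⟩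
    · rw [hBmem, ← natCast_zsmul, ← mul_smul]
      have e1 : (D : ℤ) * (u * ((q ^ c : ℕ) : ℤ)) = u * ((q ^ c * D : ℕ) : ℤ) := by
        push_cast; ring
      rw [e1, ← hcD, mul_smul, natCast_zsmul, card_nsmul_eq_zero, smul_zero]
    · rw [hΦa]
      simp only
      rw [hφz, mul_smul, hj, ← natCast_zsmul, ← mul_smul, ← add_smul]
      have e1 : v * (D : ℤ) + u * ((q ^ c : ℕ) : ℤ) = 1 := by
        linear_combination huv
      rw [e1, one_smul]

end splitting

/-- **An odd prime with cyclic Sylow subgroup.** -/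
theorem odd_cyclic {A : Type*} [AddCommGroup A] [Fintype A] {x : A → ℂ} {ε : ℂ} (hx : Par x ε)
    (hd : 3 ≤ Fintype.card A) (q : ℕ) (hq : q.Prime) (hq2 : q ≠ 2)
    (hdvd : q ∣ Fintype.card A) (hA : ∀ P : Sylow q (Multiplicative A), IsCyclic P) :
    Fintype.card A = 3 := by
  classical
  have : Fact q.Prime := ⟨hq⟩
  obtain ⟨e, B, he, hco, ⟨E⟩⟩ := split q hA hdvd
  have : NeZero (q ^ e) := ⟨pow_ne_zero _ hq.ne_zero⟩
  have : Fintype B := Fintype.ofFinite B
  rw [Nat.card_eq_fintype_card] at hco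
  have hx' := hx.transport E
  have hcard : Fintype.card (ZMod (q ^ e) × B) = Fintype.card A :=
    (Fintype.card_congr E.toEquiv).symm
  obtain ⟨n, hn⟩ := hx.square hd
  have hn' : n ^ 2 = Fintype.card (ZMod (q ^ e) × B) + 1 := by rw [hcard, hn, sq]
  by_cases he1 : e = 1
  · subst he1
    rw [← hcard]
    have hgen : ∀ (r : ℕ) (hr : r = q) [NeZero r] (x : ZMod r × B → ℂ) (_ : Par x ε)
        (_ : n ^ 2 = Fintype.card (ZMod r × B) + 1) (_ : Nat.Coprime r (Fintype.card B)),
        Fintype.card (ZMod r × B) = 3 := by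
      intro r hr _ x h1 h2 h3
      subst hr
      exact prime_case hq2 h1 h2 h3
    exact hgen (q ^ 1) (pow_one q) _ hx' hn' hco
  · exfalso
    have hQ : 7 ≤ q ^ e := by
      have hq3 : 3 ≤ q := by
        have := hq.two_le
        omega
      calc 7 ≤ 3 ^ 2 := by norm_num
        _ ≤ q ^ 2 := Nat.pow_le_pow_left hq3 2
        _ ≤ q ^ e := Nat.pow_le_pow_right hq.pos (by omega)
    exact power_case hq he hq2 hQ hx' hn' hco

end Pool.Agent.U338.SIC
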