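import Mathlib
import Pool.Agent.U338.SIC.Transport

/-!
# Assembly of the nonexistence part
-/

set_option autoImplicit false
set_option linter.unusedSectionVars false

open Finset ComplexConjugate

namespace Pool.Agent.U338.SIC

open Pool.Agent.N392.Ab

theorem pow_two_square (k : ℕ) (h3 : 3 ≤ 2 ^ k) (hsq : IsSquare (2 ^ k + 1)) : 2 ^ k = 8 := by
  obtain ⟨n, hn⟩ := hsq
  have hn2 : 2 ≤ n := by
    by_contra h
    have : n ≤ 1 := by omega
    have : n * n ≤ 1 * 1 := Nat.mul_le_mul this this
    omega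
  obtain ⟨m, rfl⟩ : ∃ m, n = m + 1 := ⟨n - 1, by omega⟩
  have h1 : 2 ^ k = m * (m + 2) := by
    have : (m + 1) * (m + 1) = m * (m + 2) + 1 := by ring
    omega
  have hm : m ∣ 2 ^ k := ⟨m + 2, h1⟩
  have hm2 : m + 2 ∣ 2 ^ k := ⟨m, by rw [h1]; ring⟩
  obtain ⟨a, -, ha⟩ := (Nat.dvd_prime_pow Nat.prime_two).1 hm
  obtain ⟨b, -, hb⟩ := (Nat.dvd_prime_pow Nat.prime_two).1 hm2
  have h4 : m = 2 := by
    rcases Nat.lt_or_ge a 1 with h | h
    · have : a = 0 := by omega
      rw [this, pow_zero] at ha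
      rw [ha] at hb
      rcases Nat.lt_or_ge b 2 with h5 | h5
      · interval_cases b <;> omega
      · have : 4 ∣ 2 ^ b := by
          have := pow_dvd_pow 2 h5
          simpa using this
        omega
    · rcases Nat.lt_or_ge a 2 with h5 | h5
      · have : a = 1 := by omega
        rw [this, pow_one] at ha
        exact ha
      · exfalso
        have h6 : 4 ∣ 2 ^ a := by
          have := pow_dvd_pow 2 h5
          simpa using this
        rcases Nat.lt_or_ge b 2 with h7 | h7
        · interval_cases b <;> omega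
        · have h8 : 4 ∣ 2 ^ b := by
            have := pow_dvd_pow 2 h7
            simpa using this
          omega
  rw [h1, h4]

variable {A : Type*} [AddCommGroup A] [Fintype A] {x : A → ℂ} {ε : ℂ}

theorem equiv_three (h : Fintype.card A = 3) : Nonempty (A ≃+ ZMod 3) := by
  have h1 : Nat.card A = 3 := by rw [Nat.card_eq_fintype_card, h]
  have : Fact (Nat.Prime 3) := ⟨Nat.prime_three⟩
  have hc : IsAddCyclic A := isAddCyclic_of_prime_card h1
  have e := zmodAddCyclicAddEquiv hc
  rw [h1] at e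
  exact ⟨e.symm⟩

theorem equiv_eight (h : Fintype.card A = 8) (h2 : ∀ c : A, c + c = 0) :
    Nonempty (A ≃+ (Fin 3 → ZMod 2)) := by
  have : Fact (Nat.Prime 2) := ⟨Nat.prime_two⟩
  let _ : Module (ZMod 2) A := AddCommGroup.zmodModule (n := 2) fun c => by
    rw [two_nsmul]; exact h2 c
  have hfin : Module.Finite (ZMod 2) A := Module.Finite.of_finite
  have hr : Module.finrank (ZMod 2) A = 3 := by
    have h3 := Module.card_eq_pow_finrank (K := ZMod 2) (V := A)
    rw [h, ZMod.card] at h3
    have : (2 : ℕ) ^ 3 = 2 ^ Module.finrank (ZMod 2) A := by rw [← h3]; norm_num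
    exact (Nat.pow_right_injective (le_refl 2) this).symm
  have hr2 : Module.finrank (ZMod 2) (Fin 3 → ZMod 2) = 3 := by simp
  exact ⟨(LinearEquiv.ofFinrankEq A (Fin 3 → ZMod 2) (by rw [hr, hr2])).toAddEquiv⟩

/-- the nonexistence part -/
theorem par_main (hx : Par x ε) (hd : 3 ≤ Fintype.card A)
    (hA : ∀ (q : ℕ), q.Prime → q ≠ 2 → ∀ P : Sylow q (Multiplicative A), IsCyclic P) :
    Nonempty (A ≃+ ZMod 3) ∨ Nonempty (A ≃+ (Fin 3 → ZMod 2)) := by
  classical
  by_cases hodd : ∃ q : ℕ, q.Prime ∧ q ≠ 2 ∧ q ∣ Fintype.card A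
  · obtain ⟨q, hq, hq2, hdvd⟩ := hodd
    exact Or.inl (equiv_three (odd_cyclic hx hd q hq hq2 hdvd (hA q hq hq2)))
  · right
    push Not at hodd
    have hcard0 : Fintype.card A ≠ 0 := Fintype.card_ne_zero
    have hpow := Nat.eq_prime_pow_of_unique_prime_dvd (p := 2) hcard0 (by
      intro q hq hqd
      by_contra hne
      exact hodd q hq hne hqd)
    have h8 : Fintype.card A = 8 := by
      rw [hpow]
      apply pow_two_square
      · rw [← hpow]; exact hd
      · rw [← hpow]; exact hx.square hd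
    apply equiv_eight h8
    intro c
    by_contra hc
    have h8c : (8 : ℕ) • c = 0 := by rw [← h8]; exact card_nsmul_eq_zero
    by_cases h4 : c + c + (c + c) = 0
    · exact eight_case hx h8 c hc h4
    · refine eight_case hx h8 (c + c) h4 ?_
      have : c + c + (c + c) + (c + c + (c + c)) = (8 : ℕ) • c := by
        rw [show (8 : ℕ) = 1 + 1 + 1 + 1 + 1 + 1 + 1 + 1 from rfl]
        simp only [add_nsmul, one_nsmul]
        abel
      rw [this, h8c]

end Pool.Agent.U338.SIC
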