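import Mathlib
import Pool.Agent.U338.SIC.Square
import Pool.Agent.U338.SIC.Galois

/-!
# Galois symmetries of parity-symmetric fiducials

A parity-symmetric fiducial is an eigenvector of `x ↦ x(u ·)` for every odd `u` with `u ^ 2 = 1`
modulo the exponent.
-/

set_option autoImplicit false
set_option linter.unusedSectionVars false

open Finset ComplexConjugate

namespace Pool.Agent.U338.SIC

open Pool.Agent.N392.Ab

variable {A : Type*} [AddCommGroup A] [Fintype A]

theorem char_pow_card' (η : AddChar A ℂ) (b : A) : η b ^ Fintype.card A = 1 := by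
  rw [← AddChar.map_nsmul_eq_pow, card_nsmul_eq_zero, AddChar.map_zero_eq_one]

/-- two vectors with the same overlaps are proportional -/
theorem prop_of_ov (x y : A → ℂ) (hx : ov x 0 0 = 1) (h : ∀ a χ, ov x a χ = ov y a χ) :
    ∃ lam : ℂ, ∀ k, y k = lam * x k := by
  classical
  have h1 : ∀ l w : A, conj (x l) * x (l + w) = conj (y l) * y (l + w) := by
    intro l w
    have h2 := ov_inv x w l
    have h3 := ov_inv y w l
    simp_rw [h] at h2
    rw [h3] at h2
    exact (mul_left_cancel₀ card_ne h2).symm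
  obtain ⟨l, hl⟩ : ∃ l, x l ≠ 0 := by
    by_contra h2
    push Not at h2
    have : ov x 0 0 = 0 := by
      unfold ov
      exact Finset.sum_eq_zero fun k _ => by rw [h2 k]; simp
    rw [this] at hx
    exact zero_ne_one hx
  have h2 : conj (x l) ≠ 0 := by simpa using hl
  have h3 : conj (x l) * x l = conj (y l) * y l := by
    have := h1 l 0
    rwa [add_zero] at this
  have h4 : conj (y l) ≠ 0 := by
    intro h5
    rw [h5, zero_mul] at h3
    exact (mul_ne_zero h2 hl) h3
  refine ⟨conj (x l) / conj (y l), fun k => ?_⟩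
  have h5 := h1 l (k - l)
  rw [add_sub_cancel] at h5
  field_simp
  linear_combination -h5

variable {x : A → ℂ} {ε : ℂ} {n : ℕ}

/-- normalised overlaps -/
noncomputable def GG (n : ℕ) (x : A → ℂ) (a : A) (χ : AddChar A ℂ) : ℂ := n * ov x a χ

theorem GG_sq (hx : Par x ε) (hn : n ^ 2 = Fintype.card A + 1) (a : A) (χ : AddChar A ℂ)
    (hv : a ≠ 0 ∨ χ ≠ 0) : GG n x a χ ^ 2 = χ (-a) := by
  have h1 := hx.sq a χ hv
  have h2 : (Fintype.card A : ℂ) + 1 = (n : ℂ) ^ 2 := by exact_mod_cast hn.symm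
  have hn0 : (n : ℂ) ^ 2 ≠ 0 := by rw [← h2]; exact card1_ne
  rw [h2, eq_div_iff hn0] at h1
  unfold GG
  have h3 := char_mul_neg χ a
  linear_combination (χ (-a)) * h1 - ((n : ℂ) ^ 2 * ov x a χ ^ 2) * h3

theorem GG_form (hx : Par x ε) (hn : n ^ 2 = Fintype.card A + 1) (w : ℕ) (a : A)
    (χ : AddChar A ℂ) :
    ∃ (m : ℤ) (f : ℂ), GG n x a χ = m * f ∧ f ^ (2 * Fintype.card A) = 1 ∧
      m * f ^ (2 * w + 1) = GG n x a χ * χ (-(w • a)) := by
  by_cases hv : a ≠ 0 ∨ χ ≠ 0
  · have h1 := GG_sq hx hn a χ hv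
    refine ⟨1, GG n x a χ, by simp, ?_, ?_⟩
    · rw [pow_mul, h1, char_pow_card']
    · rw [pow_succ, pow_mul, h1, ← AddChar.map_nsmul_eq_pow, smul_neg]
      push_cast
      ring
  · push Not at hv
    obtain ⟨h3, h4⟩ := hv
    refine ⟨n, 1, ?_, one_pow _, ?_⟩
    · rw [h3, h4]
      unfold GG
      rw [hx.nrm]; simp
    · rw [h3, h4]
      unfold GG
      rw [hx.nrm]; simp

/-- **Galois invariance** -/
theorem GG_gal (hx : Par x ε) (hn : n ^ 2 = Fintype.card A + 1) (w : ℕ)
    (hco : Nat.Coprime (2 * w + 1) (Fintype.card A)) (hw : ∀ a : A, (w * (w + 1)) • a = 0)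
    (a : A) (χ : AddChar A ℂ) :
    GG n x ((2 * w + 1) • a) ((2 * w + 1) • χ) = GG n x a χ := by
  classical
  choose m f hm hf hu using fun (b : A) (η : AddChar A ℂ) => GG_form hx hn w b η
  obtain ⟨e, he⟩ : ∃ e : ℤ, ε = e := by
    rcases hx.eps with h3 | h3
    · exact ⟨1, by rw [h3]; simp⟩
    · exact ⟨-1, by rw [h3]; simp⟩
  have hsd : ∀ (a : A) (χ : AddChar A ℂ), (Fintype.card A : ℂ) * GG n x a χ =
      ε * ∑ k : A, ∑ η : AddChar A ℂ, (η - χ) k * GG n x (k + k - a) η := by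
    intro a χ
    unfold GG
    have := hx.sd a χ
    have h1 : ∑ k : A, ∑ η : AddChar A ℂ, (η - χ) k * (n * ov x (k + k - a) η) =
        n * ∑ k : A, ∑ η : AddChar A ℂ, (η - χ) k * ov x (k + k - a) η := by
      simp_rw [Finset.mul_sum]
      refine Finset.sum_congr rfl fun k _ => Finset.sum_congr rfl fun η _ => ?_
      ring
    rw [h1]
    linear_combination (n : ℂ) * this
  have hcardpos : 0 < Fintype.card A := Fintype.card_pos
  have hN : 0 < 2 * Fintype.card A := by omega
  have hodd : Nat.Coprime (2 * w + 1) 2 := by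
    rw [Nat.coprime_two_right]
    exact ⟨w, rfl⟩
  have hrel : ∑ i : A × AddChar A ℂ, ((e * m (i.1 + i.1 - a) i.2 : ℤ) : ℂ) *
      ((i.2 - χ) i.1 * f (i.1 + i.1 - a) i.2) =
      ((Fintype.card A : ℤ) * m a χ : ℤ) * f a χ := by
    have h1 := hsd a χ
    rw [hm a χ] at h1
    rw [Fintype.sum_prod_type]
    push_cast
    rw [mul_assoc, h1, he, Finset.mul_sum]
    refine Finset.sum_congr rfl fun k _ => ?_
    rw [Finset.mul_sum]
    refine Finset.sum_congr rfl fun η _ => ?_
    rw [hm]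
    ring
  have h3 := gal (2 * Fintype.card A) (2 * w + 1) hN (Nat.Coprime.mul_right hodd hco)
    (Finset.univ : Finset (A × AddChar A ℂ))
    (fun i => e * m (i.1 + i.1 - a) i.2)
    (fun i => (i.2 - χ) i.1 * f (i.1 + i.1 - a) i.2)
    (by
      intro i _
      rw [mul_pow, hf, mul_comm 2, pow_mul, char_pow_card', one_pow, one_mul])
    ((Fintype.card A : ℤ) * m a χ) (f a χ) (hf _ _) hrel
  have h4 : ((Fintype.card A : ℤ) * m a χ : ℤ) * f a χ ^ (2 * w + 1) =
      (Fintype.card A : ℂ) * (GG n x a χ * χ (-(w • a))) := by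
    rw [← hu]
    push_cast
    ring
  rw [h4] at h3
  have h5 := hsd ((2 * w + 1) • a) ((2 * w + 1) • χ)
  have h6 : ∑ k : A, ∑ η : AddChar A ℂ, (η - (2 * w + 1) • χ) k *
      GG n x (k + k - (2 * w + 1) • a) η =
      χ (-(((2 * w + 1) * w) • a)) * ∑ i : A × AddChar A ℂ,
        ((m (i.1 + i.1 - a) i.2 : ℤ) : ℂ) *
          ((i.2 - χ) i.1 * f (i.1 + i.1 - a) i.2) ^ (2 * w + 1) := by
    rw [← Equiv.sum_comp (Equiv.addRight (w • a)), Fintype.sum_prod_type, Finset.mul_sum]
    refine Finset.sum_congr rfl fun k _ => ?_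
    rw [Finset.mul_sum]
    refine Finset.sum_congr rfl fun η _ => ?_
    simp only [Equiv.coe_addRight]
    have e1 : k + w • a + (k + w • a) - (2 * w + 1) • a = k + k - a := by
      rw [add_smul, one_smul, mul_smul, two_smul]
      abel
    rw [e1, mul_pow]
    have e2 := hu (k + k - a) η
    have e3 : ((η - χ) k) ^ (2 * w + 1) * η (-(w • (k + k - a))) =
        η (k + w • a) * χ (-((2 * w + 1) • k)) := by
      rw [AddChar.sub_apply, mul_pow, ← AddChar.map_nsmul_eq_pow, ← AddChar.map_nsmul_eq_pow,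
        smul_neg, mul_right_comm, ← AddChar.map_add_eq_mul]
      congr 2
      rw [smul_sub, smul_add, add_smul, one_smul, mul_smul, two_smul]
      abel
    have e4 : (η - (2 * w + 1) • χ) (k + w • a) = η (k + w • a) *
        (χ (-((2 * w + 1) • k)) * χ (-(((2 * w + 1) * w) • a))) := by
      rw [AddChar.sub_apply, ← AddChar.map_add_eq_mul]
      congr 1
      rw [AddChar.nsmul_apply, ← AddChar.map_nsmul_eq_pow]
      congr 1
      rw [smul_neg, smul_add, neg_add, mul_smul]
    rw [e4]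
    calc η (k + w • a) * (χ (-((2 * w + 1) • k)) * χ (-(((2 * w + 1) * w) • a))) *
          GG n x (k + k - a) η
        = χ (-(((2 * w + 1) * w) • a)) * ((η (k + w • a) * χ (-((2 * w + 1) • k))) *
          GG n x (k + k - a) η) := by ring
      _ = χ (-(((2 * w + 1) * w) • a)) * ((((η - χ) k) ^ (2 * w + 1) *
          η (-(w • (k + k - a)))) * GG n x (k + k - a) η) := by rw [e3]
      _ = χ (-(((2 * w + 1) * w) • a)) * (((η - χ) k) ^ (2 * w + 1) *
          (GG n x (k + k - a) η * η (-(w • (k + k - a))))) := by ring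
      _ = _ := by rw [← e2]; ring
  rw [h6] at h5
  have h7 : ∑ i : A × AddChar A ℂ, ((e * m (i.1 + i.1 - a) i.2 : ℤ) : ℂ) *
      ((i.2 - χ) i.1 * f (i.1 + i.1 - a) i.2) ^ (2 * w + 1) =
      ε * ∑ i : A × AddChar A ℂ, ((m (i.1 + i.1 - a) i.2 : ℤ) : ℂ) *
        ((i.2 - χ) i.1 * f (i.1 + i.1 - a) i.2) ^ (2 * w + 1) := by
    rw [Finset.mul_sum]
    refine Finset.sum_congr rfl fun i _ => ?_
    rw [he]
    push_cast
    ring
  rw [h7] at h3
  have h8 : χ (-(((2 * w + 1) * w) • a)) * χ (-(w • a)) = 1 := by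
    rw [← AddChar.map_add_eq_mul]
    have : -(((2 * w + 1) * w) • a) + -(w • a) = 0 := by
      rw [← neg_add, ← add_smul]
      have e1 : (2 * w + 1) * w + w = 2 * (w * (w + 1)) := by ring
      rw [e1, mul_smul, hw, smul_zero, neg_zero]
    rw [this, AddChar.map_zero_eq_one]
  apply mul_left_cancel₀ (card_ne (A := A))
  calc (Fintype.card A : ℂ) * GG n x ((2 * w + 1) • a) ((2 * w + 1) • χ)
      = χ (-(((2 * w + 1) * w) • a)) * (ε * ∑ i : A × AddChar A ℂ,
        ((m (i.1 + i.1 - a) i.2 : ℤ) : ℂ) *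
          ((i.2 - χ) i.1 * f (i.1 + i.1 - a) i.2) ^ (2 * w + 1)) := by rw [h5]; ring
    _ = χ (-(((2 * w + 1) * w) • a)) * ((Fintype.card A : ℂ) *
        (GG n x a χ * χ (-(w • a)))) := by rw [h3]
    _ = (χ (-(((2 * w + 1) * w) • a)) * χ (-(w • a))) *
        ((Fintype.card A : ℂ) * GG n x a χ) := by ring
    _ = (Fintype.card A : ℂ) * GG n x a χ := by rw [h8, one_mul]

/-- **The symmetry attached to an odd square root of one.** -/
theorem sym_unit (hx : Par x ε) (hn : n ^ 2 = Fintype.card A + 1) (w : ℕ)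
    (hco : Nat.Coprime (2 * w + 1) (Fintype.card A)) (hw : ∀ a : A, (w * (w + 1)) • a = 0) :
    ∃ lam : ℂ, (lam = 1 ∨ lam = -1) ∧ ∀ k, x ((2 * w + 1) • k) = lam * x k := by
  classical
  have huu : ∀ k : A, (2 * w + 1) • (2 * w + 1) • k = k := by
    intro k
    rw [← mul_smul]
    have e1 : (2 * w + 1) * (2 * w + 1) = 4 * (w * (w + 1)) + 1 := by ring
    rw [e1, add_smul, one_smul, mul_smul, hw, smul_zero, zero_add]
  have hn0 : (n : ℂ) ≠ 0 := by
    intro h0
    have : n = 0 := by exact_mod_cast h0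
    rw [this] at hn
    omega
  set E : A ≃ A := ⟨fun k => (2 * w + 1) • k, fun k => (2 * w + 1) • k, huu, huu⟩ with hE
  have h1 : ∀ a χ, ov x a χ = ov (fun k => x ((2 * w + 1) • k)) a χ := by
    intro a χ
    have h2 := GG_gal hx hn w hco hw a χ
    unfold GG at h2
    rw [← mul_left_cancel₀ hn0 h2]
    unfold ov
    rw [← Equiv.sum_comp E]
    refine Finset.sum_congr rfl fun k _ => ?_
    simp only [hE, Equiv.coe_fn_mk]
    rw [AddChar.nsmul_apply, ← AddChar.map_nsmul_eq_pow, huu, smul_add]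
  obtain ⟨lam, hlam⟩ := prop_of_ov x _ hx.nrm h1
  refine ⟨lam, ?_, hlam⟩
  obtain ⟨l, hl⟩ : ∃ l, x l ≠ 0 := by
    by_contra h2
    push Not at h2
    have : ov x 0 0 = 0 := by
      unfold ov
      exact Finset.sum_eq_zero fun k _ => by rw [h2 k]; simp
    rw [hx.nrm] at this
    exact one_ne_zero this
  have h3 := hlam ((2 * w + 1) • l)
  simp only [huu] at h3
  rw [hlam l] at h3
  have h4 : (lam * lam - 1) * x l = 0 := by linear_combination -h3
  exact mul_self_eq_one_iff.1 (by linear_combination (mul_eq_zero.1 h4).resolve_right hl)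

end Pool.Agent.U338.SIC
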