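import Mathlib
import Pool.Agent.U338.SIC.Square
import Pool.Agent.U338.SIC.Galois

/-!
# Fiducials over `A × B` which are symmetric under the parity of the factor `A`
-/

set_option autoImplicit false
set_option linter.unusedSectionVars false

open Finset ComplexConjugate

namespace Pool.Agent.U338.SIC

open Pool.Agent.N392.Ab

section cross

variable {B : Type*} [AddCommGroup B] [Fintype B]

/-- cross overlaps -/
noncomputable def cov (y z : B → ℂ) (b : B) (θ : AddChar B ℂ) : ℂ :=
  ∑ l, conj (y l) * z (l + b) * θ l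

theorem cov_inv (y z : B → ℂ) (w l : B) :
    ∑ η : AddChar B ℂ, η (-l) * cov y z w η = Fintype.card B * (conj (y l) * z (l + w)) := by
  classical
  unfold cov
  simp_rw [Finset.mul_sum]
  rw [Finset.sum_comm]
  have h1 : ∀ k : B, ∑ η : AddChar B ℂ, η (-l) * (conj (y k) * z (k + w) * η k) =
      if k = l then (Fintype.card B : ℂ) * (conj (y l) * z (l + w)) else 0 := by
    intro k
    have h2 : ∀ η : AddChar B ℂ, η (-l) * (conj (y k) * z (k + w) * η k) =
        (conj (y k) * z (k + w)) * η (k - l) := by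
      intro η
      rw [sub_eq_add_neg, AddChar.map_add_eq_mul]
      ring
    simp_rw [h2]
    rw [← Finset.mul_sum, sum_char_apply]
    by_cases h3 : k = l
    · rw [h3, sub_self, if_pos rfl, if_pos rfl]; ring
    · rw [if_neg (sub_ne_zero.2 h3), if_neg h3, mul_zero]
  rw [Finset.sum_congr rfl fun k _ => h1 k, Finset.sum_ite_eq', if_pos (Finset.mem_univ _)]

/-- self-duality of cross overlaps -/
theorem cov_sd {y z : B → ℂ} {lam : ℂ} (hl : lam = 1 ∨ lam = -1)
    (hz : ∀ k, z (-k) = lam * z k) (a : B) (χ : AddChar B ℂ) :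
    (Fintype.card B : ℂ) * cov y z a χ =
      lam * ∑ k : B, ∑ η : AddChar B ℂ, (η - χ) k * cov y z (k + k - a) η := by
  have h1 : ∀ k : B, ∑ η : AddChar B ℂ, (η - χ) k * cov y z (k + k - a) η =
      χ (-k) * (Fintype.card B * (conj (y (-k)) * z (-k + (k + k - a)))) := by
    intro k
    rw [← cov_inv, Finset.mul_sum]
    refine Finset.sum_congr rfl fun η _ => ?_
    rw [neg_neg, AddChar.sub_apply]
    ring
  simp_rw [h1]
  rw [Finset.mul_sum, ← Equiv.sum_comp (Equiv.neg B)]
  unfold cov
  rw [Finset.mul_sum]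
  refine Finset.sum_congr rfl fun k _ => ?_
  simp only [Equiv.neg_apply, neg_neg]
  have e1 : z (k + (-k + -k - a)) = lam * z (k + a) := by rw [← hz]; congr 1; abel
  rw [e1]
  have := eps_sq hl
  linear_combination (-(χ k * Fintype.card B * conj (y k) * z (k + a))) * this

/-- self-duality centred at an even point -/
theorem cov_sd2 {y z : B → ℂ} {lam : ℂ} (hl : lam = 1 ∨ lam = -1)
    (hz : ∀ k, z (-k) = lam * z k) (c : B) :
    (Fintype.card B : ℂ) * cov y z (c + c) 0 =
      lam * ∑ k : B, ∑ η : AddChar B ℂ, η c * (η k * cov y z (k + k) η) := by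
  rw [cov_sd hl hz (c + c) 0, ← Equiv.sum_comp (Equiv.addRight c)]
  congr 1
  refine Finset.sum_congr rfl fun k _ => Finset.sum_congr rfl fun η _ => ?_
  simp only [Equiv.coe_addRight, sub_zero]
  have e1 : k + c + (k + c) - (c + c) = k + k := by abel
  rw [e1, AddChar.map_add_eq_mul]
  ring

theorem cov_conj {y : B → ℂ} {lam : ℂ} (hl : lam = 1 ∨ lam = -1) (hy : ∀ k, y (-k) = lam * y k)
    (a : B) (χ : AddChar B ℂ) : conj (cov y y a χ) = χ a * cov y y a χ := by
  unfold cov
  rw [map_sum, Finset.mul_sum, ← Equiv.sum_comp ((Equiv.neg B).trans (Equiv.subRight a))]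
  refine Finset.sum_congr rfl fun k _ => ?_
  simp only [Equiv.trans_apply, Equiv.neg_apply, Equiv.subRight_apply, map_mul,
    Complex.conj_conj]
  rw [conj_char]
  have e1 : y (-k - a) = lam * y (k + a) := by rw [← hy]; congr 1; abel
  have e2 : y (-k - a + a) = lam * y k := by rw [← hy]; congr 1; abel
  have e3 : χ (-(-k - a)) = χ a * χ k := by
    rw [← AddChar.map_add_eq_mul]; congr 1; abel
  rw [e1, e2, e3, map_mul (starRingEnd ℂ), eps_conj hl]
  have := eps_sq hl
  linear_combination (χ a * χ k * conj (y k) * y (k + a)) * this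

end cross

section part

variable {A B : Type*} [AddCommGroup A] [Fintype A] [AddCommGroup B] [Fintype B]

/-- the character of the product attached to a character of the first factor -/
noncomputable def c1 (η : AddChar A ℂ) : AddChar (A × B) ℂ :=
  η.compAddMonoidHom (AddMonoidHom.fst A B)

theorem c1_apply (η : AddChar A ℂ) (k : A) (b : B) : c1 (B := B) η (k, b) = η k := rfl

theorem c1_zero : c1 (B := B) (0 : AddChar A ℂ) = 0 := by
  ext ⟨k, b⟩
  simp [c1_apply]

theorem c1_ne {η : AddChar A ℂ} (h : η ≠ 0) : c1 (B := B) η ≠ 0 := by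
  intro h1
  apply h
  ext k
  have := DFunLike.congr_fun h1 (k, (0 : B))
  rw [c1_apply] at this
  simpa using this

theorem ov_slice (x : A × B → ℂ) (a : A) (η : AddChar A ℂ) :
    ov x (a, 0) (c1 η) = ∑ b : B, cov (fun k => x (k, b)) (fun k => x (k, b)) a η := by
  unfold ov cov
  rw [Fintype.sum_prod_type, Finset.sum_comm]
  refine Finset.sum_congr rfl fun b _ => Finset.sum_congr rfl fun k _ => ?_
  rw [c1_apply, Prod.mk_add_mk, add_zero]

variable {x : A × B → ℂ} {lam : ℂ}

/-- the signs of the overlaps on the first factor -/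
theorem part_sign (h2 : ∀ (a : A × B) (χ : AddChar (A × B) ℂ), (a ≠ 0 ∨ χ ≠ 0) →
      ov x a χ * conj (ov x a χ) = 1 / ((Fintype.card (A × B) : ℂ) + 1))
    (hl : lam = 1 ∨ lam = -1) (hs : ∀ k b, x (-k, b) = lam * x (k, b))
    (hodd : ∀ k : A, k + k = 0 → k = 0) (k : A) (η : AddChar A ℂ) (hv : k ≠ 0 ∨ η ≠ 0) :
    ∃ g : ℤ, (g = 1 ∨ g = -1) ∧
      sq1 (Fintype.card (A × B)) * (η k * ov x (k + k, 0) (c1 η)) = g := by
  have hv' : ((k + k, 0) : A × B) ≠ 0 ∨ c1 (B := B) η ≠ 0 := by
    rcases hv with h | h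
    · left
      intro h3
      exact h (hodd k (congrArg Prod.fst h3))
    · exact Or.inr (c1_ne h)
  have h3 := h2 _ _ hv'
  have h4 : conj (ov x (k + k, 0) (c1 η)) = η (k + k) * ov x (k + k, 0) (c1 η) := by
    rw [ov_slice, map_sum, Finset.mul_sum]
    exact Finset.sum_congr rfl fun b _ => cov_conj hl (fun k => hs k b) _ _
  rw [h4, AddChar.map_add_eq_mul] at h3
  have h5 : (sq1 (Fintype.card (A × B)) * (η k * ov x (k + k, 0) (c1 η))) ^ 2 = 1 := by
    rw [mul_pow, sq1_sq]
    have h6 : (η k * ov x (k + k, 0) (c1 η)) ^ 2 =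
        1 / ((Fintype.card (A × B) : ℂ) + 1) := by
      rw [← h3]; ring
    rw [h6, mul_one_div, div_self card1_ne]
  rcases sq_eq_one_iff.1 h5 with h6 | h6
  · exact ⟨1, Or.inl rfl, by rw [h6]; simp⟩
  · exact ⟨-1, Or.inr rfl, by rw [h6]; simp⟩

theorem sq1_of (d n : ℕ) (h : n ^ 2 = d + 1) : sq1 d = n := by
  unfold sq1
  have h1 : ((d : ℝ) + 1) = (n : ℝ) ^ 2 := by exact_mod_cast h.symm
  rw [h1, Real.sqrt_sq (Nat.cast_nonneg n)]
  simp

/-- **Partial parity.** If a fiducial over `A × B` is symmetric under the parity of the factor `A`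
of odd order `> 1`, then `|A| |B| + 1 = n ^ 2` with `n ≤ |A| + λ`, where `λ = ± 1` is the
eigenvalue. -/
theorem part_main (h1 : ov x 0 0 = 1)
    (h2 : ∀ (a : A × B) (χ : AddChar (A × B) ℂ), (a ≠ 0 ∨ χ ≠ 0) →
      ov x a χ * conj (ov x a χ) = 1 / ((Fintype.card (A × B) : ℂ) + 1))
    (e : ℤ) (he : e = 1 ∨ e = -1) (hs : ∀ k b, x (-k, b) = (e : ℂ) * x (k, b))
    (hodd : ∀ k : A, k + k = 0 → k = 0) (hgt : 1 < Fintype.card A) :
    ∃ n : ℕ, n ^ 2 = Fintype.card (A × B) + 1 ∧ (n : ℤ) ≤ Fintype.card A + e := by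
  classical
  have hl : (e : ℂ) = 1 ∨ (e : ℂ) = -1 := by
    rcases he with h | h <;> rw [h] <;> simp
  choose g hg1 hg2 using fun (k : A) (η : AddChar A ℂ) (hv : k ≠ 0 ∨ η ≠ 0) =>
    part_sign h2 hl hs hodd k η hv
  set S : ℤ := ∑ k : A, ∑ η : AddChar A ℂ, (if hv : k ≠ 0 ∨ η ≠ 0 then g k η hv else 0) with hS
  -- the relation
  have hrel : (Fintype.card A : ℂ) = e * ∑ k : A, ∑ η : AddChar A ℂ,
      (η k * ov x (k + k, 0) (c1 η)) := by
    have h3 : (Fintype.card A : ℂ) * ov x (0, 0) (c1 (0 : AddChar A ℂ)) =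
        e * ∑ k : A, ∑ η : AddChar A ℂ, (η k * ov x (k + k, 0) (c1 η)) := by
      simp_rw [ov_slice, Finset.mul_sum]
      have h4 : ∀ b : B, (Fintype.card A : ℂ) *
          cov (fun k => x (k, b)) (fun k => x (k, b)) 0 0 =
          ∑ k : A, ∑ η : AddChar A ℂ, (e : ℂ) * (η k *
            cov (fun k => x (k, b)) (fun k => x (k, b)) (k + k) η) := by
        intro b
        have := cov_sd (y := fun k => x (k, b)) (z := fun k => x (k, b)) hl
          (fun k => hs k b) 0 0
        rw [this, Finset.mul_sum]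
        refine Finset.sum_congr rfl fun k _ => ?_
        rw [Finset.mul_sum]
        refine Finset.sum_congr rfl fun η _ => ?_
        rw [sub_zero, sub_zero]
      rw [Finset.sum_congr rfl fun b _ => h4 b, Finset.sum_comm]
      refine Finset.sum_congr rfl fun k _ => ?_
      rw [Finset.sum_comm]
    have h5 : ov x (0, 0) (c1 (0 : AddChar A ℂ)) = 1 := by
      rw [c1_zero]; exact h1
    rw [← h3, h5, mul_one]
  have hsum : sq1 (Fintype.card (A × B)) * ∑ k : A, ∑ η : AddChar A ℂ,
      (η k * ov x (k + k, 0) (c1 η)) = sq1 (Fintype.card (A × B)) + S := by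
    have h3 : ∀ (k : A) (η : AddChar A ℂ), sq1 (Fintype.card (A × B)) *
        (η k * ov x (k + k, 0) (c1 η)) =
        ((if hv : k ≠ 0 ∨ η ≠ 0 then g k η hv else 0 : ℤ) : ℂ) +
          if k = 0 then (if η = 0 then sq1 (Fintype.card (A × B)) else 0) else 0 := by
      intro k η
      by_cases hv : k ≠ 0 ∨ η ≠ 0
      · rw [dif_pos hv, hg2 k η hv]
        rcases hv with h | h
        · rw [if_neg h, add_zero]
        · rw [if_neg h]; simp
      · rw [dif_neg hv]
        push Not at hv
        rw [hv.1, hv.2, if_pos rfl, if_pos rfl, add_zero, c1_zero]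
        have : ov x ((0 : A), (0 : B)) 0 = 1 := h1
        rw [this]
        simp
    rw [Finset.mul_sum]
    simp_rw [Finset.mul_sum, h3, Finset.sum_add_distrib]
    rw [hS]
    push_cast
    rw [add_comm]
    congr 1
    rw [Finset.sum_eq_single (0 : A)]
    · simp
    · intro k _ hk
      simp [hk]
    · simp
  have hee : (e : ℂ) * e = 1 := eps_sq hl
  have hmain : (((e * Fintype.card A - 1 : ℤ)) : ℂ) * sq1 (Fintype.card (A × B)) = S := by
    push_cast
    linear_combination (sq1 (Fintype.card (A × B)) * e) * hrel + hsum +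
      (sq1 (Fintype.card (A × B)) * ∑ k : A, ∑ η : AddChar A ℂ,
        (η k * ov x (k + k, 0) (c1 η))) * hee
  have hSb : |S| ≤ (Fintype.card A : ℤ) ^ 2 - 1 := by
    calc |S| ≤ ∑ k : A, ∑ η : AddChar A ℂ, |if hv : k ≠ 0 ∨ η ≠ 0 then g k η hv else 0| :=
          (Finset.abs_sum_le_sum_abs _ _).trans
            (Finset.sum_le_sum fun k _ => Finset.abs_sum_le_sum_abs _ _)
      _ = ∑ k : A, ∑ η : AddChar A ℂ, ((1 : ℤ) - if k = 0 then (if η = 0 then 1 else 0) else 0) := by
          refine Finset.sum_congr rfl fun k _ => Finset.sum_congr rfl fun η _ => ?_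
          by_cases hv : k ≠ 0 ∨ η ≠ 0
          · rw [dif_pos hv]
            have h3 : |g k η hv| = 1 := by
              rcases hg1 k η hv with h | h <;> rw [h] <;> simp
            rw [h3]
            rcases hv with h | h
            · rw [if_neg h]; simp
            · rw [if_neg h]; simp
          · rw [dif_neg hv]
            push Not at hv
            rw [if_pos hv.1, if_pos hv.2]; simp
      _ = (Fintype.card A : ℤ) ^ 2 - 1 := by
          simp_rw [Finset.sum_sub_distrib]
          rw [Finset.sum_eq_single (0 : A) (f := fun k => ∑ η : AddChar A ℂ,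
            (if k = 0 then (if η = 0 then (1 : ℤ) else 0) else 0))]
          · simp only [Finset.sum_const, Finset.card_univ, AddChar.card_eq, if_true,
              Finset.sum_ite_eq', Finset.mem_univ, nsmul_eq_mul, mul_one]
            ring
          · intro k _ hk
            simp [hk]
          · simp
  have hsq : IsSquare (Fintype.card (A × B) + 1) := by
    by_contra hns
    have h3 := (rat_of _ _ _ hmain hns).1
    rcases he with h | h <;> rw [h] at h3 <;> omega
  obtain ⟨n, hn⟩ := hsq
  have hn' : n ^ 2 = Fintype.card (A × B) + 1 := by rw [hn, sq]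
  refine ⟨n, hn', ?_⟩
  rw [sq1_of _ n hn'] at hmain
  have h3 : (e * Fintype.card A - 1) * (n : ℤ) = S := by exact_mod_cast hmain
  rw [abs_le] at hSb
  have hQ : (1 : ℤ) < Fintype.card A := by exact_mod_cast hgt
  rcases he with h | h
  · rw [h] at h3 ⊢
    by_contra h4
    push Not at h4
    nlinarith
  · rw [h] at h3 ⊢
    by_contra h4
    push Not at h4
    nlinarith

/-- prime power order -/
theorem part_prime_power (q c : ℕ) (hq : q.Prime) (hq2 : q ≠ 2) (hA : Fintype.card A = q ^ c)
    (n : ℕ) (hn : n ^ 2 = Fintype.card (A × B) + 1) (hle : (n : ℤ) ≤ Fintype.card A + 1)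
    (hgt : 1 < Fintype.card A) :
    (n = Fintype.card A + 1 ∧ Fintype.card B = Fintype.card A + 2) ∨
      (n + 1 = Fintype.card A ∧ Fintype.card B + 2 = Fintype.card A) := by
  set Q := Fintype.card A with hQ
  set D := Fintype.card B with hD
  have hDpos : 0 < D := Fintype.card_pos
  rw [Fintype.card_prod, ← hQ, ← hD] at hn
  have hnZ : (n : ℤ) ^ 2 = Q * D + 1 := by exact_mod_cast hn
  have hQD : 3 ≤ Q * D := by
    have hQ3 : 3 ≤ Q := by
      have h1 : Q ≠ 2 := by
        intro h
        rw [h] at hA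
        have : q ∣ 2 := by
          rw [hA]
          exact dvd_pow_self q (by rintro rfl; simp at hA)
        exact hq2 ((Nat.prime_dvd_prime_iff_eq hq Nat.prime_two).1 this)
      omega
    nlinarith
  have hn2 : 2 ≤ n := by
    by_contra h
    have : n ≤ 1 := by omega
    have : n ^ 2 ≤ 1 := by
      calc n ^ 2 ≤ 1 ^ 2 := Nat.pow_le_pow_left this 2
        _ = 1 := one_pow 2
    omega
  have hprod : (Q : ℤ) ∣ ((n : ℤ) - 1) * ((n : ℤ) + 1) := ⟨D, by linear_combination hnZ⟩
  have hqZ : Prime (q : ℤ) := Nat.prime_iff_prime_int.1 hq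
  have hdiv : (Q : ℤ) ∣ (n : ℤ) - 1 ∨ (Q : ℤ) ∣ (n : ℤ) + 1 := by
    by_cases hqd : (q : ℤ) ∣ (n : ℤ) - 1
    · have hnot : ¬ (q : ℤ) ∣ (n : ℤ) + 1 := by
        intro h3
        have h4 : (q : ℤ) ∣ 2 := by
          have := dvd_sub h3 hqd
          have h5 : (n : ℤ) + 1 - (n - 1) = 2 := by ring
          rwa [h5] at this
        have h5 : q ∣ 2 := by exact_mod_cast h4
        exact hq2 ((Nat.prime_dvd_prime_iff_eq hq Nat.prime_two).1 h5)
      have hcop : IsCoprime (Q : ℤ) ((n : ℤ) + 1) := by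
        rw [hA]; push_cast
        exact IsCoprime.pow_left (hqZ.coprime_iff_not_dvd.2 hnot)
      exact Or.inl (hcop.dvd_of_dvd_mul_right hprod)
    · have hcop : IsCoprime (Q : ℤ) ((n : ℤ) - 1) := by
        rw [hA]; push_cast
        exact IsCoprime.pow_left (hqZ.coprime_iff_not_dvd.2 hqd)
      exact Or.inr (hcop.dvd_of_dvd_mul_left hprod)
  have hQ1 : (1 : ℤ) < Q := by exact_mod_cast hgt
  have hQ3 : (3 : ℤ) ≤ Q := by
    have h1 : Q ≠ 2 := by
      intro h
      rw [h] at hA
      have : q ∣ 2 := by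
        rw [hA]
        exact dvd_pow_self q (by rintro rfl; simp at hA)
      exact hq2 ((Nat.prime_dvd_prime_iff_eq hq Nat.prime_two).1 this)
    omega
  have hn2' : (2 : ℤ) ≤ n := by exact_mod_cast hn2
  rcases hdiv with h | h
  · left
    obtain ⟨j, hj⟩ := h
    have hj1 : j = 1 := by
      have h3 : 1 ≤ j := by
        by_contra h4
        have : j ≤ 0 := by omega
        nlinarith
      have h4 : j < 2 := by
        by_contra h5
        push Not at h5
        nlinarith
      omega
    rw [hj1, mul_one] at hj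
    have h3 : (n : ℤ) = Q + 1 := by linarith
    refine ⟨by omega, ?_⟩
    rw [h3] at hnZ
    have h4 : (Q : ℤ) * D = Q * (Q + 2) := by linear_combination -hnZ
    have h5 := mul_left_cancel₀ (by omega : (Q : ℤ) ≠ 0) h4
    omega
  · right
    obtain ⟨j, hj⟩ := h
    have hj1 : j = 1 := by
      have h3 : 1 ≤ j := by
        by_contra h4
        have : j ≤ 0 := by omega
        nlinarith
      have h4 : j < 2 := by
        by_contra h5
        push Not at h5
        nlinarith
      omega
    rw [hj1, mul_one] at hj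
    have h3 : (n : ℤ) = Q - 1 := by linarith
    refine ⟨by omega, ?_⟩
    rw [h3] at hnZ
    have h4 : (Q : ℤ) * D = Q * (Q - 2) := by linear_combination -hnZ
    have h5 := mul_left_cancel₀ (by omega : (Q : ℤ) ≠ 0) h4
    omega

end part

end Pool.Agent.U338.SIC
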