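import Mathlib
import Pool.Agent.U338.SIC.Part
import Pool.Agent.U338.SIC.Gal2
import Pool.Agent.U338.SIC.Assemble

/-!
# Classification of parity-symmetric fiducials over all finite abelian groups
-/

set_option autoImplicit false
set_option linter.unusedSectionVars false

open Finset ComplexConjugate

namespace Pool.Agent.U338.SIC

open Pool.Agent.N392.Ab

section splitting

variable {A : Type*} [AddCommGroup A] [Fintype A]

/-- splitting a finite abelian group of order `K D` with coprime `K` and `D` -/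
theorem coprime_split (K D : ℕ) (hco : Nat.Coprime K D) (hcard : Fintype.card A = K * D) :
    ∃ (A₁ B : AddSubgroup A), Nat.card A₁ = K ∧ Nat.card B = D ∧ Nonempty (A ≃+ A₁ × B) := by
  classical
  set A₁ : AddSubgroup A := (nsmulAddMonoidHom (α := A) K).ker with hA₁
  set B : AddSubgroup A := (nsmulAddMonoidHom (α := A) D).ker with hB
  have hAmem : ∀ b : A, b ∈ A₁ ↔ K • b = 0 := fun b => by
    rw [hA₁, AddMonoidHom.mem_ker]; rfl
  have hBmem : ∀ b : A, b ∈ B ↔ D • b = 0 := fun b => by
    rw [hB, AddMonoidHom.mem_ker]; rfl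
  set Φ : A₁ × B →+ A := AddMonoidHom.coprod A₁.subtype B.subtype with hΦ
  have hΦa : ∀ p, Φ p = (p.1 : A) + (p.2 : A) := fun p => rfl
  obtain ⟨u, v, huv⟩ := Nat.isCoprime_iff_coprime.2 hco
  have hzero : ∀ a : A, K • a = 0 → D • a = 0 → a = 0 := by
    intro a h1 h2
    have h3 : a = (u * K + v * D : ℤ) • a := by rw [huv, one_smul]
    rw [h3, add_smul, mul_smul, mul_smul, natCast_zsmul, natCast_zsmul, h1, h2, smul_zero,
      smul_zero, add_zero]
  have hbij : Function.Bijective Φ := by
    constructor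
    · rw [injective_iff_map_eq_zero]
      rintro ⟨a, b⟩ h
      rw [hΦa] at h
      simp only at h
      have ha : (a : A) = 0 := by
        apply hzero _ ((hAmem _).1 a.2)
        have h2 := congrArg (fun z => D • z) h
        simp only [smul_add, smul_zero] at h2
        rwa [(hBmem b).1 b.2, add_zero] at h2
      rw [ha, zero_add] at h
      rw [Prod.mk_eq_zero]
      exact ⟨Subtype.ext ha, Subtype.ext h⟩
    · intro a
      have hKD : (K * D) • a = 0 := by rw [← hcard]; exact card_nsmul_eq_zero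
      refine ⟨(⟨(v * D : ℤ) • a, ?_⟩, ⟨(u * K : ℤ) • a, ?_⟩), ?_⟩
      · rw [hAmem, ← natCast_zsmul, ← mul_smul]
        have e1 : (K : ℤ) * (v * D) = v * ((K * D : ℕ) : ℤ) := by push_cast; ring
        rw [e1, mul_smul, natCast_zsmul, hKD, smul_zero]
      · rw [hBmem, ← natCast_zsmul, ← mul_smul]
        have e1 : (D : ℤ) * (u * K) = u * ((K * D : ℕ) : ℤ) := by push_cast; ring
        rw [e1, mul_smul, natCast_zsmul, hKD, smul_zero]
      · rw [hΦa]
        simp only
        rw [← add_smul]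
        have e1 : v * (D : ℤ) + u * K = 1 := by linear_combination huv
        rw [e1, one_smul]
  have hprod : Nat.card A₁ * Nat.card B = K * D := by
    rw [← Nat.card_prod, ← hcard, ← Nat.card_eq_fintype_card]
    exact Nat.card_congr (Equiv.ofBijective Φ hbij)
  have hK0 : K ≠ 0 := by rintro rfl; rw [zero_mul] at hcard; exact Fintype.card_ne_zero hcard
  have hD0 : D ≠ 0 := by rintro rfl; rw [mul_zero] at hcard; exact Fintype.card_ne_zero hcard
  have hco1 : Nat.Coprime (Nat.card A₁) D := by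
    rw [Nat.coprime_iff_gcd_eq_one]
    by_contra h
    obtain ⟨p, hp, hpd⟩ := Nat.exists_prime_and_dvd h
    have : Fact p.Prime := ⟨hp⟩
    have h1 := hpd.trans (Nat.gcd_dvd_left _ _)
    have h2 := hpd.trans (Nat.gcd_dvd_right _ _)
    obtain ⟨b, hb⟩ := exists_prime_addOrderOf_dvd_card' p h1
    have h3 : p ∣ K := by
      rw [← hb]
      apply addOrderOf_dvd_of_nsmul_eq_zero
      ext
      exact (hAmem b).1 b.2
    exact hp.one_lt.ne' (Nat.Coprime.eq_one_of_dvd (Nat.Coprime.coprime_dvd_left h3 hco) h2)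
  have hco2 : Nat.Coprime (Nat.card B) K := by
    rw [Nat.coprime_iff_gcd_eq_one]
    by_contra h
    obtain ⟨p, hp, hpd⟩ := Nat.exists_prime_and_dvd h
    have : Fact p.Prime := ⟨hp⟩
    have h1 := hpd.trans (Nat.gcd_dvd_left _ _)
    have h2 := hpd.trans (Nat.gcd_dvd_right _ _)
    obtain ⟨b, hb⟩ := exists_prime_addOrderOf_dvd_card' p h1
    have h3 : p ∣ D := by
      rw [← hb]
      apply addOrderOf_dvd_of_nsmul_eq_zero
      ext
      exact (hBmem b).1 b.2
    exact hp.one_lt.ne' (Nat.Coprime.eq_one_of_dvd (Nat.Coprime.coprime_dvd_left h3 hco.symm) h2)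
  have hd1 : Nat.card A₁ ∣ K := hco1.dvd_of_dvd_mul_right (hprod ▸ Dvd.intro _ rfl)
  have hd2 : Nat.card B ∣ D := hco2.dvd_of_dvd_mul_left (hprod ▸ Dvd.intro_left _ rfl)
  have hc1 : Nat.card A₁ = K := by
    apply le_antisymm (Nat.le_of_dvd (Nat.pos_of_ne_zero hK0) hd1)
    by_contra h
    push Not at h
    have h2 := Nat.le_of_dvd (Nat.pos_of_ne_zero hD0) hd2
    have : Nat.card A₁ * Nat.card B < K * D :=
      calc Nat.card A₁ * Nat.card B ≤ Nat.card A₁ * D := Nat.mul_le_mul_left _ h2
        _ < K * D := Nat.mul_lt_mul_of_pos_right h (Nat.pos_of_ne_zero hD0)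
    omega
  refine ⟨A₁, B, hc1, ?_, ⟨(AddEquiv.ofBijective Φ hbij).symm⟩⟩
  rw [hc1] at hprod
  exact Nat.eq_of_mul_eq_mul_left (Nat.pos_of_ne_zero hK0) hprod

end splitting

section two

variable {A B : Type*} [AddCommGroup A] [Fintype A] [AddCommGroup B] [Fintype B]

/-- the character of the product attached to a character of the second factor -/
noncomputable def c2 (η : AddChar B ℂ) : AddChar (A × B) ℂ :=
  η.compAddMonoidHom (AddMonoidHom.snd A B)

theorem c2_apply (η : AddChar B ℂ) (k : A) (b : B) : c2 (A := A) η (k, b) = η b := rfl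

theorem ov_slice2 (x : A × B → ℂ) (a : A) (b : B) (η : AddChar B ℂ) :
    ov x (a, b) (c2 η) = ∑ k : A, cov (fun l => x (k, l)) (fun l => x (k + a, l)) b η := by
  unfold ov cov
  rw [Fintype.sum_prod_type]
  refine Finset.sum_congr rfl fun k _ => Finset.sum_congr rfl fun l _ => ?_
  rw [c2_apply, Prod.mk_add_mk]

variable {x : A × B → ℂ} {ε lam : ℂ} {n : ℕ}

/-- two partial parities exclude each other -/
theorem two_false (hx : Par x ε) (hn : n ^ 2 = Fintype.card (A × B) + 1)
    (hl : lam = 1 ∨ lam = -1) (hs : ∀ k b, x (k, -b) = lam * x (k, b))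
    (hodd : Odd (Fintype.card B)) (a : A) (ha : a ≠ 0) (c : B) (hc : c ≠ 0) : False := by
  classical
  -- the signs
  have hsign : ∀ (l : B) (θ : AddChar B ℂ), ∃ g : ℤ, (g = 1 ∨ g = -1) ∧
      θ l * GG n x (a, l + l) (c2 θ) = g := by
    intro l θ
    have h1 := GG_sq hx hn (a, l + l) (c2 θ) (Or.inl fun h => ha (congrArg Prod.fst h))
    have h2 : (θ l * GG n x (a, l + l) (c2 θ)) ^ 2 = 1 := by
      rw [mul_pow, h1, Prod.neg_mk, c2_apply, sq, ← AddChar.map_add_eq_mul,
        ← AddChar.map_add_eq_mul, add_neg_cancel, AddChar.map_zero_eq_one]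
    rcases sq_eq_one_iff.1 h2 with h | h
    · exact ⟨1, Or.inl rfl, by rw [h]; simp⟩
    · exact ⟨-1, Or.inr rfl, by rw [h]; simp⟩
  choose g hg1 hg2 using hsign
  have hrel : (Fintype.card B : ℂ) * GG n x (a, c + c) (c2 0) =
      lam * ∑ l : B, ∑ θ : AddChar B ℂ, θ c * (g l θ : ℂ) := by
    have h1 : ∀ k : A, (Fintype.card B : ℂ) *
        cov (fun l => x (k, l)) (fun l => x (k + a, l)) (c + c) 0 =
        ∑ l : B, ∑ θ : AddChar B ℂ, lam * (θ c * (θ l *
          cov (fun l => x (k, l)) (fun l => x (k + a, l)) (l + l) θ)) := by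
      intro k
      rw [cov_sd2 (y := fun l => x (k, l)) (z := fun l => x (k + a, l)) hl
        (fun l => hs (k + a) l) c, Finset.mul_sum]
      refine Finset.sum_congr rfl fun l _ => ?_
      rw [Finset.mul_sum]
    unfold GG
    rw [ov_slice2]
    calc (Fintype.card B : ℂ) * (n * ∑ k : A, cov (fun l => x (k, l))
          (fun l => x (k + a, l)) (c + c) 0)
        = n * ∑ k : A, (Fintype.card B : ℂ) * cov (fun l => x (k, l))
          (fun l => x (k + a, l)) (c + c) 0 := by rw [← Finset.mul_sum]; ring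
      _ = n * ∑ k : A, ∑ l : B, ∑ θ : AddChar B ℂ, lam * (θ c * (θ l *
          cov (fun l => x (k, l)) (fun l => x (k + a, l)) (l + l) θ)) := by
          rw [Finset.sum_congr rfl fun k _ => h1 k]
      _ = n * ∑ l : B, ∑ θ : AddChar B ℂ, ∑ k : A, lam * (θ c * (θ l *
          cov (fun l => x (k, l)) (fun l => x (k + a, l)) (l + l) θ)) := by
          congr 1
          rw [Finset.sum_comm]
          refine Finset.sum_congr rfl fun l _ => ?_
          rw [Finset.sum_comm]
      _ = _ := by
          rw [Finset.mul_sum, Finset.mul_sum]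
          refine Finset.sum_congr rfl fun l _ => ?_
          rw [Finset.mul_sum, Finset.mul_sum]
          refine Finset.sum_congr rfl fun θ _ => ?_
          rw [← hg2, GG, ov_slice2, ← Finset.mul_sum, ← Finset.mul_sum, ← Finset.mul_sum]
          ring
  have hg0 : GG n x (a, c + c) (c2 0) = g c 0 := by
    rw [← hg2, AddChar.zero_apply, one_mul]
  rw [hg0] at hrel
  -- integrality
  choose f hf1 hf2 using fun (l : B) (θ : AddChar B ℂ) => show ∃ f : ℤ, g l θ = 1 - 2 * f ∧
      (f = 0 ∨ f = 1) by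
    rcases hg1 l θ with h | h
    · exact ⟨0, by rw [h]; ring, Or.inl rfl⟩
    · exact ⟨1, by rw [h]; ring, Or.inr rfl⟩
  have hzero : ∑ l : B, ∑ θ : AddChar B ℂ, θ c = 0 := by
    rw [sum_char_apply, if_neg hc]
    simp
  have hY : (Fintype.card B : ℂ) * (g c 0 : ℂ) =
      (2 : ℕ) * (-lam * ∑ l : B, ∑ θ : AddChar B ℂ, θ c * (f l θ : ℂ)) := by
    rw [hrel]
    have h1 : ∑ l : B, ∑ θ : AddChar B ℂ, θ c * (g l θ : ℂ) =
        ∑ l : B, ∑ θ : AddChar B ℂ, θ c - 2 * ∑ l : B, ∑ θ : AddChar B ℂ, θ c * (f l θ : ℂ) := by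
      rw [Finset.mul_sum, ← Finset.sum_sub_distrib]
      refine Finset.sum_congr rfl fun l _ => ?_
      rw [Finset.mul_sum, ← Finset.sum_sub_distrib]
      refine Finset.sum_congr rfl fun θ _ => ?_
      rw [hf1]
      push_cast
      ring
    rw [h1, hzero]
    push_cast
    ring
  have hint : IsIntegral ℤ (-lam * ∑ l : B, ∑ θ : AddChar B ℂ, θ c * (f l θ : ℂ)) := by
    apply IsIntegral.mul
    · rcases hl with h | h <;> rw [h]
      · exact isIntegral_one.neg
      · rw [neg_neg]; exact isIntegral_one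
    · apply IsIntegral.sum
      intro l _
      apply IsIntegral.sum
      intro θ _
      apply IsIntegral.mul
      · exact IsIntegral.of_pow (n := Fintype.card B) Fintype.card_pos
          (by rw [char_pow_card']; exact isIntegral_one)
      · exact isIntegral_algebraMap (R := ℤ) (x := f l θ)
  have h2 := dvd_of_integral 2 (Fintype.card B) two_ne_zero
    (Nat.coprime_two_left.2 hodd) (g c 0) _ hint hY
  rcases hg1 c 0 with h | h <;> rw [h] at h2 <;> norm_num at h2

end two

variable {A : Type*} [AddCommGroup A] [Fintype A] {x : A → ℂ} {ε : ℂ}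

theorem odd_order_no_two (hodd : Odd (Fintype.card A)) (k : A) (hk : k + k = 0) : k = 0 := by
  obtain ⟨m, hm⟩ := hodd
  have h1 : (Fintype.card A) • k = 0 := card_nsmul_eq_zero
  rw [hm, add_smul, one_smul, mul_smul, smul_comm, two_smul, hk, smul_zero, zero_add] at h1
  exact h1

/-- **Symmetry under the parity of a coprime odd factor.** -/
theorem hall_parity {A B : Type*} [AddCommGroup A] [Fintype A] [AddCommGroup B] [Fintype B]
    {x : A × B → ℂ} {ε : ℂ} {n : ℕ} (hx : Par x ε) (hn : n ^ 2 = Fintype.card (A × B) + 1)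
    (hA : Odd (Fintype.card A)) (hco : Nat.Coprime (Fintype.card A) (Fintype.card B)) :
    ∃ e : ℤ, (e = 1 ∨ e = -1) ∧ ∀ k b, x (-k, b) = (e : ℂ) * x (k, b) := by
  classical
  have hKpos : 0 < Fintype.card A := Fintype.card_pos
  obtain ⟨w, hw1, hw2⟩ := Nat.chineseRemainder hco (Fintype.card A - 1) 0
  have hw1' : Fintype.card A ∣ w + 1 := by
    have h1 : w + 1 ≡ Fintype.card A - 1 + 1 [MOD Fintype.card A] := Nat.ModEq.add_right 1 hw1
    rw [Nat.sub_add_cancel hKpos] at h1
    exact (Nat.modEq_zero_iff_dvd).1 (h1.trans (Nat.modEq_zero_iff_dvd.2 dvd_rfl))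
  have hw2' : Fintype.card B ∣ w := (Nat.modEq_zero_iff_dvd).1 hw2
  have hcardP : Fintype.card (A × B) = Fintype.card A * Fintype.card B := Fintype.card_prod _ _
  have hcop : Nat.Coprime (2 * w + 1) (Fintype.card (A × B)) := by
    rw [hcardP]
    apply Nat.Coprime.mul_right
    · rw [Nat.coprime_iff_gcd_eq_one]
      by_contra h
      obtain ⟨p, hp, hpd⟩ := Nat.exists_prime_and_dvd h
      have h1 := hpd.trans (Nat.gcd_dvd_left _ _)
      have h2 := hpd.trans (Nat.gcd_dvd_right _ _)
      have h3 : p ∣ 2 * (w + 1) := Dvd.dvd.mul_left (h2.trans hw1') 2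
      have h4 : p ∣ 1 := by
        have := Nat.dvd_sub h3 h1
        have e1 : 2 * (w + 1) - (2 * w + 1) = 1 := by omega
        rwa [e1] at this
      exact hp.one_lt.ne' (Nat.dvd_one.1 h4)
    · rw [Nat.coprime_iff_gcd_eq_one]
      by_contra h
      obtain ⟨p, hp, hpd⟩ := Nat.exists_prime_and_dvd h
      have h1 := hpd.trans (Nat.gcd_dvd_left _ _)
      have h2 := hpd.trans (Nat.gcd_dvd_right _ _)
      have h3 : p ∣ 2 * w := Dvd.dvd.mul_left (h2.trans hw2') 2
      have h4 : p ∣ 1 := (Nat.dvd_add_right h3).1 h1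
      exact hp.one_lt.ne' (Nat.dvd_one.1 h4)
  have hww : ∀ a : A × B, (w * (w + 1)) • a = 0 := by
    intro a
    have h1 : Fintype.card (A × B) ∣ w * (w + 1) := by
      rw [hcardP, mul_comm w]
      exact mul_dvd_mul hw1' hw2'
    obtain ⟨t, ht⟩ := h1
    rw [ht, mul_comm, mul_smul, card_nsmul_eq_zero, smul_zero]
  obtain ⟨lam, hlam, hsym⟩ := sym_unit hx hn w hcop hww
  have huA : ∀ k : A, (2 * w + 1) • k = -k := by
    intro k
    obtain ⟨t, ht⟩ := hw1'
    rw [eq_neg_iff_add_eq_zero]
    have h1 : (2 * w + 1) • k + k = (2 * (w + 1)) • k := by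
      rw [mul_add, mul_one, add_smul, add_smul, one_smul, two_smul]
      abel
    rw [h1, ht, mul_smul, mul_comm, mul_smul, card_nsmul_eq_zero, smul_zero, smul_zero]
  have huB : ∀ b : B, (2 * w + 1) • b = b := by
    intro b
    obtain ⟨t, ht⟩ := hw2'
    rw [add_smul, one_smul, ht, mul_smul, mul_comm, mul_smul, card_nsmul_eq_zero, smul_zero,
      smul_zero, zero_add]
  have hsym' : ∀ k b, x (-k, b) = lam * x (k, b) := by
    intro k b
    have := hsym (k, b)
    rwa [Prod.smul_mk, huA, huB] at this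
  rcases hlam with h | h
  · exact ⟨1, Or.inl rfl, fun k b => by rw [hsym', h]; simp⟩
  · exact ⟨-1, Or.inr rfl, fun k b => by rw [hsym', h]; simp⟩

/-- **Classification, nonexistence part.** -/
theorem par_classify (hx : Par x ε) (hd : 3 ≤ Fintype.card A) :
    Nonempty (A ≃+ ZMod 3) ∨ Nonempty (A ≃+ (Fin 3 → ZMod 2)) := by
  classical
  by_cases hodd : ∃ q : ℕ, q.Prime ∧ q ≠ 2 ∧ q ∣ Fintype.card A
  · left
    apply equiv_three
    obtain ⟨q, hq, hq2, hdvd⟩ := hodd
    obtain ⟨n, hn⟩ := hx.square hd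
    have hcard0 : Fintype.card A ≠ 0 := Fintype.card_ne_zero
    obtain ⟨c, D, hD, hcD⟩ := Nat.exists_eq_pow_mul_and_not_dvd hcard0 q hq.ne_one
    have hc1 : 1 ≤ c := by
      by_contra h
      have h0 : c = 0 := by omega
      rw [h0, pow_zero, one_mul] at hcD
      exact hD (hcD ▸ hdvd)
    have hco : Nat.Coprime (q ^ c) D :=
      Nat.Coprime.pow_left _ ((Nat.Prime.coprime_iff_not_dvd hq).2 hD)
    obtain ⟨A₁, B, hA₁, hB, ⟨E⟩⟩ := coprime_split (q ^ c) D hco hcD
    rw [Nat.card_eq_fintype_card] at hA₁ hB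
    have hx' := hx.transport E
    have hcard : Fintype.card (A₁ × B) = Fintype.card A := (Fintype.card_congr E.toEquiv).symm
    have hn' : n ^ 2 = Fintype.card (A₁ × B) + 1 := by rw [hcard, hn, sq]
    have hqodd : Odd q := hq.odd_of_ne_two hq2
    have hoddA : Odd (Fintype.card A₁) := by rw [hA₁]; exact hqodd.pow
    have hgt : 1 < Fintype.card A₁ := by
      rw [hA₁]
      exact Nat.one_lt_pow (by omega) hq.one_lt
    obtain ⟨e, he, hs⟩ := hall_parity hx' hn' hoddA (by rw [hA₁, hB]; exact hco)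
    obtain ⟨n', hn'', hle⟩ := part_main hx'.nrm hx'.mod e he hs
      (fun k hk => odd_order_no_two hoddA k hk) hgt
    have hnn : n' = n := by
      have : n' ^ 2 = n ^ 2 := by rw [hn', hn'']
      exact (pow_left_inj₀ (Nat.zero_le _) (Nat.zero_le _) two_ne_zero).1 this
    rw [hnn] at hle
    have hle' : (n : ℤ) ≤ Fintype.card A₁ + 1 := by
      rcases he with h | h <;> rw [h] at hle <;> omega
    have hBcases := part_prime_power q c hq hq2 hA₁ n hn' hle' hgt
    by_cases hB1 : Fintype.card B = 1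
    · rcases hBcases with ⟨-, h⟩ | ⟨-, h⟩
      · omega
      · rw [← hcard, Fintype.card_prod, hB1, ← h, hB1]
    · exfalso
      have hBpos : 0 < Fintype.card B := Fintype.card_pos
      have hoddB : Odd (Fintype.card B) := by
        obtain ⟨i, hi⟩ := hoddA
        rcases hBcases with ⟨-, h⟩ | ⟨-, h⟩
        · exact ⟨i + 1, by omega⟩
        · exact ⟨i - 1, by omega⟩
      obtain ⟨a, ha⟩ : ∃ a : A₁, a ≠ 0 := by
        have : Nontrivial A₁ := Fintype.one_lt_card_iff_nontrivial.1 hgt
        exact exists_ne 0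
      obtain ⟨b, hb⟩ : ∃ b : B, b ≠ 0 := by
        have : Nontrivial B := Fintype.one_lt_card_iff_nontrivial.1 (by omega)
        exact exists_ne 0
      have hee : (e : ℂ) * e = 1 := by
        rcases he with h | h <;> rw [h] <;> norm_num
      have hlam : ε * (e : ℂ) = 1 ∨ ε * (e : ℂ) = -1 := by
        rcases he with h | h <;> rcases hx.eps with h' | h' <;> rw [h, h'] <;> norm_num
      refine two_false hx' hn' hlam ?_ hoddB a ha b hb
      intro k l
      have h1 := hx'.par (-k, l)
      rw [Prod.neg_mk, neg_neg] at h1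
      rw [h1, hs]
      ring
  · right
    push Not at hodd
    have hcard0 : Fintype.card A ≠ 0 := Fintype.card_ne_zero
    have hpow := Nat.eq_prime_pow_of_unique_prime_dvd (p := 2) hcard0 (by
      intro q hq hqd
      by_contra hne
      exact hodd q hq hne hqd)
    have h8 : Fintype.card A = 8 := by
      rw [hpow]
      apply pow_two_square
      · rw [← hpow]; exact hd
      · rw [← hpow]; exact hx.square hd
    apply equiv_eight h8
    intro c
    by_contra hc
    have h8c : (8 : ℕ) • c = 0 := by rw [← h8]; exact card_nsmul_eq_zero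
    by_cases h4 : c + c + (c + c) = 0
    · exact eight_case hx h8 c hc h4
    · refine eight_case hx h8 (c + c) h4 ?_
      have : c + c + (c + c) + (c + c + (c + c)) = (8 : ℕ) • c := by
        rw [show (8 : ℕ) = 1 + 1 + 1 + 1 + 1 + 1 + 1 + 1 from rfl]
        simp only [add_nsmul, one_nsmul]
        abel
      rw [this, h8c]

end Pool.Agent.U338.SIC
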