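import Mathlib
import Pool.Agent.U338.SIC.Transport

/-!
# Existence of parity-symmetric fiducials for the trivial group, `ℤ/2`, `ℤ/3` and `(ℤ/2)³`
-/

set_option autoImplicit false
set_option linter.unusedSectionVars false

open Finset ComplexConjugate

namespace Pool.Agent.U338.SIC

open Pool.Agent.N392.Ab

variable {A : Type*} [AddCommGroup A] [Fintype A]

theorem fid_iff (x : EuclideanSpace ℂ A) : IsFiducial x ↔
    (ov x 0 0 = 1 ∧ ∀ (a : A) (χ : AddChar A ℂ), (a ≠ 0 ∨ χ ≠ 0) →
      ov x a χ * conj (ov x a χ) = 1 / ((Fintype.card A : ℂ) + 1)) := by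
  rw [isFiducial_iff]
  constructor
  · rintro ⟨h1, h2⟩
    refine ⟨?_, fun a χ h => ov_sq_of (h2 a χ h)⟩
    rw [← norm_sq_eq, h1]
    norm_num
  · rintro ⟨h1, h2⟩
    constructor
    · rw [← norm_sq_eq] at h1
      have h3 : ‖x‖ ^ 2 = 1 := by exact_mod_cast h1
      exact (pow_eq_one_iff_of_nonneg (norm_nonneg _) two_ne_zero).1 h3
    · intro a χ h
      have h3 := h2 a χ h
      rw [Complex.mul_conj, Complex.normSq_eq_norm_sq] at h3
      have h4 : ‖ov x a χ‖ ^ 2 = 1 / ((Fintype.card A : ℝ) + 1) := by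
        apply Complex.ofReal_injective
        rw [h3]
        push_cast
        rfl
      have h5 : (1 / Real.sqrt ((Fintype.card A : ℝ) + 1)) ^ 2 =
          1 / ((Fintype.card A : ℝ) + 1) := by
        rw [div_pow, Real.sq_sqrt (by positivity)]
        ring
      rw [← h5] at h4
      exact (pow_left_inj₀ (norm_nonneg _) (by positivity) two_ne_zero).1 h4

/-- transport along an isomorphism, in the form used for existence -/
theorem exists_transport {A' : Type*} [AddCommGroup A'] [Fintype A'] (e : A ≃+ A')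
    (h : ∃ (x : A → ℂ) (ε : ℂ), Par x ε) : ∃ (x : A' → ℂ) (ε : ℂ), Par x ε := by
  obtain ⟨x, ε, h⟩ := h
  exact ⟨_, ε, h.transport e⟩

theorem exist_one [Subsingleton A] : ∃ (x : A → ℂ) (ε : ℂ), Par x ε := by
  classical
  have hu : (Finset.univ : Finset A) = {0} := by
    ext a
    simp [Subsingleton.elim a 0]
  refine ⟨fun _ => 1, 1, ?_, ?_, ?_, Or.inl rfl⟩
  · unfold ov
    rw [hu, Finset.sum_singleton]
    simp
  · intro a χ h
    exfalso
    rcases h with h | h
    · exact h (Subsingleton.elim _ _)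
    · apply h
      ext k
      rw [Subsingleton.elim k 0]
      simp
  · intro k
    simp

/-- a group of order eight and exponent two -/
theorem exist_eight (h8 : Fintype.card A = 8) (h2 : ∀ c : A, c + c = 0) :
    ∃ (x : A → ℂ) (ε : ℂ), Par x ε := by
  classical
  have hneg : ∀ c : A, -c = c := fun c => neg_eq_of_add_eq_zero_left (h2 c)
  have hI := Complex.I_sq
  set r : ℂ := ((Real.sqrt 12 : ℝ) : ℂ) with hr
  have hr2 : r ^ 2 = 12 := by
    rw [hr, ← Complex.ofReal_pow, Real.sq_sqrt (by norm_num)]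
    norm_num
  have hr0 : r ≠ 0 := by
    intro h
    rw [h] at hr2
    norm_num at hr2
  have hrc : conj r = r := by rw [hr, Complex.conj_ofReal]
  set y : A → ℂ := fun k => 1 + if k = 0 then (-2 + 2 * Complex.I) else 0 with hy
  have hyc : ∀ k, conj (y k) = 1 + if k = 0 then (-2 - 2 * Complex.I) else 0 := by
    intro k
    simp only [hy]
    split_ifs
    · rw [map_add, map_add, map_mul, map_neg, Complex.conj_I, map_one, map_ofNat]
      ring
    · simp
  have hov : ∀ (a : A) (χ : AddChar A ℂ), ov (fun k => y k / r) a χ =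
      ((if χ = 0 then 8 else 0) + (-2 - 2 * Complex.I) + (-2 + 2 * Complex.I) * χ a +
        if a = 0 then 8 else 0) / 12 := by
    intro a χ
    have h3 : ∀ k : A, conj (y k / r) * (y (k + a) / r) * χ k =
        (χ k + ((if k = 0 then (-2 - 2 * Complex.I) else 0) +
          ((if k = a then (-2 + 2 * Complex.I) * χ a else 0) +
          (if k = 0 then (if a = 0 then 8 else 0) else 0)))) / 12 := by
      intro k
      rw [map_div₀, hrc, hyc]
      have h4 : (k + a = 0) ↔ (k = a) := by
        rw [add_eq_zero_iff_eq_neg, hneg]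
      simp only [hy, h4]
      rw [← hr2]
      by_cases hk : k = 0
      · subst hk
        by_cases ha : a = 0
        · subst ha
          simp only [↓reduceIte, AddChar.map_zero_eq_one]
          field_simp
          linear_combination (-4) * hI
        · have ha' : ¬ (0 : A) = a := fun h => ha h.symm
          simp only [ha, ha', ↓reduceIte, AddChar.map_zero_eq_one]
          field_simp
          ring
      · by_cases ha : k = a
        · subst ha
          simp only [hk, ↓reduceIte]
          field_simp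
          ring
        · simp only [hk, ha, ↓reduceIte]
          field_simp
          ring
    unfold ov
    rw [Finset.sum_congr rfl fun k _ => h3 k, ← Finset.sum_div, Finset.sum_add_distrib,
      Finset.sum_add_distrib, Finset.sum_add_distrib, AddChar.sum_eq_ite, Finset.sum_ite_eq',
      Finset.sum_ite_eq', Finset.sum_ite_eq', if_pos (Finset.mem_univ _),
      if_pos (Finset.mem_univ _), if_pos (Finset.mem_univ _), h8]
    push_cast
    ring
  refine ⟨fun k => y k / r, 1, ?_, ?_, ?_, Or.inl rfl⟩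
  · rw [hov, if_pos rfl, if_pos rfl, AddChar.zero_apply]
    ring
  · intro a χ hv
    rw [hov, h8]
    have hpm : χ a = 1 ∨ χ a = -1 := by
      have : χ a * χ a = 1 := by
        rw [← AddChar.map_add_eq_mul, h2, AddChar.map_zero_eq_one]
      exact mul_self_eq_one_iff.1 this
    by_cases ha : a = 0
    · have hχ : χ ≠ 0 := by
        rcases hv with h | h
        · exact absurd ha h
        · exact h
      rw [if_neg hχ, if_pos ha, ha, AddChar.map_zero_eq_one]
      have e1 : ((0 : ℂ) + (-2 - 2 * Complex.I) + (-2 + 2 * Complex.I) * 1 + 8) / 12 =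
        ((1 / 3 : ℝ) : ℂ) := by push_cast; ring
      rw [e1, Complex.conj_ofReal]
      push_cast
      norm_num
    · rw [if_neg ha]
      by_cases hχ : χ = 0
      · rw [if_pos hχ, hχ, AddChar.zero_apply]
        have e1 : ((8 : ℂ) + (-2 - 2 * Complex.I) + (-2 + 2 * Complex.I) * 1 + 0) / 12 =
          ((1 / 3 : ℝ) : ℂ) := by push_cast; ring
        rw [e1, Complex.conj_ofReal]
        push_cast
        norm_num
      · rw [if_neg hχ]
        rcases hpm with h | h
        · rw [h]
          have e1 : ((0 : ℂ) + (-2 - 2 * Complex.I) + (-2 + 2 * Complex.I) * 1 + 0) / 12 =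
            ((-(1 / 3) : ℝ) : ℂ) := by push_cast; ring
          rw [e1, Complex.conj_ofReal]
          push_cast
          norm_num
        · rw [h]
          have e1 : ((0 : ℂ) + (-2 - 2 * Complex.I) + (-2 + 2 * Complex.I) * (-1) + 0) / 12 =
            ((-(1 / 3) : ℝ) : ℂ) * Complex.I := by push_cast; ring
          rw [e1, map_mul, Complex.conj_ofReal, Complex.conj_I]
          push_cast
          linear_combination (-1 / 9 : ℂ) * hI
  · intro k
    simp only [hy, one_mul]
    rw [hneg]

/-- from the quartic equations -/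
theorem par_of_G [DecidableEq A] (x : A → ℂ) (ε : ℂ) (hε : ε = 1 ∨ ε = -1)
    (hpar : ∀ k, x (-k) = ε * x k) (hn : ∑ k, conj (x k) * x k = 1)
    (h : ∀ a m : A, G x a m =
      ((if a = 0 then 1 else 0) + (if m = 0 then 1 else 0)) / ((Fintype.card A : ℂ) + 1)) :
    Par x ε := by
  set y : EuclideanSpace ℂ A := WithLp.toLp 2 x with hy
  have hov : ov x 0 0 = 1 := by
    unfold ov
    rw [← hn]
    refine Finset.sum_congr rfl fun k _ => ?_
    simp
  have h1 : ‖y‖ = 1 := by
    have h2 : ((‖y‖ ^ 2 : ℝ) : ℂ) = 1 := by rw [norm_sq_eq]; exact hov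
    have h3 : ‖y‖ ^ 2 = 1 := by exact_mod_cast h2
    exact (pow_eq_one_iff_of_nonneg (norm_nonneg _) two_ne_zero).1 h3
  have h2 : IsFiducial y := isFiducial_of_G h1 h
  obtain ⟨h3, h4⟩ := (fid_iff y).1 h2
  exact ⟨h3, h4, hpar, hε⟩

theorem exist_two : ∃ (x : ZMod 2 → ℂ) (ε : ℂ), Par x ε := by
  set r : ℝ := Real.sqrt 3 with hr
  have hr2 : r ^ 2 = 3 := Real.sq_sqrt (by norm_num)
  have hr0 : 0 ≤ r := Real.sqrt_nonneg _
  have hr3 : r ≤ 3 := by nlinarith
  set α : ℂ := ((Real.sqrt ((3 + r) / 6) : ℝ) : ℂ) with hα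
  set β : ℂ := ((Real.sqrt ((3 - r) / 6) : ℝ) : ℂ) with hβ
  set t : ℂ := ((Real.sqrt 2 : ℝ) : ℂ) with ht
  have hα2 : α ^ 2 = (3 + r) / 6 := by
    rw [hα, ← Complex.ofReal_pow, Real.sq_sqrt (by linarith)]; push_cast; ring
  have hβ2 : β ^ 2 = (3 - r) / 6 := by
    rw [hβ, ← Complex.ofReal_pow, Real.sq_sqrt (by linarith)]; push_cast; ring
  have ht2 : t ^ 2 = 2 := by
    rw [ht, ← Complex.ofReal_pow, Real.sq_sqrt (by norm_num)]; norm_num
  have ht0 : t ≠ 0 := by
    intro h; rw [h] at ht2; norm_num at ht2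
  have hαc : conj α = α := by rw [hα, Complex.conj_ofReal]
  have hβc : conj β = β := by rw [hβ, Complex.conj_ofReal]
  have htc : conj t = t := by rw [ht, Complex.conj_ofReal]
  have hrC : (r : ℂ) ^ 2 = 3 := by exact_mod_cast hr2
  have hI := Complex.I_sq
  set u : ℂ := (1 + Complex.I) / t with hu
  have huc : conj u = (1 - Complex.I) / t := by
    rw [hu, map_div₀, htc, map_add, map_one, Complex.conj_I]; ring
  have huu : u * conj u = 1 := by
    rw [huc, hu]
    field_simp
    linear_combination -hI - ht2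
  have hu2 : u ^ 2 + conj u ^ 2 = 0 := by
    rw [huc, hu, div_pow, div_pow, ← add_div]
    have : (1 + Complex.I) ^ 2 + (1 - Complex.I) ^ 2 = 0 := by linear_combination 2 * hI
    rw [this, zero_div]
  set x : ZMod 2 → ℂ := fun k => if k = 0 then α else β * u with hx
  have hx0 : x 0 = α := by simp [hx]
  have hx1 : x 1 = β * u := by simp [hx]
  have hs : ∀ f : ZMod 2 → ℂ, ∑ k, f k = f 0 + f 1 := fun f => Fin.sum_univ_two f
  have h11 : (1 : ZMod 2) + 1 = 0 := by decide
  have h10 : (1 : ZMod 2) ≠ 0 := by decide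
  have hall : ∀ a : ZMod 2, a = 0 ∨ a = 1 := by decide
  have hneg : ∀ a : ZMod 2, -a = a := by decide
  have hxc1 : conj (β * u) = β * conj u := by rw [map_mul, hβc]
  have hN : α ^ 4 + β ^ 4 = 2 / 3 := by
    have e1 : α ^ 4 = ((3 + r) / 6) ^ 2 := by rw [← hα2]; ring
    have e2 : β ^ 4 = ((3 - r) / 6) ^ 2 := by rw [← hβ2]; ring
    rw [e1, e2]
    linear_combination (1 / 18 : ℂ) * hrC
  have hM : α ^ 2 * β ^ 2 = 1 / 6 := by
    rw [hα2, hβ2]
    linear_combination (-1 / 36 : ℂ) * hrC
  refine ⟨x, 1, par_of_G x 1 (Or.inl rfl) (fun k => by rw [hneg, one_mul]) ?_ ?_⟩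
  · rw [hs, hx0, hx1, hxc1, hαc]
    have : β * conj u * (β * u) = β ^ 2 := by linear_combination β ^ 2 * huu
    rw [this, ← sq, hα2, hβ2]
    ring
  · intro a m
    rw [ZMod.card]
    unfold G
    rw [hs]
    rcases hall a with rfl | rfl <;> rcases hall m with rfl | rfl
    · simp only [add_zero, hx0, hx1, hxc1, hαc, if_true]
      have : β * conj u * (β * u) * (β * u) * (β * conj u) = β ^ 4 := by
        linear_combination (β ^ 4 * (u * conj u + 1)) * huu
      rw [this]
      push_cast
      linear_combination hN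
    · simp only [add_zero, zero_add, h11, h10, hx0, hx1, hxc1, hαc, if_true, if_false]
      push_cast
      linear_combination (2 * α ^ 2 * β ^ 2) * huu + 2 * hM
    · simp only [add_zero, zero_add, h11, h10, hx0, hx1, hxc1, hαc, if_true, if_false]
      push_cast
      linear_combination (2 * α ^ 2 * β ^ 2) * huu + 2 * hM
    · simp only [add_zero, zero_add, h11, h10, hx0, hx1, hxc1, hαc, if_false]
      linear_combination (α ^ 2 * β ^ 2) * hu2

theorem exist_three : ∃ (x : ZMod 3 → ℂ) (ε : ℂ), Par x ε := by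
  set t : ℂ := ((Real.sqrt 2 : ℝ) : ℂ) with ht
  have ht2 : t ^ 2 = 2 := by
    rw [ht, ← Complex.ofReal_pow, Real.sq_sqrt (by norm_num)]; norm_num
  have ht0 : t ≠ 0 := by
    intro h; rw [h] at ht2; norm_num at ht2
  have htc : conj t = t := by rw [ht, Complex.conj_ofReal]
  set c : ℂ := 1 / t with hc
  have hcc : conj c = c := by rw [hc, map_div₀, htc, map_one]
  have hc2 : c ^ 2 = 1 / 2 := by rw [hc, div_pow, ht2, one_pow]
  set x : ZMod 3 → ℂ := fun k => if k = 0 then 0 else if k = 1 then c else -c with hx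
  have hx0 : x 0 = 0 := by simp [hx]
  have h10 : (1 : ZMod 3) ≠ 0 := by decide
  have h20 : (2 : ZMod 3) ≠ 0 := by decide
  have h21 : (2 : ZMod 3) ≠ 1 := by decide
  have hx1 : x 1 = c := by simp [hx, h10]
  have hx2 : x 2 = -c := by simp [hx, h20, h21]
  have hs : ∀ f : ZMod 3 → ℂ, ∑ k, f k = f 0 + f 1 + f 2 := fun f => Fin.sum_univ_three f
  have hall : ∀ a : ZMod 3, a = 0 ∨ a = 1 ∨ a = 2 := by decide
  have e11 : (1 : ZMod 3) + 1 = 2 := by decide
  have e12 : (1 : ZMod 3) + 2 = 0 := by decide
  have e21 : (2 : ZMod 3) + 1 = 0 := by decide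
  have e22 : (2 : ZMod 3) + 2 = 1 := by decide
  have n1 : -(1 : ZMod 3) = 2 := by decide
  have n2 : -(2 : ZMod 3) = 1 := by decide
  refine ⟨x, -1, par_of_G x (-1) (Or.inr rfl) ?_ ?_ ?_⟩
  · intro k
    rcases hall k with rfl | rfl | rfl
    · rw [neg_zero, hx0, mul_zero]
    · rw [n1, hx1, hx2]; ring
    · rw [n2, hx1, hx2]; ring
  · rw [hs, hx0, hx1, hx2, map_neg, hcc]
    linear_combination 2 * hc2
  · intro a m
    rw [ZMod.card]
    unfold G
    rw [hs]
    have hc4 : c ^ 4 = 1 / 4 := by
      have : c ^ 4 = (c ^ 2) ^ 2 := by ring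
      rw [this, hc2]; norm_num
    rcases hall a with rfl | rfl | rfl <;> rcases hall m with rfl | rfl | rfl <;>
      simp only [add_zero, zero_add, e11, e12, e21, e22, h10, h20, hx0, hx1, hx2, hcc, map_neg,
        map_zero, if_true, if_false] <;> push_cast <;>
      first
        | linear_combination 2 * hc4
        | linear_combination hc4
        | ring

end Pool.Agent.U338.SIC
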